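import Pool.Agent.T9h50.TB.Rep

/-!
# Packed polynomials in two variables
-/

set_option autoImplicit false

namespace Pool.Agent.T9h50.TL

open Pool.Agent.T9h50.TB (evR dR nrm addp scp mulp evR_addp evR_scp evR_mulp nrm_addp nrm_scp
  nrm_mulp nrm_cons hasDerivAt_evR fI fI_eq fN fN_eq)

/-- the value of a list of digits in base `X` -/
def pkb (X : Int) : List Int → Int
  | [] => 0
  | a :: p => Int.add a (Int.mul X (pkb X p))

/-- the value of a polynomial in two variables, at `(X, Y)` -/
def pk2 (X Y : Int) : List (List Int) → Int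
  | [] => 0
  | p :: P => Int.add (pkb X p) (Int.mul Y (pk2 X Y P))

/-- the real function -/
noncomputable def ev2 : List (List Int) → ℝ → ℝ → ℝ
  | [], _, _ => 0
  | p :: P, u, v => evR p u + v * ev2 P u v

/-- sum of the absolute values of the coefficients -/
def nrm2 : List (List Int) → Nat
  | [] => 0
  | p :: P => Nat.add (nrm p) (nrm2 P)

def add2 : List (List Int) → List (List Int) → List (List Int)
  | [], Q => Q
  | p :: P, [] => p :: P
  | p :: P, q :: Q => addp p q :: add2 P Q

def sc2 (c : List Int) : List (List Int) → List (List Int)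
  | [] => []
  | p :: P => mulp c p :: sc2 c P

def mul2 : List (List Int) → List (List Int) → List (List Int)
  | [], _ => []
  | p :: P, Q => add2 (sc2 p Q) ([] :: mul2 P Q)

/-- the lengths of the inner lists are at most `n` -/
def Len (n : ℕ) (P : List (List Int)) : Prop := ∀ p ∈ P, p.length ≤ n

variable {X Y : ℤ}

lemma pkb_cons (a : Int) (p : List Int) : pkb X (a :: p) = a + X * pkb X p := rfl
lemma pkb_nil : pkb X [] = 0 := rfl
lemma pk2_cons (p : List Int) (P : List (List Int)) : pk2 X Y (p :: P) = pkb X p + Y * pk2 X Y P := rfl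
lemma pk2_nil : pk2 X Y [] = 0 := rfl
lemma nrm2_cons (p : List Int) (P : List (List Int)) : nrm2 (p :: P) = nrm p + nrm2 P := rfl

lemma pkb_addp (p q : List Int) : pkb X (addp p q) = pkb X p + pkb X q := by
  induction p generalizing q with
  | nil => simp [addp, pkb_nil]
  | cons a p ih =>
    cases q with
    | nil => simp [addp, pkb_nil]
    | cons b q => simp only [addp, pkb_cons, ih]; ring

lemma pkb_scp (c : Int) (p : List Int) : pkb X (scp c p) = c * pkb X p := by
  induction p with
  | nil => simp [scp, pkb_nil]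
  | cons a p ih => simp only [scp, pkb_cons, ih]; ring

lemma pkb_mulp (p q : List Int) : pkb X (mulp p q) = pkb X p * pkb X q := by
  induction p with
  | nil => simp [mulp, pkb_nil]
  | cons a p ih => simp only [mulp, pkb_addp, pkb_scp, pkb_cons, ih]; ring

lemma pk2_add2 (P Q : List (List Int)) : pk2 X Y (add2 P Q) = pk2 X Y P + pk2 X Y Q := by
  induction P generalizing Q with
  | nil => simp [add2, pk2_nil]
  | cons p P ih =>
    cases Q with
    | nil => simp [add2, pk2_nil]
    | cons q Q => simp only [add2, pk2_cons, ih, pkb_addp]; ring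

lemma pk2_sc2 (c : List Int) (P : List (List Int)) : pk2 X Y (sc2 c P) = pkb X c * pk2 X Y P := by
  induction P with
  | nil => simp [sc2, pk2_nil]
  | cons p P ih => simp only [sc2, pk2_cons, ih, pkb_mulp]; ring

lemma pk2_mul2 (P Q : List (List Int)) : pk2 X Y (mul2 P Q) = pk2 X Y P * pk2 X Y Q := by
  induction P with
  | nil => simp [mul2, pk2_nil]
  | cons p P ih => simp only [mul2, pk2_add2, pk2_sc2, pk2_cons, pkb_nil, ih]; ring

lemma ev2_add2 (P Q : List (List Int)) (u v : ℝ) : ev2 (add2 P Q) u v = ev2 P u v + ev2 Q u v := by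
  induction P generalizing Q with
  | nil => simp [add2, ev2]
  | cons p P ih =>
    cases Q with
    | nil => simp [add2, ev2]
    | cons q Q => simp only [add2, ev2, ih, evR_addp]; ring

lemma ev2_sc2 (c : List Int) (P : List (List Int)) (u v : ℝ) :
    ev2 (sc2 c P) u v = evR c u * ev2 P u v := by
  induction P with
  | nil => simp [sc2, ev2]
  | cons p P ih => simp only [sc2, ev2, ih, evR_mulp]; ring

lemma ev2_mul2 (P Q : List (List Int)) (u v : ℝ) : ev2 (mul2 P Q) u v = ev2 P u v * ev2 Q u v := by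
  induction P with
  | nil => simp [mul2, ev2]
  | cons p P ih => simp only [mul2, ev2_add2, ev2_sc2, ev2, evR, ih]; ring

lemma nrm2_add2 (P Q : List (List Int)) : nrm2 (add2 P Q) ≤ nrm2 P + nrm2 Q := by
  induction P generalizing Q with
  | nil => simp [add2, nrm2]
  | cons p P ih =>
    cases Q with
    | nil => simp [add2, nrm2]
    | cons q Q =>
      simp only [add2, nrm2_cons]
      have := ih Q
      have h := nrm_addp p q
      omega

lemma nrm2_sc2 (c : List Int) (P : List (List Int)) : nrm2 (sc2 c P) ≤ nrm c * nrm2 P := by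
  induction P with
  | nil => simp [sc2, nrm2]
  | cons p P ih =>
    simp only [sc2, nrm2_cons]
    have h := nrm_mulp c p
    rw [Nat.mul_add]
    omega

lemma nrm2_mul2 (P Q : List (List Int)) : nrm2 (mul2 P Q) ≤ nrm2 P * nrm2 Q := by
  induction P with
  | nil => simp [mul2, nrm2]
  | cons p P ih =>
    simp only [mul2, nrm2_cons]
    calc nrm2 (add2 (sc2 p Q) ([] :: mul2 P Q)) ≤ nrm2 (sc2 p Q) + nrm2 ([] :: mul2 P Q) := nrm2_add2 _ _
      _ = nrm2 (sc2 p Q) + nrm2 (mul2 P Q) := by rw [nrm2_cons]; simp [nrm]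
      _ ≤ nrm p * nrm2 Q + nrm2 P * nrm2 Q := by have := nrm2_sc2 p Q; omega
      _ = (nrm p + nrm2 P) * nrm2 Q := by rw [add_mul]

lemma length_addp (p q : List Int) : (addp p q).length ≤ max p.length q.length := by
  induction p generalizing q with
  | nil => simp [addp]
  | cons a p ih =>
    cases q with
    | nil => simp [addp]
    | cons b q =>
      simp only [addp, List.length_cons]
      have := ih q
      omega

lemma length_scp (c : Int) (p : List Int) : (scp c p).length = p.length := by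
  induction p with
  | nil => rfl
  | cons a p ih => simp only [scp, List.length_cons, ih]

lemma length_mulp (p q : List Int) : (mulp p q).length ≤ p.length + q.length := by
  induction p with
  | nil => simp [mulp]
  | cons a p ih =>
    simp only [mulp, List.length_cons]
    have h1 := length_addp (scp a q) (0 :: mulp p q)
    rw [length_scp, List.length_cons] at h1
    omega

lemma Len.mono {m n : ℕ} {P : List (List Int)} (h : Len m P) (hmn : m ≤ n) : Len n P :=
  fun p hp => (h p hp).trans hmn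

lemma Len.add2 {m n : ℕ} {P Q : List (List Int)} (hP : Len m P) (hQ : Len n Q) :
    Len (max m n) (add2 P Q) := by
  induction P generalizing Q with
  | nil => exact fun p hp => (hQ p hp).trans (le_max_right _ _)
  | cons p P ih =>
    cases Q with
    | nil => exact fun q hq => (hP q hq).trans (le_max_left _ _)
    | cons q Q =>
      intro r hr
      simp only [TL.add2] at hr
      rcases List.mem_cons.1 hr with rfl | hr
      · have h1 := length_addp p q
        have h2 := hP p (by simp)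
        have h3 := hQ q (by simp)
        omega
      · exact ih (fun s hs => hP s (by simp [hs])) (fun s hs => hQ s (by simp [hs])) r hr

lemma Len.sc2 {m n : ℕ} {c : List Int} {Q : List (List Int)} (hc : c.length ≤ m) (hQ : Len n Q) :
    Len (m + n) (sc2 c Q) := by
  induction Q with
  | nil => intro p hp; simp [TL.sc2] at hp
  | cons q Q ih =>
    intro r hr
    simp only [TL.sc2] at hr
    rcases List.mem_cons.1 hr with rfl | hr
    · have h1 := length_mulp c q
      have h3 := hQ q (by simp)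
      omega
    · exact ih (fun s hs => hQ s (by simp [hs])) r hr

lemma Len.mul2 {m n : ℕ} {P Q : List (List Int)} (hP : Len m P) (hQ : Len n Q) :
    Len (m + n) (mul2 P Q) := by
  induction P with
  | nil => intro p hp; simp [TL.mul2] at hp
  | cons p P ih =>
    have h1 : Len (m + n) (TL.sc2 p Q) := Len.sc2 (hP p (by simp)) hQ
    have h2 : Len (m + n) ([] :: TL.mul2 P Q) := by
      intro r hr
      rcases List.mem_cons.1 hr with rfl | hr
      · simp
      · exact ih (fun s hs => hP s (by simp [hs])) r hr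
    have := Len.add2 h1 h2
    rw [max_self] at this
    exact this

/-! ### Uniqueness -/

def Sml (X : ℤ) (p : List Int) : Prop := ∀ a ∈ p, 2 * |a| < X

lemma sml_of_nrm {p : List Int} (h : 2 * (nrm p : ℤ) < X) : Sml X p := by
  induction p with
  | nil => intro a ha; simp at ha
  | cons b p ih =>
    rw [nrm_cons] at h
    push_cast at h
    have hb : |b| = (b.natAbs : ℤ) := Int.abs_eq_natAbs b
    intro a ha
    rcases List.mem_cons.1 ha with rfl | ha
    · have : (0 : ℤ) ≤ nrm p := by positivity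
      omega
    · exact ih (by omega) a ha

def Sml2 (X : ℤ) (P : List (List Int)) : Prop := ∀ p ∈ P, Sml X p

lemma sml2_of_nrm {P : List (List Int)} (h : 2 * (nrm2 P : ℤ) < X) : Sml2 X P := by
  induction P with
  | nil => intro a ha; simp at ha
  | cons p P ih =>
    rw [nrm2_cons] at h
    push_cast at h
    intro q hq
    rcases List.mem_cons.1 hq with rfl | hq
    · exact sml_of_nrm (by have : (0 : ℤ) ≤ nrm2 P := by positivity
                           omega)
    · exact ih (by have : (0 : ℤ) ≤ nrm p := by positivity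
                   omega) q hq

lemma pkb_abs (hX : 1 < X) (p : List Int) (hp : Sml X p) : 2 * |pkb X p| ≤ X ^ p.length - 1 := by
  induction p with
  | nil => simp [pkb_nil]
  | cons a p ih =>
    rw [pkb_cons, List.length_cons, pow_succ]
    have h1 := hp a (by simp)
    have h2 := ih (fun b hb => hp b (by simp [hb]))
    have h3 : |a + X * pkb X p| ≤ |a| + X * |pkb X p| := by
      refine (abs_add_le _ _).trans ?_
      rw [abs_mul, abs_of_pos (by omega : 0 < X)]
    have h4 : X * (2 * |pkb X p|) ≤ X * (X ^ p.length - 1) := by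
      apply mul_le_mul_of_nonneg_left h2; omega
    nlinarith

lemma unique_b (hX : 1 < X) (p q : List Int) (hp : Sml X p) (hq : Sml X q) (h : pkb X p = pkb X q)
    (x : ℝ) : evR p x = evR q x := by
  have zero : ∀ p : List Int, Sml X p → pkb X p = 0 → evR p x = 0 := by
    intro p
    induction p with
    | nil => intro _ _; rfl
    | cons a p ih =>
      intro hp h
      rw [pkb_cons] at h
      have ha := hp a (by simp)
      have hdiv : X ∣ a := ⟨-pkb X p, by linarith⟩
      have ha0 : a = 0 := by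
        apply Int.eq_zero_of_abs_lt_dvd hdiv
        have := abs_nonneg a
        omega
      have hp0 : pkb X p = 0 := by
        rw [ha0, zero_add] at h
        rcases mul_eq_zero.1 h with h | h
        · omega
        · exact h
      rw [evR, ih (fun b hb => hp b (by simp [hb])) hp0, ha0]
      simp
  induction p generalizing q with
  | nil => rw [zero q hq (by rw [← h]; rfl)]; rfl
  | cons a p ih =>
    cases q with
    | nil => rw [zero (a :: p) hp (by rw [h]; rfl)]; rfl
    | cons b q =>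
      rw [pkb_cons, pkb_cons] at h
      have ha := hp a (by simp)
      have hb := hq b (by simp)
      have hdiv : X ∣ a - b := ⟨pkb X q - pkb X p, by linarith⟩
      have hab : a - b = 0 := by
        apply Int.eq_zero_of_abs_lt_dvd hdiv
        have h1 : |a - b| ≤ |a| + |b| := abs_sub a b
        omega
      have hab' : a = b := by omega
      subst hab'
      have hX : X ≠ 0 := by omega
      have hpq : pkb X p = pkb X q := by
        have : X * pkb X p = X * pkb X q := by linarith
        exact mul_left_cancel₀ hX this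
      rw [evR, evR, ih q (fun c hc => hp c (by simp [hc])) (fun c hc => hq c (by simp [hc])) hpq]

lemma unique_2 {N : ℕ} (hX : 1 < X) (hY : Y = X ^ N) (P Q : List (List Int)) (hP : Sml2 X P)
    (hQ : Sml2 X Q) (lP : Len N P) (lQ : Len N Q) (h : pk2 X Y P = pk2 X Y Q) (u v : ℝ) :
    ev2 P u v = ev2 Q u v := by
  have hb : ∀ p : List Int, Sml X p → p.length ≤ N → 2 * |pkb X p| < Y := by
    intro p hp hl
    have h1 := pkb_abs hX p hp
    have h2 : X ^ p.length ≤ X ^ N := pow_le_pow_right₀ hX.le hl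
    rw [hY]; omega
  have hY0 : 0 < Y := by rw [hY]; exact pow_pos (by omega) _
  have key : ∀ p q : List Int, ∀ A B : ℤ, Sml X p → Sml X q → p.length ≤ N → q.length ≤ N →
      pkb X p + Y * A = pkb X q + Y * B → evR p u = evR q u ∧ A = B := by
    intro p q A B hp hq lp lq h
    have h1 := hb p hp lp
    have h2 := hb q hq lq
    have hdiv : Y ∣ pkb X p - pkb X q := ⟨B - A, by linarith⟩
    have h3 : pkb X p - pkb X q = 0 := by
      apply Int.eq_zero_of_abs_lt_dvd hdiv
      have h1 : |pkb X p - pkb X q| ≤ |pkb X p| + |pkb X q| := abs_sub _ _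
      omega
    refine ⟨unique_b hX p q hp hq (by omega) u, ?_⟩
    have : Y * A = Y * B := by linarith
    exact mul_left_cancel₀ hY0.ne' this
  induction P generalizing Q with
  | nil =>
    have z : ∀ Q : List (List Int), Sml2 X Q → Len N Q → pk2 X Y Q = 0 → ev2 Q u v = 0 := by
      intro Q
      induction Q with
      | nil => intro _ _ _; rfl
      | cons q Q ih =>
        intro hQ lQ h
        rw [pk2_cons] at h
        have hn : Sml X [] := by intro a ha; simp at ha
        obtain ⟨k1, k2⟩ := key q [] (pk2 X Y Q) 0 (hQ q (by simp)) hn (lQ q (by simp)) (by simp)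
          (by rw [h, pkb_nil]; ring)
        rw [ev2, k1, ih (fun r hr => hQ r (by simp [hr])) (fun r hr => lQ r (by simp [hr])) k2]
        simp [evR]
    rw [z Q hQ lQ (by rw [← h]; rfl)]; rfl
  | cons p P ih =>
    cases Q with
    | nil =>
      have hn : Sml X [] := by intro a ha; simp at ha
      rw [pk2_cons, pk2_nil] at h
      obtain ⟨k1, k2⟩ := key p [] (pk2 X Y P) 0 (hP p (by simp)) hn (lP p (by simp)) (by simp)
        (by rw [h, pkb_nil]; ring)
      have := ih [] (fun r hr => hP r (by simp [hr])) (fun r hr => by simp at hr)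
        (fun r hr => lP r (by simp [hr])) (fun r hr => by simp at hr) (by rw [k2]; rfl)
      show evR p u + v * ev2 P u v = 0
      rw [k1, this]
      simp [evR, ev2]
    | cons q Q =>
      rw [pk2_cons, pk2_cons] at h
      obtain ⟨k1, k2⟩ := key p q (pk2 X Y P) (pk2 X Y Q) (hP p (by simp)) (hQ q (by simp))
        (lP p (by simp)) (lQ q (by simp)) h
      rw [ev2, ev2, k1, ih Q (fun r hr => hP r (by simp [hr])) (fun r hr => hQ r (by simp [hr]))
        (fun r hr => lP r (by simp [hr])) (fun r hr => lQ r (by simp [hr])) k2]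

/-! ### The check -/

/-- the bound for the coefficients of degree `d` -/
def bd (lo hi : Nat) (d : Nat) : Nat := if d = 0 then 0 else if d < 4 then lo else hi

/-- the digits of a row -/
def chkRow (X lo hi : Nat) : Nat → Nat → Nat → Bool
  | 0, _, V => Nat.beq V 0
  | n + 1, d, V => (Nat.ble (Nat.mod V X) (Nat.add hi (bd lo hi d))).and <|
      (Nat.ble hi (Nat.add (Nat.mod V X) (bd lo hi d))).and (chkRow X lo hi n (Nat.succ d) (Nat.div V X))

/-- all rows -/
def chkAll (X Y lo hi N : Nat) : Nat → Nat → Nat → Bool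
  | 0, _, V => Nat.beq V 0
  | n + 1, d, V => (chkRow X lo hi N d (Nat.mod V Y)).and (chkAll X Y lo hi N n (Nat.succ d) (Nat.div V Y))

/-- the weighted bound -/
def WB (lo hi : Nat) : Nat → List Int → Prop
  | _, [] => True
  | d, a :: p => a.natAbs ≤ bd lo hi d ∧ WB lo hi (d + 1) p

def WB2 (lo hi : Nat) : Nat → List (List Int) → Prop
  | _, [] => True
  | d, p :: P => WB lo hi d p ∧ WB2 lo hi (d + 1) P

def geob (X : ℤ) : ℕ → ℤ
  | 0 => 0
  | n + 1 => 1 + X * geob X n

lemma geob_nonneg (hX : 0 < X) (n : ℕ) : 0 ≤ geob X n := by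
  induction n with
  | zero => simp [geob]
  | succ n ih => rw [geob]; positivity

lemma chkRow_sound {X lo hi : ℕ} (n d V : ℕ) (h : chkRow X lo hi n d V = true) :
    ∃ r : List Int, r.length = n ∧ WB lo hi d r ∧ pkb (X : ℤ) r = (V : ℤ) - hi * geob (X : ℤ) n := by
  induction n generalizing d V with
  | zero =>
    refine ⟨[], rfl, trivial, ?_⟩
    have : V = 0 := by simpa [chkRow] using h
    simp [pkb_nil, geob, this]
  | succ n ih =>
    rw [chkRow, Bool.and_eq_true, Bool.and_eq_true] at h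
    obtain ⟨h1, h2, h3⟩ := h
    obtain ⟨r, hr1, hr2, hr3⟩ := ih _ _ h3
    have h1' : V % X ≤ hi + bd lo hi d := Nat.le_of_ble_eq_true h1
    have h2' : hi ≤ V % X + bd lo hi d := Nat.le_of_ble_eq_true h2
    refine ⟨(((V % X : ℕ) : ℤ) - hi) :: r, by simp [hr1], ⟨?_, hr2⟩, ?_⟩
    · omega
    · rw [pkb_cons, hr3, geob]
      have h3 : ((V % X : ℕ) : ℤ) + X * ((V / X : ℕ) : ℤ) = V := by
        exact_mod_cast Nat.mod_add_div V X
      have h4 : (Nat.div V X) = V / X := rfl
      rw [h4]
      linear_combination h3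

lemma chkAll_sound {X Y lo hi N : ℕ} (n d V : ℕ) (h : chkAll X Y lo hi N n d V = true) :
    ∃ R : List (List Int), R.length = n ∧ Len N R ∧ WB2 lo hi d R ∧
      pk2 (X : ℤ) (Y : ℤ) R = (V : ℤ) - hi * geob (X : ℤ) N * geob (Y : ℤ) n := by
  induction n generalizing d V with
  | zero =>
    refine ⟨[], rfl, fun p hp => by simp at hp, trivial, ?_⟩
    have : V = 0 := by simpa [chkAll] using h
    simp [pk2_nil, geob, this]
  | succ n ih =>
    rw [chkAll, Bool.and_eq_true] at h
    obtain ⟨h1, h3⟩ := h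
    obtain ⟨R, hr1, hr2, hr3, hr4⟩ := ih _ _ h3
    obtain ⟨r, a1, a2, a3⟩ := chkRow_sound _ _ _ h1
    refine ⟨r :: R, by simp [hr1], ?_, ⟨a2, hr3⟩, ?_⟩
    · intro p hp
      rcases List.mem_cons.1 hp with rfl | hp
      · exact a1.le
      · exact hr2 p hp
    · rw [pk2_cons, hr4, a3, geob]
      have h3 : ((V % Y : ℕ) : ℤ) + Y * ((V / Y : ℕ) : ℤ) = V := by
        exact_mod_cast Nat.mod_add_div V Y
      have h4 : (Nat.div V Y) = V / Y := rfl
      have h5 : (Nat.mod V Y) = V % Y := rfl
      rw [h4, h5]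
      linear_combination h3

lemma bd_le {lo hi : ℕ} (d : ℕ) {ρ : ℝ} (h0 : 0 ≤ ρ) (h1 : ρ ≤ 1) :
    (bd lo hi d : ℝ) * ρ ^ d ≤ lo * ρ + hi * ρ ^ 4 := by
  unfold bd
  split_ifs with h2 h3
  · simp; positivity
  · have : ρ ^ d ≤ ρ := by
      calc ρ ^ d ≤ ρ ^ 1 := pow_le_pow_of_le_one h0 h1 (by omega)
        _ = ρ := pow_one _
    have h4 : (lo : ℝ) * ρ ^ d ≤ lo * ρ := by gcongr
    have : 0 ≤ (hi : ℝ) * ρ ^ 4 := by positivity
    linarith
  · have : ρ ^ d ≤ ρ ^ 4 := pow_le_pow_of_le_one h0 h1 (by omega)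
    have h4 : (hi : ℝ) * ρ ^ d ≤ hi * ρ ^ 4 := by gcongr
    have : 0 ≤ (lo : ℝ) * ρ := by positivity
    linarith

lemma bd_le_hi {lo hi : ℕ} (h : lo ≤ hi) (d : ℕ) : bd lo hi d ≤ hi := by
  unfold bd
  split_ifs <;> omega

lemma wb_eval {lo hi : ℕ} (p : List Int) (d : ℕ) (h : WB lo hi d p) {u ρ : ℝ} (h0 : 0 ≤ ρ)
    (h1 : ρ ≤ 1) (hu : |u| ≤ ρ) : ρ ^ d * |evR p u| ≤ p.length * (lo * ρ + hi * ρ ^ 4) := by
  induction p generalizing d with
  | nil => simp [evR]
  | cons a p ih =>
    obtain ⟨k1, k2⟩ := h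
    have k3 := ih (d + 1) k2
    have k4 : |(a : ℝ)| ≤ bd lo hi d := by
      have : |a| = (a.natAbs : ℤ) := Int.abs_eq_natAbs a
      have h5 : |a| ≤ (bd lo hi d : ℤ) := by omega
      exact_mod_cast h5
    rw [evR, List.length_cons]
    have k5 := bd_le (lo := lo) (hi := hi) d h0 h1
    have hd : 0 ≤ ρ ^ d := by positivity
    calc ρ ^ d * |(a : ℝ) + u * evR p u| ≤ ρ ^ d * (|(a : ℝ)| + |u| * |evR p u|) := by
          gcongr
          refine (abs_add_le _ _).trans ?_
          rw [abs_mul]
      _ ≤ ρ ^ d * (bd lo hi d + ρ * |evR p u|) := by gcongr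
      _ = bd lo hi d * ρ ^ d + ρ ^ (d + 1) * |evR p u| := by ring
      _ ≤ (lo * ρ + hi * ρ ^ 4) + p.length * (lo * ρ + hi * ρ ^ 4) := add_le_add k5 k3
      _ = _ := by push_cast; ring

lemma wb2_eval {lo hi N : ℕ} (P : List (List Int)) (d : ℕ) (h : WB2 lo hi d P) (hL : Len N P)
    {u v ρ : ℝ} (h0 : 0 ≤ ρ) (h1 : ρ ≤ 1) (hu : |u| ≤ ρ) (hv : |v| ≤ ρ) :
    ρ ^ d * |ev2 P u v| ≤ P.length * N * (lo * ρ + hi * ρ ^ 4) := by
  induction P generalizing d with
  | nil => simp [ev2]
  | cons p P ih =>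
    obtain ⟨k1, k2⟩ := h
    have k3 := ih (d + 1) k2 (fun q hq => hL q (by simp [hq]))
    have k4 := wb_eval p d k1 h0 h1 hu
    have k5 : (p.length : ℝ) ≤ N := by exact_mod_cast hL p (by simp)
    have hpos : 0 ≤ lo * ρ + hi * ρ ^ 4 := by positivity
    have k6 : (p.length : ℝ) * (lo * ρ + hi * ρ ^ 4) ≤ N * (lo * ρ + hi * ρ ^ 4) := by gcongr
    rw [ev2, List.length_cons]
    have hd : 0 ≤ ρ ^ d := by positivity
    calc ρ ^ d * |evR p u + v * ev2 P u v| ≤ ρ ^ d * (|evR p u| + |v| * |ev2 P u v|) := by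
          gcongr
          refine (abs_add_le _ _).trans ?_
          rw [abs_mul]
      _ ≤ ρ ^ d * (|evR p u| + ρ * |ev2 P u v|) := by gcongr
      _ = ρ ^ d * |evR p u| + ρ ^ (d + 1) * |ev2 P u v| := by ring
      _ ≤ N * (lo * ρ + hi * ρ ^ 4) + P.length * N * (lo * ρ + hi * ρ ^ 4) :=
        add_le_add (k4.trans k6) k3
      _ = _ := by push_cast; ring

lemma wb_sml {lo hi : ℕ} (hlh : lo ≤ hi) (hX : 2 * (hi : ℤ) < X) (p : List Int) (d : ℕ)
    (h : WB lo hi d p) : Sml X p := by
  induction p generalizing d with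
  | nil => intro a ha; simp at ha
  | cons a p ih =>
    obtain ⟨k1, k2⟩ := h
    intro b hb
    rcases List.mem_cons.1 hb with rfl | hb
    · have h1 := bd_le_hi hlh d
      have : |b| = (b.natAbs : ℤ) := Int.abs_eq_natAbs b
      omega
    · exact ih _ k2 b hb

lemma wb2_sml {lo hi : ℕ} (hlh : lo ≤ hi) (hX : 2 * (hi : ℤ) < X) (P : List (List Int)) (d : ℕ)
    (h : WB2 lo hi d P) : Sml2 X P := by
  induction P generalizing d with
  | nil => intro a ha; simp at ha
  | cons a p ih =>
    obtain ⟨k1, k2⟩ := h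
    intro b hb
    rcases List.mem_cons.1 hb with rfl | hb
    · exact wb_sml hlh hX b d k1
    · exact ih _ k2 b hb

/-! ### Functions represented by packed integers -/

/-- `V` is the packed form of a polynomial with norm at most `B` and degree less than `n` in the first
variable, which represents the function `f` -/
def Rep2 (X Y : ℤ) (V : ℤ) (B n : ℕ) (f : ℝ → ℝ → ℝ) : Prop :=
  ∃ P : List (List Int), pk2 X Y P = V ∧ nrm2 P ≤ B ∧ Len n P ∧ ∀ u v, ev2 P u v = f u v

lemma Rep2.list (P : List (List Int)) {B n : ℕ} (h : nrm2 P ≤ B) (hl : Len n P) :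
    Rep2 X Y (pk2 X Y P) B n (ev2 P) := ⟨P, rfl, h, hl, fun _ _ => rfl⟩

lemma Rep2.add {V W : ℤ} {B C m n : ℕ} {f g : ℝ → ℝ → ℝ} (h : Rep2 X Y V B m f)
    (k : Rep2 X Y W C n g) : Rep2 X Y (V + W) (B + C) (max m n) (fun u v => f u v + g u v) := by
  obtain ⟨p, p1, p2, p3, p4⟩ := h
  obtain ⟨q, q1, q2, q3, q4⟩ := k
  exact ⟨add2 p q, by rw [pk2_add2, p1, q1], (nrm2_add2 p q).trans (by omega), p3.add2 q3,
    fun u v => by rw [ev2_add2, p4, q4]⟩

lemma Rep2.mul {V W : ℤ} {B C m n : ℕ} {f g : ℝ → ℝ → ℝ} (h : Rep2 X Y V B m f)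
    (k : Rep2 X Y W C n g) : Rep2 X Y (V * W) (B * C) (m + n) (fun u v => f u v * g u v) := by
  obtain ⟨p, p1, p2, p3, p4⟩ := h
  obtain ⟨q, q1, q2, q3, q4⟩ := k
  exact ⟨mul2 p q, by rw [pk2_mul2, p1, q1], (nrm2_mul2 p q).trans (Nat.mul_le_mul p2 q2), p3.mul2 q3,
    fun u v => by rw [ev2_mul2, p4, q4]⟩

lemma nrm_scp1 (c : ℤ) (P : List (List Int)) : nrm2 (sc2 [c] P) ≤ c.natAbs * nrm2 P := by
  refine (nrm2_sc2 [c] P).trans ?_
  simp [nrm]

lemma len_sc1 (c : ℤ) {n : ℕ} (P : List (List Int)) (h : Len n P) (hn : 1 ≤ n) : Len n (sc2 [c] P) := by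
  intro r hr
  induction P with
  | nil => simp [TL.sc2] at hr
  | cons p P ih =>
    simp only [TL.sc2] at hr
    rcases List.mem_cons.1 hr with rfl | hr
    · have h1 : mulp [c] p = addp (scp c p) [0] := rfl
      rw [h1]
      refine (length_addp _ _).trans ?_
      rw [length_scp]
      have := h p (by simp)
      simp only [List.length_cons, List.length_nil]
      omega
    · exact ih (fun s hs => h s (by simp [hs])) hr

lemma Rep2.smul {V : ℤ} {B n : ℕ} {f : ℝ → ℝ → ℝ} (c : ℤ) (h : Rep2 X Y V B n f) (hn : 1 ≤ n) :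
    Rep2 X Y (c * V) (c.natAbs * B) n (fun u v => c * f u v) := by
  obtain ⟨p, p1, p2, p3, p4⟩ := h
  exact ⟨sc2 [c] p, by rw [pk2_sc2, p1]; simp [pkb_cons, pkb_nil],
    (nrm_scp1 c p).trans (Nat.mul_le_mul_left _ p2), len_sc1 c p p3 hn,
    fun u v => by rw [ev2_sc2, p4]; simp [evR]⟩

lemma Rep2.sub {V W : ℤ} {B C m n : ℕ} {f g : ℝ → ℝ → ℝ} (h : Rep2 X Y V B m f)
    (k : Rep2 X Y W C n g) (hn : 1 ≤ n) :
    Rep2 X Y (V - W) (B + C) (max m n) (fun u v => f u v - g u v) := by
  have := h.add (k.smul (-1) hn)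
  convert this using 1
  · ring
  · simp
  · funext u v; push_cast; ring

lemma Rep2.const (c : ℤ) : Rep2 X Y c c.natAbs 1 (fun _ _ => (c : ℝ)) :=
  ⟨[[c]], by simp [pk2_cons, pk2_nil, pkb_cons, pkb_nil], by simp [nrm, nrm2],
    fun p hp => by simp at hp; simp [hp], fun u v => by simp [evR, ev2]⟩

lemma Rep2.mono {V : ℤ} {B C m n : ℕ} {f : ℝ → ℝ → ℝ} (h : Rep2 X Y V B m f) (hBC : B ≤ C)
    (hmn : m ≤ n) : Rep2 X Y V C n f := by
  obtain ⟨p, p1, p2, p3, p4⟩ := h
  exact ⟨p, p1, p2.trans hBC, p3.mono hmn, p4⟩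

/-- the check of a packed polynomial: `G` is the packed polynomial with all coefficients `1` -/
def chk2 (X Y lo hi N M : Nat) (G : Nat) (V : Int) : Bool :=
  Int.casesOn (motive := fun _ => Bool) (Int.add V (Int.ofNat (Nat.mul hi G)))
    (fun n => chkAll X Y lo hi N M 0 n) (fun _ => false)

theorem Rep2.bound {X Y lo hi N M G : ℕ} {V : ℤ} {B n : ℕ} {f : ℝ → ℝ → ℝ}
    (h : Rep2 (X : ℤ) (Y : ℤ) V B n f) (hn : n ≤ N) (hX : 1 < X) (hY : Y = X ^ N)
    (hG : (G : ℤ) = geob (X : ℤ) N * geob (Y : ℤ) M) (hB : 2 * B < X) (hlh : lo ≤ hi)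
    (hhi : 2 * hi < X) (hc : chk2 X Y lo hi N M G V = true) {u v ρ : ℝ} (h0 : 0 ≤ ρ) (h1 : ρ ≤ 1)
    (hu : |u| ≤ ρ) (hv : |v| ≤ ρ) : |f u v| ≤ M * N * (lo * ρ + hi * ρ ^ 4) := by
  obtain ⟨p, p1, p2, p3, p4⟩ := h
  have key : ∃ k : ℕ, Int.add V (Int.ofNat (Nat.mul hi G)) = Int.ofNat k ∧
      chkAll X Y lo hi N M 0 k = true := by
    unfold chk2 at hc
    cases hV : Int.add V (Int.ofNat (Nat.mul hi G)) with
    | ofNat k => rw [hV] at hc; exact ⟨k, rfl, hc⟩
    | negSucc k => rw [hV] at hc; simp at hc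
  obtain ⟨k, hk, hc⟩ := key
  obtain ⟨R, r1, r2, r3, r4⟩ := chkAll_sound M 0 k hc
  have hXz : (1 : ℤ) < (X : ℤ) := by exact_mod_cast hX
  have hp : Sml2 (X : ℤ) p := sml2_of_nrm (by omega)
  have hr : Sml2 (X : ℤ) R := wb2_sml hlh (by omega) R 0 r3
  have hV : pk2 (X : ℤ) (Y : ℤ) p = pk2 (X : ℤ) (Y : ℤ) R := by
    rw [p1, r4]
    have : V + ((hi * G : ℕ) : ℤ) = (k : ℤ) := hk
    push_cast at this
    rw [hG] at this
    linarith
  rw [← p4, unique_2 (N := N) hXz (by rw [hY]; push_cast; ring) p R hp hr (p3.mono hn) r2 hV]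
  have := wb2_eval R 0 r3 r2 h0 h1 hu hv
  rw [r1, pow_zero, one_mul] at this
  exact this

end Pool.Agent.T9h50.TL
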