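import Mathlib

/-!
# A boundary value problem near a saddle
-/

set_option autoImplicit false

open scoped NNReal Topology
open Set Filter

namespace Pool.Agent.T9h50.TL

section

variable {V : Type*} [NormedAddCommGroup V] [NormedSpace ℝ V]

/-- maximum principle, from the left -/
lemma mp_left {b : ℝ → V} {b' : V} {s t μ : ℝ} (hst : s < t) (hb : HasDerivAt b b' t)
    (hmax : ∀ x ∈ Icc s t, ‖b x‖ ≤ ‖b t‖) : μ * ‖b t‖ ≤ ‖μ • b t + b'‖ := by
  have h1 : Tendsto (slope b t) (𝓝[<] t) (𝓝 b') :=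
    (hasDerivAt_iff_tendsto_slope.1 hb).mono_left (nhdsWithin_mono t fun x hx => ne_of_lt hx)
  have h2 : Tendsto (fun x => ‖μ • b t + slope b t x‖) (𝓝[<] t) (𝓝 ‖μ • b t + b'‖) :=
    (tendsto_const_nhds.add h1).norm
  refine ge_of_tendsto h2 ?_
  have hI : Ioo s t ∈ 𝓝[<] t := Ioo_mem_nhdsLT hst
  filter_upwards [hI] with x hx
  have hpos : 0 < t - x := sub_pos.2 hx.2
  have e : (t - x) • (μ • b t + slope b t x) = (1 + (t - x) * μ) • b t - b x := by
    rw [slope_def_module, smul_add, smul_smul, smul_smul]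
    have : (t - x) * (x - t)⁻¹ = -1 := by
      have h0 : x - t ≠ 0 := by linarith [hx.2] |> fun h : x - t < 0 => ne_of_lt h
      field_simp
      ring
    rw [this, add_smul, one_smul, neg_smul, one_smul]
    abel
  have h3 : ‖(t - x) • (μ • b t + slope b t x)‖ = (t - x) * ‖μ • b t + slope b t x‖ := by
    rw [norm_smul, Real.norm_of_nonneg hpos.le]
  have h4 : (1 + (t - x) * μ) * ‖b t‖ - ‖b t‖ ≤ ‖(1 + (t - x) * μ) • b t - b x‖ := by
    have h5 := norm_sub_norm_le ((1 + (t - x) * μ) • b t) (b x)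
    rw [norm_smul, Real.norm_eq_abs] at h5
    have h6 := hmax x ⟨hx.1.le, hx.2.le⟩
    have h7 : (1 + (t - x) * μ) * ‖b t‖ ≤ |1 + (t - x) * μ| * ‖b t‖ :=
      mul_le_mul_of_nonneg_right (le_abs_self _) (norm_nonneg _)
    linarith
  rw [← e, h3] at h4
  have h8 : (t - x) * (μ * ‖b t‖) ≤ (t - x) * ‖μ • b t + slope b t x‖ := by
    calc (t - x) * (μ * ‖b t‖) = (1 + (t - x) * μ) * ‖b t‖ - ‖b t‖ := by ring
      _ ≤ _ := h4
  exact le_of_mul_le_mul_left h8 hpos

/-- maximum principle, from the right -/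
lemma mp_right {b : ℝ → V} {b' : V} {t T μ : ℝ} (htT : t < T) (hb : HasDerivAt b b' t)
    (hmax : ∀ x ∈ Icc t T, ‖b x‖ ≤ ‖b t‖) : μ * ‖b t‖ ≤ ‖μ • b t - b'‖ := by
  have hb2 : HasDerivAt (fun x => b (-x)) (-b') (-t) := by
    have h1 : HasDerivAt (fun x : ℝ => -x) (-1) (-t) := hasDerivAt_neg _
    have h2 : HasDerivAt b b' (-(-t)) := by rw [neg_neg]; exact hb
    have := h2.scomp (-t) h1
    simpa [Function.comp_def] using this
  have := mp_left (b := fun x => b (-x)) (b' := -b') (s := -T) (t := -t) (μ := μ) (by linarith) hb2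
    (fun x hx => by
      simp only [neg_neg]
      exact hmax (-x) ⟨by linarith [hx.2], by linarith [hx.1]⟩)
  simp only [neg_neg] at this
  rw [← sub_eq_add_neg] at this
  exact this

end

variable {F : Type*} [NormedAddCommGroup F] [NormedSpace ℝ F]

/-- the linear part of the equation: growth `lam` in the first component, `M` in the second one -/
structure Spl (lam : ℂ) (M : F →L[ℝ] F) (L : ℂ →L[ℝ] F) (ν g : ℝ) : Prop where
  g0 : 0 < g
  ν0 : 0 ≤ ν
  mu : ∃ μ : ℝ, ν ≤ μ ∧ ‖(μ : ℂ) - lam‖ ≤ μ - ν - g ∧ ∀ b : F, ‖μ • b + M b‖ ≤ (μ + ν - g) * ‖b‖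
  hL : ∀ z : ℂ, ‖L z‖ ≤ g * ‖z‖

variable {lam : ℂ} {M : F →L[ℝ] F} {L : ℂ →L[ℝ] F} {ν g : ℝ}

/-- the linear vector field -/
noncomputable def lin (lam : ℂ) (M : F →L[ℝ] F) (L : ℂ →L[ℝ] F) (w : ℂ × F) : ℂ × F :=
  (lam * w.1, M w.2 + L w.1)

theorem apriori (h : Spl lam M L ν g) {ε η A0 B0 : ℝ} (hε0 : 0 ≤ ε) (hε : 6 * ε ≤ g) (hη : 0 ≤ η)
    {s0 t0 : ℝ} (hst : s0 ≤ t0) {w w' : ℝ → ℂ × F} (hw : ∀ t ∈ Icc s0 t0, HasDerivAt w (w' t) t)
    (he : ∀ t ∈ Icc s0 t0, ‖w' t - lin lam M L (w t)‖ ≤ ε * ‖w t‖ + η * Real.exp (ν * (t - t0)))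
    (hA : ‖(w t0).1‖ ≤ A0) (hB : ‖(w s0).2‖ ≤ B0 * Real.exp (ν * (s0 - t0))) {t : ℝ}
    (ht : t ∈ Icc s0 t0) :
    ‖w t‖ ≤ (4 * A0 + 2 * B0 + 6 / g * η) * Real.exp (ν * (t - t0)) := by
  obtain ⟨g0, ν0, ⟨μ, hνμ, h1, h2⟩, hL⟩ := h
  set x : ℝ → ℝ := fun t => Real.exp (-(ν * (t - t0))) with hx
  have hx0 : ∀ t, 0 < x t := fun t => Real.exp_pos _
  have hxx : ∀ t, x t * Real.exp (ν * (t - t0)) = 1 := fun t => by
    simp only [x]; rw [← Real.exp_add]; simp
  have hx' : ∀ t, HasDerivAt x (-ν * x t) t := by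
    intro t
    have k1 : HasDerivAt (fun t => -(ν * (t - t0))) (-(ν * 1)) t :=
      (((hasDerivAt_id t).sub_const t0).const_mul ν).fun_neg
    have k2 := k1.exp
    refine k2.congr_deriv ?_
    simp only [x]; ring
  have hcw : ContinuousOn w (Icc s0 t0) := fun t ht => (hw t ht).continuousAt.continuousWithinAt
  have hcx : Continuous x := by
    simp only [hx]; fun_prop
  have hz : ∀ t ∈ Icc s0 t0, HasDerivAt (fun t => x t • (w t).1)
      (x t • (w' t).1 + (-ν * x t) • (w t).1) t := fun t ht => (hx' t).fun_smul (hw t ht).fst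
  have hb : ∀ t ∈ Icc s0 t0, HasDerivAt (fun t => x t • (w t).2)
      (x t • (w' t).2 + (-ν * x t) • (w t).2) t := fun t ht => (hx' t).fun_smul (hw t ht).snd
  have hne : (Icc s0 t0).Nonempty := nonempty_Icc.2 hst
  obtain ⟨tz, htz, hmz⟩ := isCompact_Icc.exists_isMaxOn hne
    (f := fun t => ‖x t • (w t).1‖) (fun t ht => (hz t ht).continuousAt.norm.continuousWithinAt)
  obtain ⟨tb, htb, hmb⟩ := isCompact_Icc.exists_isMaxOn hne
    (f := fun t => ‖x t • (w t).2‖) (fun t ht => (hb t ht).continuousAt.norm.continuousWithinAt)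
  set p := ‖x tz • (w tz).1‖ with hp
  set q := ‖x tb • (w tb).2‖ with hq
  have hp0 : 0 ≤ p := norm_nonneg _
  have hq0 : 0 ≤ q := norm_nonneg _
  have hpm : ∀ t ∈ Icc s0 t0, ‖x t • (w t).1‖ ≤ p := fun t ht => hmz ht
  have hqm : ∀ t ∈ Icc s0 t0, ‖x t • (w t).2‖ ≤ q := fun t ht => hmb ht
  have hpm' : ∀ t ∈ Icc s0 t0, x t * ‖(w t).1‖ ≤ p := fun t ht => by
    have := hpm t ht
    rwa [norm_smul, Real.norm_of_nonneg (hx0 t).le] at this
  have hqm' : ∀ t ∈ Icc s0 t0, x t * ‖(w t).2‖ ≤ q := fun t ht => by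
    have := hqm t ht
    rwa [norm_smul, Real.norm_of_nonneg (hx0 t).le] at this
  have hwm : ∀ t ∈ Icc s0 t0, x t * ‖w t‖ ≤ p + q := fun t ht => by
    have k1 := hpm' t ht
    have k2 := hqm' t ht
    rw [Prod.norm_def]
    rcases max_cases ‖(w t).1‖ ‖(w t).2‖ with ⟨k, -⟩ | ⟨k, -⟩ <;> rw [k] <;> linarith
  have hem : ∀ t ∈ Icc s0 t0, x t * ‖w' t - lin lam M L (w t)‖ ≤ ε * (p + q) + η := by
    intro t ht
    calc x t * ‖w' t - lin lam M L (w t)‖ ≤ x t * (ε * ‖w t‖ + η * Real.exp (ν * (t - t0))) := by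
          have := he t ht
          have := hx0 t
          gcongr
      _ = ε * (x t * ‖w t‖) + η * (x t * Real.exp (ν * (t - t0))) := by ring
      _ ≤ ε * (p + q) + η := by
          rw [hxx, mul_one]
          have := hwm t ht
          gcongr
  have hA0 : 0 ≤ A0 := (norm_nonneg _).trans hA
  have hB0 : 0 ≤ B0 := by
    have := (norm_nonneg _).trans hB
    exact nonneg_of_mul_nonneg_left this (Real.exp_pos _)
  set S : ℝ := ε * (p + q) + η with hS
  have hS0 : 0 ≤ S := by positivity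
  -- first component
  have Hz : p ≤ A0 + S / g := by
    rcases lt_or_eq_of_le htz.2 with hlt | heq
    · have k1 : (μ - ν) * p ≤ ‖(μ - ν) • x tz • (w tz).1 - (x tz • (w' tz).1 + (-ν * x tz) • (w tz).1)‖ :=
        mp_right (b := fun t => x t • (w t).1) (t := tz) (μ := μ - ν) hlt (hz tz htz) (fun y hy => hpm y ⟨htz.1.trans hy.1, hy.2⟩)
      have e : (μ - ν) • x tz • (w tz).1 - (x tz • (w' tz).1 + (-ν * x tz) • (w tz).1) =
          x tz • (((μ : ℂ) - lam) * (w tz).1 - (w' tz - lin lam M L (w tz)).1) := by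
        simp only [lin, Prod.fst_sub, Complex.real_smul]
        push_cast
        ring
      rw [e, norm_smul, Real.norm_of_nonneg (hx0 tz).le] at k1
      have k2 : ‖((μ : ℂ) - lam) * (w tz).1 - (w' tz - lin lam M L (w tz)).1‖ ≤
          (μ - ν - g) * ‖(w tz).1‖ + ‖w' tz - lin lam M L (w tz)‖ := by
        refine (norm_sub_le _ _).trans ?_
        rw [norm_mul]
        exact add_le_add (mul_le_mul_of_nonneg_right h1 (norm_nonneg _)) (norm_fst_le _)
      have k3 : (μ - ν) * p ≤ (μ - ν - g) * p + S := by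
        have hxp := (hx0 tz).le
        calc (μ - ν) * p ≤ x tz * ((μ - ν - g) * ‖(w tz).1‖ + ‖w' tz - lin lam M L (w tz)‖) :=
              k1.trans (mul_le_mul_of_nonneg_left k2 hxp)
          _ = (μ - ν - g) * (x tz * ‖(w tz).1‖) + x tz * ‖w' tz - lin lam M L (w tz)‖ := by ring
          _ = (μ - ν - g) * p + x tz * ‖w' tz - lin lam M L (w tz)‖ := by
              rw [hp, norm_smul, Real.norm_of_nonneg hxp]
          _ ≤ _ := by have := hem tz htz; linarith
      have k4 : g * p ≤ S := by linarith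
      have k5 : p ≤ S / g := by rw [le_div_iff₀ g0]; linarith
      linarith
    · have : p ≤ A0 := by
        rw [hp, heq]
        have : x t0 = 1 := by simp [x]
        rw [this, one_smul]; exact hA
      have : 0 ≤ S / g := by positivity
      linarith
  have Hb : q ≤ B0 + p + S / g := by
    rcases lt_or_eq_of_le htb.1 with hlt | heq
    · have k1 : (μ + ν) * q ≤ ‖(μ + ν) • x tb • (w tb).2 + (x tb • (w' tb).2 + (-ν * x tb) • (w tb).2)‖ :=
        mp_left (b := fun t => x t • (w t).2) (t := tb) (μ := μ + ν) hlt (hb tb htb) (fun y hy => hqm y ⟨hy.1, hy.2.trans htb.2⟩)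
      have e : (μ + ν) • x tb • (w tb).2 + (x tb • (w' tb).2 + (-ν * x tb) • (w tb).2) =
          x tb • ((μ • (w tb).2 + M (w tb).2) + L (w tb).1 + (w' tb - lin lam M L (w tb)).2) := by
        simp only [lin, Prod.snd_sub, smul_add, smul_sub, smul_smul]
        have e1 : ((μ + ν) * x tb) • (w tb).2 + (x tb • (w' tb).2 + (-ν * x tb) • (w tb).2) =
          (((μ + ν) * x tb) • (w tb).2 + (-ν * x tb) • (w tb).2) + x tb • (w' tb).2 := by abel
        rw [e1, ← add_smul]
        have e2 : (μ + ν) * x tb + -ν * x tb = x tb * μ := by ring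
        rw [e2]
        abel
      rw [e, norm_smul, Real.norm_of_nonneg (hx0 tb).le] at k1
      have k2 : ‖(μ • (w tb).2 + M (w tb).2) + L (w tb).1 + (w' tb - lin lam M L (w tb)).2‖ ≤
          (μ + ν - g) * ‖(w tb).2‖ + g * ‖(w tb).1‖ + ‖w' tb - lin lam M L (w tb)‖ := by
        refine (norm_add_le _ _).trans (add_le_add ((norm_add_le _ _).trans ?_) (norm_snd_le _))
        exact add_le_add (h2 _) (hL _)
      have k3 : (μ + ν) * q ≤ (μ + ν - g) * q + g * p + S := by
        have hxp := (hx0 tb).le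
        calc (μ + ν) * q ≤ x tb * ((μ + ν - g) * ‖(w tb).2‖ + g * ‖(w tb).1‖ +
              ‖w' tb - lin lam M L (w tb)‖) := k1.trans (mul_le_mul_of_nonneg_left k2 hxp)
          _ = (μ + ν - g) * (x tb * ‖(w tb).2‖) + g * (x tb * ‖(w tb).1‖) +
              x tb * ‖w' tb - lin lam M L (w tb)‖ := by ring
          _ = (μ + ν - g) * q + g * (x tb * ‖(w tb).1‖) + x tb * ‖w' tb - lin lam M L (w tb)‖ := by
              rw [hq, norm_smul, Real.norm_of_nonneg hxp]
          _ ≤ _ := by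
              have k4 := hem tb htb
              have k5 := hpm' tb htb
              have k6 : g * (x tb * ‖(w tb).1‖) ≤ g * p := mul_le_mul_of_nonneg_left k5 g0.le
              linarith
      have k4 : g * q ≤ g * p + S := by linarith
      have k5 : q ≤ p + S / g := by
        have : p + S / g = (g * p + S) / g := by field_simp
        rw [this, le_div_iff₀ g0]; linarith
      linarith
    · have : q ≤ B0 := by
        rw [hq, ← heq, norm_smul, Real.norm_of_nonneg (hx0 s0).le]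
        calc x s0 * ‖(w s0).2‖ ≤ x s0 * (B0 * Real.exp (ν * (s0 - t0))) :=
              mul_le_mul_of_nonneg_left hB (hx0 s0).le
          _ = B0 * (x s0 * Real.exp (ν * (s0 - t0))) := by ring
          _ = B0 := by rw [hxx, mul_one]
      have : 0 ≤ S / g := by positivity
      linarith
  have Hs : p + q ≤ 4 * A0 + 2 * B0 + 6 / g * η := by
    have k1 : S / g ≤ (p + q) / 6 + η / g := by
      rw [div_le_iff₀ g0, add_mul, div_mul_cancel₀ _ g0.ne', hS]
      nlinarith
    have k2 : 6 / g * η = 6 * (η / g) := by ring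
    linarith
  have Hf := hwm t ht
  calc ‖w t‖ = (x t * ‖w t‖) * Real.exp (ν * (t - t0)) := by
        have := hxx t
        calc ‖w t‖ = ‖w t‖ * 1 := (mul_one _).symm
          _ = ‖w t‖ * (x t * Real.exp (ν * (t - t0))) := by rw [this]
          _ = _ := by ring
    _ ≤ (p + q) * Real.exp (ν * (t - t0)) := by gcongr
    _ ≤ _ := by gcongr

end Pool.Agent.T9h50.TL
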