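import Pool.Agent.T9h50.TL.Bvp

/-!
# A boundary value problem near a saddle: existence
-/

set_option autoImplicit false

open scoped NNReal Topology
open Set Filter

namespace Pool.Agent.T9h50.TL

variable {F : Type*} [NormedAddCommGroup F] [NormedSpace ℝ F] [CompleteSpace F]

/-- variation of constants -/
lemma lin_ode (M : F →L[ℝ] F) {f : ℝ → F} (hf : Continuous f) (a : ℝ) (b0 : F) :
    ∃ b : ℝ → F, b a = b0 ∧ ∀ t, HasDerivAt b (M (b t) + f t) t := by
  set e : ℝ → (F →L[ℝ] F) := fun t => NormedSpace.exp (t • M) with he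
  have he' : ∀ t, HasDerivAt e (M * e t) t := fun t => hasDerivAt_exp_smul_const' M t
  have hec : Continuous e := continuous_iff_continuousAt.2 fun t => (he' t).continuousAt
  have hee : ∀ t, e t * e (-t) = 1 := by
    intro t
    have hcm : Commute (t • M) ((-t) • M) := (Commute.refl M).smul_left t |>.smul_right (-t)
    simp only [he]
    let _ : NormedAlgebra ℚ (F →L[ℝ] F) := NormedAlgebra.restrictScalars ℚ ℝ (F →L[ℝ] F)
    rw [← NormedSpace.exp_add_of_commute hcm, ← add_smul, add_neg_cancel, zero_smul, NormedSpace.exp_zero]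
  set c : ℝ → F := fun t => e (-a) b0 + ∫ s in a..t, e (-s) (f s) with hc
  have hcc : Continuous fun s => e (-s) (f s) := (hec.comp continuous_neg).clm_apply hf
  have hc' : ∀ t, HasDerivAt c (e (-t) (f t)) t := fun t =>
    (intervalIntegral.integral_hasDerivAt_right (hcc.intervalIntegrable _ _)
      hcc.stronglyMeasurable.stronglyMeasurableAtFilter hcc.continuousAt).const_add _
  refine ⟨fun t => e t (c t), ?_, fun t => ?_⟩
  · have h1 : c a = e (-a) b0 := by simp [c]
    show e a (c a) = b0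
    rw [h1]
    have := congrArg (fun A : F →L[ℝ] F => A b0) (hee a)
    simpa using this
  · have h1 : HasDerivAt (fun t => e t (c t)) ((M * e t) (c t) + e t (e (-t) (f t))) t :=
      (he' t).clm_apply (hc' t)
    refine h1.congr_deriv ?_
    have h2 : e t (e (-t) (f t)) = f t := congrArg (fun A : F →L[ℝ] F => A (f t)) (hee t)
    rw [h2]
    rfl

/-- the linear boundary value problem -/
lemma lin_bvp (lam : ℂ) (M : F →L[ℝ] F) (L : ℂ →L[ℝ] F) {f : ℝ → ℂ × F} (hf : Continuous f) (T : ℝ)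
    (zT : ℂ) : ∃ w : ℝ → ℂ × F, (w T).1 = zT ∧ (w 0).2 = 0 ∧
      ∀ t, HasDerivAt w (lin lam M L (w t) + f t) t := by
  obtain ⟨z, hz0, hz⟩ := lin_ode (F := ℂ) (ContinuousLinearMap.restrictScalars ℝ
    (ContinuousLinearMap.mul ℂ ℂ lam)) (hf.fst) T zT
  have hzc : Continuous z := continuous_iff_continuousAt.2 fun t => (hz t).continuousAt
  obtain ⟨b, hb0, hb⟩ := lin_ode (F := F) M (f := fun t => L (z t) + (f t).2)
    ((L.continuous.comp hzc).add hf.snd) 0 0
  refine ⟨fun t => (z t, b t), hz0, hb0, fun t => ?_⟩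
  have h1 := (hz t).prodMk (hb t)
  refine h1.congr_deriv ?_
  simp only [lin]
  refine Prod.ext ?_ ?_
  · show lam * z t + (f t).1 = lam * z t + (f t).1; rfl
  · show M (b t) + (L (z t) + (f t).2) = (M (b t) + L (z t)) + (f t).2; abel

/-- the nonlinear boundary value problem -/
theorem bvp {lam : ℂ} {M : F →L[ℝ] F} {L : ℂ →L[ℝ] F} {ν g : ℝ} (h : Spl lam M L ν g)
    {T R ε : ℝ} (hT : 0 ≤ T) (hR : 0 ≤ R) (hε0 : 0 ≤ ε) (hε : 12 * ε ≤ g) {zT : ℂ} (hzT : 8 * ‖zT‖ ≤ R)
    {N : ℝ → ℂ × F → ℂ × F} (hN0 : ∀ t ∈ Icc 0 T, N t 0 = 0)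
    (hNc : ContinuousOn (fun p : ℝ × (ℂ × F) => N p.1 p.2) (Icc 0 T ×ˢ univ))
    (hN : ∀ t ∈ Icc 0 T, ∀ x y : ℂ × F, ‖x‖ ≤ R → ‖y‖ ≤ R → ‖N t x - N t y‖ ≤ ε * ‖x - y‖) :
    ∃ w : ℝ → ℂ × F, (w T).1 = zT ∧ (w 0).2 = 0 ∧
      (∀ t ∈ Icc 0 T, HasDerivAt w (lin lam M L (w t) + N t (w t)) t) ∧
      ∀ t ∈ Icc 0 T, ‖w t‖ ≤ R * Real.exp (ν * (t - T)) := by
  have g0 := h.g0
  have ν0 := h.ν0
  set I := Icc (0 : ℝ) T with hI
  have h0I : (0 : ℝ) ∈ I := ⟨le_rfl, hT⟩
  set pr : ℝ → I := projIcc 0 T hT with hpr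
  have hprc : Continuous pr := continuous_projIcc
  have hprI : ∀ t (ht : t ∈ I), pr t = ⟨t, ht⟩ := fun t ht => projIcc_of_mem hT ht
  -- weighted functions
  set W : C(I, ℂ × F) → ℝ → ℂ × F := fun x t => Real.exp (ν * ((pr t : ℝ) - T)) • x (pr t) with hW
  have hWc : ∀ x, Continuous (W x) := fun x => by
    simp only [hW]
    exact (Real.continuous_exp.comp (by fun_prop)).smul (x.continuous.comp hprc)
  set f : C(I, ℂ × F) → ℝ → ℂ × F := fun x t => N (pr t) (W x t) with hf
  have hfc : ∀ x, Continuous (f x) := by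
    intro x
    have h1 : Continuous fun t => ((pr t : ℝ), W x t) := (continuous_subtype_val.comp hprc).prodMk (hWc x)
    refine continuousOn_univ.1 (hNc.comp h1.continuousOn fun t _ => ⟨(pr t).2, mem_univ _⟩)
  choose w hw1 hw2 hw3 using fun x => lin_bvp lam M L (hfc x) T zT
  have hwc : ∀ x, Continuous (w x) := fun x => continuous_iff_continuousAt.2 fun t => (hw3 x t).continuousAt
  set Φ : C(I, ℂ × F) → C(I, ℂ × F) := fun x =>
    ⟨fun t => Real.exp (-(ν * ((t : ℝ) - T))) • w x t,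
      (Real.continuous_exp.comp (by fun_prop)).smul ((hwc x).comp continuous_subtype_val)⟩ with hΦ
  have hΦ1 : ∀ x (t : I), Φ x t = Real.exp (-(ν * ((t : ℝ) - T))) • w x t := fun _ _ => rfl
  have hexp : ∀ t ∈ I, Real.exp (ν * (t - T)) ≤ 1 := fun t ht =>
    Real.exp_le_one_iff.2 (mul_nonpos_of_nonneg_of_nonpos ν0 (by linarith [ht.2]))
  have hWI : ∀ x t (ht : t ∈ I), W x t = Real.exp (ν * (t - T)) • x ⟨t, ht⟩ := fun x t ht => by
    simp only [hW, hprI t ht]
  have hfI : ∀ x t (_ : t ∈ I), f x t = N t (W x t) := fun x t ht => by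
    simp only [hf, hprI t ht]
  have hWn : ∀ x, ‖x‖ ≤ R → ∀ t (_ : t ∈ I), ‖W x t‖ ≤ R * Real.exp (ν * (t - T)) := by
    intro x hx t ht
    rw [hWI x t ht, norm_smul, Real.norm_of_nonneg (Real.exp_pos _).le, mul_comm]
    have := (x.norm_coe_le_norm ⟨t, ht⟩).trans hx
    have := Real.exp_pos (ν * (t - T))
    gcongr
  have hWn1 : ∀ x, ‖x‖ ≤ R → ∀ t (_ : t ∈ I), ‖W x t‖ ≤ R := fun x hx t ht =>
    (hWn x hx t ht).trans (mul_le_of_le_one_right hR (hexp t ht))
  -- a priori bound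
  have hbound : ∀ x, ‖x‖ ≤ R → ∀ t ∈ I, ‖w x t‖ ≤ R * Real.exp (ν * (t - T)) := by
    intro x hx t ht
    have k := apriori h (ε := 0) (η := ε * R) (A0 := ‖zT‖) (B0 := 0) le_rfl (by linarith)
      (by positivity) hT (w := w x) (w' := fun t => lin lam M L (w x t) + f x t)
      (fun t _ => hw3 x t) (fun t ht => by
        rw [add_sub_cancel_left, zero_mul, zero_add, hfI x t ht]
        have := hN t ht (W x t) 0 (hWn1 x hx t ht) (by simpa using hR)
        rw [hN0 t ht, sub_zero, sub_zero] at this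
        refine this.trans ?_
        have := hWn x hx t ht
        calc ε * ‖W x t‖ ≤ ε * (R * Real.exp (ν * (t - T))) := by gcongr
          _ = _ := by ring) (by rw [hw1]) (by rw [hw2]; simp) ht
    refine k.trans ?_
    have : 4 * ‖zT‖ + 2 * 0 + 6 / g * (ε * R) ≤ R := by
      have e : 6 / g * (ε * R) = (12 * ε) * R / (2 * g) := by field_simp; ring
      have e2 : (12 * ε) * R / (2 * g) ≤ R / 2 := by
        rw [div_le_div_iff₀ (by positivity) (by norm_num)]
        nlinarith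
      linarith
    have := Real.exp_pos (ν * (t - T))
    gcongr
  have hdiff : ∀ x y, ‖x‖ ≤ R → ‖y‖ ≤ R → ∀ t ∈ I, ‖w x t - w y t‖ ≤
      1 / 2 * ‖x - y‖ * Real.exp (ν * (t - T)) := by
    intro x y hx hy t ht
    have k := apriori h (ε := 0) (η := ε * ‖x - y‖) (A0 := 0) (B0 := 0) le_rfl (by linarith)
      (by positivity) hT (w := fun t => w x t - w y t)
      (w' := fun t => (lin lam M L (w x t) + f x t) - (lin lam M L (w y t) + f y t))
      (fun t _ => (hw3 x t).sub (hw3 y t)) (fun t ht => by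
        have e : lin lam M L (w x t) + f x t - (lin lam M L (w y t) + f y t) -
            lin lam M L (w x t - w y t) = f x t - f y t := by
          have : lin lam M L (w x t - w y t) = lin lam M L (w x t) - lin lam M L (w y t) := by
            simp only [lin, Prod.fst_sub, Prod.snd_sub, map_sub, mul_sub]
            refine Prod.ext ?_ ?_
            · rfl
            · simp only [Prod.snd_sub]; abel
          rw [this]; abel
        rw [e, zero_mul, zero_add, hfI x t ht, hfI y t ht]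
        have := hN t ht (W x t) (W y t) (hWn1 x hx t ht) (hWn1 y hy t ht)
        refine this.trans ?_
        have e2 : W x t - W y t = Real.exp (ν * (t - T)) • (x - y) ⟨t, ht⟩ := by
          rw [hWI x t ht, hWI y t ht, ContinuousMap.sub_apply, smul_sub]
        rw [e2, norm_smul, Real.norm_of_nonneg (Real.exp_pos _).le]
        have k2 := (x - y).norm_coe_le_norm ⟨t, ht⟩
        calc ε * (Real.exp (ν * (t - T)) * ‖(x - y) ⟨t, ht⟩‖) ≤
            ε * (Real.exp (ν * (t - T)) * ‖x - y‖) := by gcongr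
          _ = _ := by ring) (by simp [hw1]) (by simp [hw2]) ht
    refine k.trans ?_
    have : 4 * 0 + 2 * 0 + 6 / g * (ε * ‖x - y‖) ≤ 1 / 2 * ‖x - y‖ := by
      have e : 6 / g * (ε * ‖x - y‖) = (12 * ε) * ‖x - y‖ / (2 * g) := by field_simp; ring
      have e2 : (12 * ε) * ‖x - y‖ / (2 * g) ≤ ‖x - y‖ / 2 := by
        rw [div_le_div_iff₀ (by positivity) (by norm_num)]
        nlinarith [norm_nonneg (x - y)]
      linarith
    have := Real.exp_pos (ν * (t - T))
    gcongr
  have hexx : ∀ t : ℝ, Real.exp (-(ν * (t - T))) * Real.exp (ν * (t - T)) = 1 := fun t => by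
    rw [← Real.exp_add]; simp
  set s : Set C(I, ℂ × F) := Metric.closedBall 0 R with hs
  have hsc : IsComplete s := Metric.isClosed_closedBall.isComplete
  have hmem : ∀ x, x ∈ s ↔ ‖x‖ ≤ R := fun x => by rw [hs, mem_closedBall_zero_iff]
  have hsf : MapsTo Φ s s := by
    intro x hx
    rw [hmem] at hx ⊢
    rw [ContinuousMap.norm_le _ hR]
    intro t
    rw [hΦ1, norm_smul, Real.norm_of_nonneg (Real.exp_pos _).le]
    calc Real.exp (-(ν * ((t : ℝ) - T))) * ‖w x t‖ ≤
        Real.exp (-(ν * ((t : ℝ) - T))) * (R * Real.exp (ν * (t - T))) := by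
          have := hbound x hx t t.2
          gcongr
      _ = R * (Real.exp (-(ν * ((t : ℝ) - T))) * Real.exp (ν * (t - T))) := by ring
      _ = R := by rw [hexx, mul_one]
  have hcontr : ContractingWith (1 / 2 : ℝ≥0) (hsf.restrict Φ s s) := by
    refine ⟨by rw [← NNReal.coe_lt_coe]; norm_num, LipschitzWith.of_dist_le_mul fun x y => ?_⟩
    have hx := (hmem _).1 x.2
    have hy := (hmem _).1 y.2
    show dist (Φ x.1) (Φ y.1) ≤ _ * dist x.1 y.1
    rw [dist_eq_norm, dist_eq_norm, ContinuousMap.norm_le _ (by positivity)]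
    intro t
    rw [ContinuousMap.sub_apply, hΦ1, hΦ1, ← smul_sub, norm_smul, Real.norm_of_nonneg (Real.exp_pos _).le]
    calc Real.exp (-(ν * ((t : ℝ) - T))) * ‖w x.1 t - w y.1 t‖ ≤
        Real.exp (-(ν * ((t : ℝ) - T))) * (1 / 2 * ‖x.1 - y.1‖ * Real.exp (ν * (t - T))) := by
          have := hdiff x.1 y.1 hx hy t t.2
          gcongr
      _ = 1 / 2 * ‖x.1 - y.1‖ * (Real.exp (-(ν * ((t : ℝ) - T))) * Real.exp (ν * (t - T))) := by ring
      _ = _ := by rw [hexx, mul_one]; norm_num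
  obtain ⟨x, hxs, hfix, -⟩ := hcontr.exists_fixedPoint' hsc hsf (x := 0)
    (by rw [hmem]; simpa using hR) (edist_ne_top _ _)
  have hx := (hmem _).1 hxs
  have hWw : ∀ t (_ : t ∈ I), W x t = w x t := by
    intro t ht
    have k : x ⟨t, ht⟩ = Real.exp (-(ν * (t - T))) • w x t := by
      have : Φ x ⟨t, ht⟩ = x ⟨t, ht⟩ := by rw [hfix]
      rw [← this, hΦ1]
    rw [hWI x t ht, k, smul_smul, mul_comm, hexx, one_smul]
  refine ⟨w x, hw1 x, hw2 x, fun t ht => ?_, fun t ht => hbound x hx t ht⟩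
  have k := hw3 x t
  rw [hfI x t ht, hWw t ht] at k
  exact k

end Pool.Agent.T9h50.TL
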