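import Pool.Agent.T9h50.TL.Wph2
import Pool.Agent.T9h50.TL.Loc2
import Pool.Agent.T9h50.TL.Nwt

/-!
# Solutions which stay near the relative equilibrium are limits of unbounded solutions
-/

set_option autoImplicit false
set_option exponentiation.threshold 3000

open scoped NNReal ComplexConjugate Topology
open Complex Set Filter

namespace Pool.Agent.T9h50.TL

open Pool.Agent.T9h50.TB (E kd kd_eq)

/-- the softened solution starting at `x` stays far from collisions and is unbounded -/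
def UnbE (m : Fin 3 → ℝ) (x : E) : Prop :=
  ∃ y : ℝ → E, y 0 = x ∧ (∀ t, 0 ≤ t → HasDerivAt y (fld P9 m (y t)) t) ∧ (∀ t, 0 ≤ t → Far P9 0 (y t)) ∧
    ∀ R : ℝ, ∃ t : ℝ, 0 ≤ t ∧ R < ‖(y t).1‖

theorem UnbE.unb {m : Fin 3 → ℝ} (hM : m 0 + m 1 + m 2 ≠ 0) {x : E} (h : UnbE m x) (c d : ℂ) :
    Unb m (emb P9 m c d x) := by
  obtain ⟨y, h0, h1, h2, h3⟩ := h
  refine ⟨fun t => emb P9 m (c + t • d) d (y t), by simp [h0], newton hM h1 h2 c d, 0, 1, fun R => ?_⟩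
  obtain ⟨t, ht, hR⟩ := h3 R
  refine ⟨t, ht, ?_⟩
  have e : (emb P9 m (c + t • d) d (y t)).1 0 - (emb P9 m (c + t • d) d (y t)).1 1 = (y t).1 := by
    show c + t • d + cm m (y t).1 (y t).2.1 + (y t).1 - (c + t • d + cm m (y t).1 (y t).2.1) = _
    ring
  rw [e]
  exact hR

lemma emb_cnv (m : Fin 3 → ℝ) (c d : ℂ) (x : E) : emb P9 m c d (cnv P0 P9 x) = emb P0 m c d x := by
  have h : ∀ z : ℂ, P9.sg • ((P0.sg / P9.sg) • z) = P0.sg • z := by
    intro z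
    have := P9.sg0.ne'
    rw [smul_smul]; congr 1; field_simp
  simp only [emb, cnv, h]

/-- a dense set of unbounded solutions in relative coordinates gives a dense set in phase space -/
theorem unb_of_unbE {m : Fin 3 → ℝ} (hM : m 0 + m 1 + m 2 ≠ 0) {z : Ph}
    (h : ∀ V ∈ 𝓝 (rel P0 z), ∃ x ∈ V, UnbE m (cnv P0 P9 x)) : ∀ U ∈ 𝓝 z, ∃ w ∈ U, Unb m w := by
  intro U hU
  set c := z.1 1 - cm m (z.1 0 - z.1 1) (z.1 1 - z.1 2) with hc
  set d := z.2 1 - cm m (z.2 0 - z.2 1) (z.2 1 - z.2 2) with hd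
  have he : emb P0 m c d (rel P0 z) = z := emb_rel P0 m z
  have hV : emb P0 m c d ⁻¹' U ∈ 𝓝 (rel P0 z) := by
    apply (continuous_emb P0 m c d).continuousAt
    rw [he]; exact hU
  obtain ⟨x, hx, hx2⟩ := h _ hV
  have h3 := hx2.unb hM c d
  rw [emb_cnv] at h3
  exact ⟨_, hx, h3⟩

theorem unbE_dense {κ : ℝ} (hκ : κ ≤ 1 / 10 ^ 500) {m : Fin 3 → ℝ} (hm : NearM κ m) {γ : ℝ → E}
    (hγ : ∀ t, 0 ≤ t → HasDerivAt γ (fld P0 m (γ t)) t)
    (hn : ∀ t, 0 ≤ t → ∃ u : ℂ, ‖u‖ = 1 ∧ ‖γ t - u • xre‖ ≤ κ) :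
    ∀ V ∈ 𝓝 (γ 0), ∃ x ∈ V, UnbE m (cnv P0 P9 x) := by
  intro V hV
  have hκ10 : κ ≤ 1 / 10 := hκ.trans (by norm_num)
  have hfr : ∀ t, 0 ≤ t → (γ t).2.1 ≠ 0 ∧ ‖vf γ t • γ t - xre‖ ≤ 4 * κ ∧ |omf γ t - s3| ≤ 18 * κ := by
    intro t ht
    obtain ⟨u, hu, hd⟩ := hn t ht
    exact frame_close hu hκ10 hd
  have hF : Frm κ m γ := ⟨hκ, hm, hγ, fun t ht => (hfr t ht).1, fun t ht => (hfr t ht).2.1,
    fun t ht => (hfr t ht).2.2⟩
  obtain ⟨x, hxV, T, hT0, y, hy0, hyd, hfar, u, hu, hd⟩ := loc hF hV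
  have hm6 : NearM (1 / 10 ^ 6) m := hm.mono (hκ.trans (by norm_num))
  have hm62 : NearM (1 / 10 ^ 62) m := hm.mono (hκ.trans (by norm_num))
  obtain ⟨Y, hY0, hY⟩ := TB.exists_forward (fld P9 m) _ (fld_lip lip9 hm6) (cnv P0 P9 x)
  have hg : ∀ t ∈ Icc 0 T, Y t = cnv P0 P9 (y t) := fun t ht =>
    glue le0 lip9 hm6 (fun t ht => hY t ht.1) hyd hfar (by rw [hY0, hy0]) ht
  set v : ℂ := rot (-24) * u with hv
  have hv1 : ‖v‖ = 1 := by rw [hv, norm_mul, norm_rot, hu, one_mul]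
  set Z : ℝ → E := fun τ => v • Y (τ + 24 + T) with hZ
  have hZd : ∀ τ, -24 ≤ τ → HasDerivAt Z (fld P9 m (Z τ)) τ := by
    intro τ hτ
    have k1 := hY (τ + 24 + T) (by linarith)
    have k2 : HasDerivAt (fun τ => Y (τ + 24 + T)) (fld P9 m (Y (τ + 24 + T))) τ := by
      have e : (fun τ => Y (τ + 24 + T)) = fun τ => Y (τ - (-24 - T)) := by
        funext τ; congr 1; ring
      rw [e]
      have k3 : HasDerivAt Y (fld P9 m (Y (τ + 24 + T))) (τ - (-24 - T)) := by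
        have : τ - (-24 - T) = τ + 24 + T := by ring
        rw [this]; exact k1
      exact k3.comp_sub_const τ (-24 - T)
    have k4 := k2.const_smul v
    rw [← fld_rot P9 m hv1] at k4
    exact k4
  have hZ0 : Z (-24) = cnv P0 P9 (v • y T) := by
    have e : (-24 : ℝ) + 24 + T = T := by ring
    simp only [hZ]
    rw [e, hg T ⟨hT0, le_rfl⟩, cnv_smul]
  have hdist : dist (v • y T) (cu (-24)) ≤ 6 / 10 ^ 58 := by
    rw [dist_eq_norm, cu, hv, mul_smul, ← smul_sub, norm_smul, norm_rot, one_mul]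
    exact hd
  have hesc := fun (τ : ℝ) (hτ : -24 ≤ τ) => escape_cu hm62 hZd hZ0 hdist hτ
  have hnz : ∀ τ, ‖(Z τ).1‖ = ‖(Y (τ + 24 + T)).1‖ := by
    intro τ
    show ‖v * (Y (τ + 24 + T)).1‖ = _
    rw [norm_mul, hv1, one_mul]
  refine ⟨x, hxV, Y, hY0, hY, fun t ht => ?_, fun R => ?_⟩
  · rcases le_or_gt t T with h5 | h5
    · rw [hg t ⟨ht, h5⟩, far_cnv]
      exact (hfar t ⟨ht, h5⟩).leP le0
    · have h6 := (hesc (t - T - 24) (by linarith)).1
      have e1 : Z (t - T - 24) = v • Y t := by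
        simp only [hZ]
        congr 2
        ring
      rw [e1] at h6
      exact h6.rot hv1
  · have hnn : 0 ≤ |R| / (70 / 100) := by positivity
    have h6 := (hesc (29 / 4 + |R| / (70 / 100)) (by linarith)).2 (by linarith)
    refine ⟨29 / 4 + |R| / (70 / 100) + 24 + T, by linarith, ?_⟩
    rw [hnz] at h6
    have e : (70 : ℝ) / 100 * (29 / 4 + |R| / (70 / 100) - 29 / 4) = |R| := by field_simp; ring
    rw [e] at h6
    have := le_abs_self R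
    linarith

end Pool.Agent.T9h50.TL
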