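import Pool.Agent.T9h50.TB.Esc

/-!
# The softened three-body vector fields in relative coordinates, with parameters

`a = q_1 - q_2`, `b = q_2 - q_3`, `p = a' / σ`, `q = b' / σ`.
-/

set_option autoImplicit false

open scoped NNReal ComplexConjugate Topology
open Complex Set Filter
open Pool.Agent.T9h50.TB (E kd kd_lip kd_eq norm_kd_le kd_rot ip dtm ip_self lagr abs_ip_le abs_dtm_le)

namespace Pool.Agent.T9h50.TL

/-- the weight of the velocities and the radii of the softening for `q_1 - q_2`, `q_1 - q_3`,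
`q_2 - q_3` -/
structure Par where
  sg : ℝ
  dA : ℝ
  dC : ℝ
  dB : ℝ
  sg0 : 0 < sg
  dA0 : 0 < dA
  dC0 : 0 < dC
  dB0 : 0 < dB

/-- the acceleration of `a` in the softened problem -/
noncomputable def FA (P : Par) (m : Fin 3 → ℝ) (a b : ℂ) : ℂ :=
  -((m 0 + m 1 : ℝ) • kd P.dA a) - (m 2 : ℝ) • kd P.dC (a + b) + (m 2 : ℝ) • kd P.dB b

/-- the acceleration of `b` in the softened problem -/
noncomputable def FB (P : Par) (m : Fin 3 → ℝ) (a b : ℂ) : ℂ :=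
  (m 0 : ℝ) • kd P.dA a - (m 0 : ℝ) • kd P.dC (a + b) - (m 1 + m 2 : ℝ) • kd P.dB b

/-- the softened vector field -/
noncomputable def fld (P : Par) (m : Fin 3 → ℝ) (x : E) : E :=
  (P.sg • x.2.2.1, P.sg • x.2.2.2, P.sg⁻¹ • FA P m x.1 x.2.1, P.sg⁻¹ • FB P m x.1 x.2.1)

/-- the masses `1 : 25 : 25` with sum `3` -/
noncomputable def mh : Fin 3 → ℝ := ![1 / 17, 25 / 17, 25 / 17]

lemma mh0 : mh 0 = 1 / 17 := rfl
lemma mh1 : mh 1 = 25 / 17 := rfl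
lemma mh2 : mh 2 = 25 / 17 := rfl

/-- the masses differ from `mh` by at most `ε` -/
def NearM (ε : ℝ) (m : Fin 3 → ℝ) : Prop := ∀ i, |m i - mh i| ≤ ε

lemma NearM.mono {ε ε' : ℝ} {m : Fin 3 → ℝ} (h : NearM ε m) (hε : ε ≤ ε') : NearM ε' m :=
  fun i => (h i).trans hε

lemma NearM.bounds {m : Fin 3 → ℝ} (hm : NearM (1 / 10 ^ 6) m) :
    (0.05882 ≤ m 0 ∧ m 0 ≤ 0.05883) ∧ (1.47058 ≤ m 1 ∧ m 1 ≤ 1.47059) ∧
      (1.47058 ≤ m 2 ∧ m 2 ≤ 1.47059) := by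
  have h0 := abs_le.1 (hm 0)
  have h1 := abs_le.1 (hm 1)
  have h2 := abs_le.1 (hm 2)
  rw [mh0] at h0
  rw [mh1] at h1
  rw [mh2] at h2
  refine ⟨⟨?_, ?_⟩, ⟨?_, ?_⟩, ⟨?_, ?_⟩⟩
  · norm_num at h0 ⊢; linarith [h0.1]
  · norm_num at h0 ⊢; linarith [h0.2]
  · norm_num at h1 ⊢; linarith [h1.1]
  · norm_num at h1 ⊢; linarith [h1.2]
  · norm_num at h2 ⊢; linarith [h2.1]
  · norm_num at h2 ⊢; linarith [h2.2]

section

variable {P : Par} {m : Fin 3 → ℝ}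

lemma FA_lip (P : Par) (h0 : 0 ≤ m 0) (h1 : 0 ≤ m 1) (h2 : 0 ≤ m 2) (a b a' b' : ℂ) {r : ℝ}
    (ha : ‖a - a'‖ ≤ r) (hb : ‖b - b'‖ ≤ r) :
    ‖FA P m a b - FA P m a' b'‖ ≤
      ((m 0 + m 1) * (2 / P.dA ^ 3) + m 2 * (2 / P.dC ^ 3) * 2 + m 2 * (2 / P.dB ^ 3)) * r := by
  have hr : 0 ≤ r := (norm_nonneg _).trans ha
  have e : FA P m a b - FA P m a' b' = -((m 0 + m 1 : ℝ) • (kd P.dA a - kd P.dA a')) -
      (m 2 : ℝ) • (kd P.dC (a + b) - kd P.dC (a' + b')) + (m 2 : ℝ) • (kd P.dB b - kd P.dB b') := by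
    simp only [FA, smul_sub]; abel
  have hA := kd_lip P.dA0 a a'
  have hC := kd_lip P.dC0 (a + b) (a' + b')
  have hB := kd_lip P.dB0 b b'
  have hab : ‖a + b - (a' + b')‖ ≤ 2 * r := by
    have : a + b - (a' + b') = (a - a') + (b - b') := by ring
    rw [this]
    exact (norm_add_le _ _).trans (by linarith)
  have pA : 0 < P.dA ^ 3 := by have := P.dA0; positivity
  have pB : 0 < P.dB ^ 3 := by have := P.dB0; positivity
  have pC : 0 < P.dC ^ 3 := by have := P.dC0; positivity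
  rw [e]
  calc _ ≤ ‖(m 0 + m 1 : ℝ) • (kd P.dA a - kd P.dA a')‖ + ‖(m 2 : ℝ) • (kd P.dC (a + b) - kd P.dC (a' + b'))‖
        + ‖(m 2 : ℝ) • (kd P.dB b - kd P.dB b')‖ := by
        refine (norm_add_le _ _).trans ?_
        gcongr
        refine (norm_sub_le _ _).trans ?_
        rw [norm_neg]
    _ = (m 0 + m 1) * ‖kd P.dA a - kd P.dA a'‖ + m 2 * ‖kd P.dC (a + b) - kd P.dC (a' + b')‖
        + m 2 * ‖kd P.dB b - kd P.dB b'‖ := by
        rw [norm_smul, norm_smul, norm_smul, Real.norm_of_nonneg (by linarith),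
          Real.norm_of_nonneg h2]
    _ ≤ (m 0 + m 1) * (2 / P.dA ^ 3 * r) + m 2 * (2 / P.dC ^ 3 * (2 * r)) + m 2 * (2 / P.dB ^ 3 * r) := by
        gcongr
        · exact hA.trans (by gcongr)
        · exact hC.trans (by gcongr)
        · exact hB.trans (by gcongr)
    _ = _ := by ring

lemma FB_lip (P : Par) (h0 : 0 ≤ m 0) (h1 : 0 ≤ m 1) (h2 : 0 ≤ m 2) (a b a' b' : ℂ) {r : ℝ}
    (ha : ‖a - a'‖ ≤ r) (hb : ‖b - b'‖ ≤ r) :
    ‖FB P m a b - FB P m a' b'‖ ≤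
      (m 0 * (2 / P.dA ^ 3) + m 0 * (2 / P.dC ^ 3) * 2 + (m 1 + m 2) * (2 / P.dB ^ 3)) * r := by
  have hr : 0 ≤ r := (norm_nonneg _).trans ha
  have e : FB P m a b - FB P m a' b' = (m 0 : ℝ) • (kd P.dA a - kd P.dA a') -
      (m 0 : ℝ) • (kd P.dC (a + b) - kd P.dC (a' + b')) - (m 1 + m 2 : ℝ) • (kd P.dB b - kd P.dB b') := by
    simp only [FB, smul_sub]; abel
  have hA := kd_lip P.dA0 a a'
  have hC := kd_lip P.dC0 (a + b) (a' + b')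
  have hB := kd_lip P.dB0 b b'
  have hab : ‖a + b - (a' + b')‖ ≤ 2 * r := by
    have : a + b - (a' + b') = (a - a') + (b - b') := by ring
    rw [this]
    exact (norm_add_le _ _).trans (by linarith)
  have pA : 0 < P.dA ^ 3 := by have := P.dA0; positivity
  have pB : 0 < P.dB ^ 3 := by have := P.dB0; positivity
  have pC : 0 < P.dC ^ 3 := by have := P.dC0; positivity
  rw [e]
  calc _ ≤ ‖(m 0 : ℝ) • (kd P.dA a - kd P.dA a')‖ + ‖(m 0 : ℝ) • (kd P.dC (a + b) - kd P.dC (a' + b'))‖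
        + ‖(m 1 + m 2 : ℝ) • (kd P.dB b - kd P.dB b')‖ := by
        refine (norm_sub_le _ _).trans ?_
        gcongr
        exact norm_sub_le _ _
    _ = m 0 * ‖kd P.dA a - kd P.dA a'‖ + m 0 * ‖kd P.dC (a + b) - kd P.dC (a' + b')‖
        + (m 1 + m 2) * ‖kd P.dB b - kd P.dB b'‖ := by
        rw [norm_smul, norm_smul, norm_smul, Real.norm_of_nonneg h0,
          Real.norm_of_nonneg (by linarith : 0 ≤ m 1 + m 2)]
    _ ≤ m 0 * (2 / P.dA ^ 3 * r) + m 0 * (2 / P.dC ^ 3 * (2 * r)) + (m 1 + m 2) * (2 / P.dB ^ 3 * r) := by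
        gcongr
        · exact hA.trans (by gcongr)
        · exact hC.trans (by gcongr)
        · exact hB.trans (by gcongr)
    _ = _ := by ring

/-- the Lipschitz constants of the accelerations are at most `σ ^ 2` -/
structure LipOK (P : Par) : Prop where
  a : ∀ m, NearM (1 / 10 ^ 6) m →
    (m 0 + m 1) * (2 / P.dA ^ 3) + m 2 * (2 / P.dC ^ 3) * 2 + m 2 * (2 / P.dB ^ 3) ≤ P.sg ^ 2
  b : ∀ m, NearM (1 / 10 ^ 6) m →
    m 0 * (2 / P.dA ^ 3) + m 0 * (2 / P.dC ^ 3) * 2 + (m 1 + m 2) * (2 / P.dB ^ 3) ≤ P.sg ^ 2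

/-- the weight as a Lipschitz constant -/
noncomputable def Par.K (P : Par) : ℝ≥0 := ⟨P.sg, P.sg0.le⟩

/-- the softened vector field is Lipschitz with the constant `σ` -/
theorem fld_lip (hP : LipOK P) (hm : NearM (1 / 10 ^ 6) m) : LipschitzWith P.K (fld P m) := by
  obtain ⟨⟨h0, h0'⟩, ⟨h1, h1'⟩, ⟨h2, h2'⟩⟩ := hm.bounds
  apply LipschitzWith.of_dist_le_mul
  intro x y
  rw [dist_eq_norm, dist_eq_norm]
  set r := ‖x - y‖ with hr
  have hr0 : 0 ≤ r := norm_nonneg _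
  have n1 : ‖x.1 - y.1‖ ≤ r := norm_fst_le (x - y)
  have n2 : ‖x.2.1 - y.2.1‖ ≤ r := (norm_fst_le (x - y).2).trans (norm_snd_le (x - y))
  have n3 : ‖x.2.2.1 - y.2.2.1‖ ≤ r :=
    (norm_fst_le (x - y).2.2).trans ((norm_snd_le (x - y).2).trans (norm_snd_le (x - y)))
  have n4 : ‖x.2.2.2 - y.2.2.2‖ ≤ r :=
    (norm_snd_le (x - y).2.2).trans ((norm_snd_le (x - y).2).trans (norm_snd_le (x - y)))
  have cs : ((P.K : ℝ≥0) : ℝ) = P.sg := rfl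
  rw [cs]
  have hs := P.sg0
  have hA := FA_lip P (m := m) (by linarith) (by linarith) (by linarith) x.1 x.2.1 y.1 y.2.1 n1 n2
  have hB := FB_lip P (m := m) (by linarith) (by linarith) (by linarith) x.1 x.2.1 y.1 y.2.1 n1 n2
  have hA' : ‖FA P m x.1 x.2.1 - FA P m y.1 y.2.1‖ ≤ P.sg ^ 2 * r :=
    hA.trans (mul_le_mul_of_nonneg_right (hP.a m hm) hr0)
  have hB' : ‖FB P m x.1 x.2.1 - FB P m y.1 y.2.1‖ ≤ P.sg ^ 2 * r :=
    hB.trans (mul_le_mul_of_nonneg_right (hP.b m hm) hr0)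
  have hs1 : ∀ z : ℂ, ‖P.sg • z‖ = P.sg * ‖z‖ := fun z => by
    rw [norm_smul, Real.norm_of_nonneg hs.le]
  have hs' : ∀ z : ℂ, ‖z‖ ≤ P.sg ^ 2 * r → ‖P.sg⁻¹ • z‖ ≤ P.sg * r := fun z hz => by
    rw [norm_smul, Real.norm_of_nonneg (inv_pos.2 hs).le]
    calc P.sg⁻¹ * ‖z‖ ≤ P.sg⁻¹ * (P.sg ^ 2 * r) := by gcongr
      _ = P.sg * r := by field_simp
  rw [Prod.norm_def, Prod.norm_def, Prod.norm_def]
  simp only [fld, Prod.fst_sub, Prod.snd_sub, ← smul_sub]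
  refine max_le ?_ (max_le ?_ (max_le ?_ ?_))
  · rw [hs1]; gcongr
  · rw [hs1]; gcongr
  · exact hs' _ hA'
  · exact hs' _ hB'

lemma FA_rot (P : Par) (m : Fin 3 → ℝ) {u : ℂ} (hu : ‖u‖ = 1) (a b : ℂ) :
    FA P m (u * a) (u * b) = u * FA P m a b := by
  have e : u * a + u * b = u * (a + b) := by ring
  rw [FA, FA, e, kd_rot _ hu, kd_rot _ hu, kd_rot _ hu]
  simp only [Complex.real_smul]; ring

lemma FB_rot (P : Par) (m : Fin 3 → ℝ) {u : ℂ} (hu : ‖u‖ = 1) (a b : ℂ) :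
    FB P m (u * a) (u * b) = u * FB P m a b := by
  have e : u * a + u * b = u * (a + b) := by ring
  rw [FB, FB, e, kd_rot _ hu, kd_rot _ hu, kd_rot _ hu]
  simp only [Complex.real_smul]; ring

lemma fld_rot (P : Par) (m : Fin 3 → ℝ) {u : ℂ} (hu : ‖u‖ = 1) (x : E) :
    fld P m (u • x) = u • fld P m x := by
  have c : ∀ (r : ℝ) (z : ℂ), r • (u * z) = u * (r • z) := fun r z => by
    simp only [Complex.real_smul]; ring
  refine Prod.ext ?_ (Prod.ext ?_ (Prod.ext ?_ ?_))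
  · exact c _ _
  · exact c _ _
  · show P.sg⁻¹ • FA P m (u * x.1) (u * x.2.1) = u * (P.sg⁻¹ • FA P m x.1 x.2.1)
    rw [FA_rot P m hu, c]
  · show P.sg⁻¹ • FB P m (u * x.1) (u * x.2.1) = u * (P.sg⁻¹ • FB P m x.1 x.2.1)
    rw [FB_rot P m hu, c]

/-- the error of the accelerations for other masses: values -/
lemma FA_mass (P : Par) {ε : ℝ} (hm : NearM ε m) (a b : ℂ) :
    ‖FA P m a b - FA P mh a b‖ ≤ (2 / P.dA ^ 2 + 1 / P.dC ^ 2 + 1 / P.dB ^ 2) * ε := by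
  have e : FA P m a b - FA P mh a b = -(((m 0 - mh 0) + (m 1 - mh 1) : ℝ) • kd P.dA a) -
      ((m 2 - mh 2 : ℝ) • kd P.dC (a + b)) + (m 2 - mh 2 : ℝ) • kd P.dB b := by
    simp only [FA, sub_smul, add_smul]; abel
  have hA := norm_kd_le P.dA0 a
  have hC := norm_kd_le P.dC0 (a + b)
  have hB := norm_kd_le P.dB0 b
  have h0 := hm 0
  have h1 := hm 1
  have h2 := hm 2
  have hε : 0 ≤ ε := (abs_nonneg _).trans h0
  have h01 : |(m 0 - mh 0) + (m 1 - mh 1)| ≤ 2 * ε := (abs_add_le _ _).trans (by linarith)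
  rw [e]
  calc _ ≤ ‖((m 0 - mh 0) + (m 1 - mh 1) : ℝ) • kd P.dA a‖ + ‖(m 2 - mh 2 : ℝ) • kd P.dC (a + b)‖ +
      ‖(m 2 - mh 2 : ℝ) • kd P.dB b‖ := by
        refine (norm_add_le _ _).trans ?_
        gcongr
        refine (norm_sub_le _ _).trans ?_
        rw [norm_neg]
    _ ≤ 2 * ε * (1 / P.dA ^ 2) + ε * (1 / P.dC ^ 2) + ε * (1 / P.dB ^ 2) := by
        rw [norm_smul, norm_smul, norm_smul, Real.norm_eq_abs, Real.norm_eq_abs]
        gcongr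
    _ = _ := by ring

lemma FB_mass (P : Par) {ε : ℝ} (hm : NearM ε m) (a b : ℂ) :
    ‖FB P m a b - FB P mh a b‖ ≤ (1 / P.dA ^ 2 + 1 / P.dC ^ 2 + 2 / P.dB ^ 2) * ε := by
  have e : FB P m a b - FB P mh a b = ((m 0 - mh 0 : ℝ) • kd P.dA a) -
      ((m 0 - mh 0 : ℝ) • kd P.dC (a + b)) - ((m 1 - mh 1) + (m 2 - mh 2) : ℝ) • kd P.dB b := by
    simp only [FB, sub_smul, add_smul]; abel
  have hA := norm_kd_le P.dA0 a
  have hC := norm_kd_le P.dC0 (a + b)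
  have hB := norm_kd_le P.dB0 b
  have h0 := hm 0
  have h1 := hm 1
  have h2 := hm 2
  have hε : 0 ≤ ε := (abs_nonneg _).trans h0
  have h01 : |(m 1 - mh 1) + (m 2 - mh 2)| ≤ 2 * ε := (abs_add_le _ _).trans (by linarith)
  rw [e]
  calc _ ≤ ‖(m 0 - mh 0 : ℝ) • kd P.dA a‖ + ‖(m 0 - mh 0 : ℝ) • kd P.dC (a + b)‖ +
      ‖((m 1 - mh 1) + (m 2 - mh 2) : ℝ) • kd P.dB b‖ := by
        refine (norm_sub_le _ _).trans ?_
        gcongr
        exact norm_sub_le _ _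
    _ ≤ ε * (1 / P.dA ^ 2) + ε * (1 / P.dC ^ 2) + 2 * ε * (1 / P.dB ^ 2) := by
        rw [norm_smul, norm_smul, norm_smul, Real.norm_eq_abs, Real.norm_eq_abs]
        gcongr
    _ = _ := by ring

/-- distances are large enough -/
def Far (P : Par) (δ : ℝ) (x : E) : Prop :=
  P.dA + δ ≤ ‖x.1‖ ∧ P.dC + δ ≤ ‖x.1 + x.2.1‖ ∧ P.dB + δ ≤ ‖x.2.1‖

lemma Far.mono {δ ε : ℝ} {x : E} (h : Far P δ x) (hε : ε ≤ δ) : Far P ε x := by
  obtain ⟨h1, h2, h3⟩ := h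
  exact ⟨by linarith, by linarith, by linarith⟩

lemma Far.of_dist {δ ε : ℝ} {x y : E} (h : Far P δ x) (hxy : dist y x ≤ ε) : Far P (δ - 2 * ε) y := by
  rw [dist_eq_norm] at hxy
  have n1 : ‖y.1 - x.1‖ ≤ ε := (norm_fst_le (y - x)).trans hxy
  have n2 : ‖y.2.1 - x.2.1‖ ≤ ε :=
    ((norm_fst_le (y - x).2).trans (norm_snd_le (y - x))).trans hxy
  have hε : 0 ≤ ε := (norm_nonneg _).trans n1
  obtain ⟨h1, h2, h3⟩ := h
  have t1 : ‖x.1‖ ≤ ‖y.1‖ + ‖y.1 - x.1‖ := by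
    have := norm_sub_norm_le x.1 y.1
    rw [norm_sub_rev] at this
    linarith
  have t3 : ‖x.2.1‖ ≤ ‖y.2.1‖ + ‖y.2.1 - x.2.1‖ := by
    have := norm_sub_norm_le x.2.1 y.2.1
    rw [norm_sub_rev] at this
    linarith
  have t2 : ‖x.1 + x.2.1‖ ≤ ‖y.1 + y.2.1‖ + (‖y.1 - x.1‖ + ‖y.2.1 - x.2.1‖) := by
    have := norm_sub_norm_le (x.1 + x.2.1) (y.1 + y.2.1)
    rw [norm_sub_rev] at this
    have h5 : y.1 + y.2.1 - (x.1 + x.2.1) = (y.1 - x.1) + (y.2.1 - x.2.1) := by ring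
    rw [h5] at this
    have := norm_add_le (y.1 - x.1) (y.2.1 - x.2.1)
    linarith
  exact ⟨by linarith, by linarith, by linarith⟩

lemma Far.rot {δ : ℝ} {x : E} {u : ℂ} (hu : ‖u‖ = 1) (h : Far P δ (u • x)) : Far P δ x := by
  obtain ⟨h1, h2, h3⟩ := h
  have e1 : ‖(u • x).1‖ = ‖x.1‖ := by
    show ‖u * x.1‖ = _
    rw [norm_mul, hu, one_mul]
  have e2 : ‖(u • x).2.1‖ = ‖x.2.1‖ := by
    show ‖u * x.2.1‖ = _
    rw [norm_mul, hu, one_mul]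
  have e3 : ‖(u • x).1 + (u • x).2.1‖ = ‖x.1 + x.2.1‖ := by
    show ‖u * x.1 + u * x.2.1‖ = _
    rw [← mul_add, norm_mul, hu, one_mul]
  rw [e1] at h1
  rw [e3] at h2
  rw [e2] at h3
  exact ⟨h1, h2, h3⟩

/-- the accelerations do not depend on the softening where the distances are large -/
lemma FA_congr {P Q : Par} {a b : ℂ} (h1 : P.dA ≤ ‖a‖) (h2 : P.dC ≤ ‖a + b‖) (h3 : P.dB ≤ ‖b‖)
    (k1 : Q.dA ≤ ‖a‖) (k2 : Q.dC ≤ ‖a + b‖) (k3 : Q.dB ≤ ‖b‖) : FA P m a b = FA Q m a b := by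
  rw [FA, FA, kd_eq h1, kd_eq h2, kd_eq h3, kd_eq k1, kd_eq k2, kd_eq k3]

lemma FB_congr {P Q : Par} {a b : ℂ} (h1 : P.dA ≤ ‖a‖) (h2 : P.dC ≤ ‖a + b‖) (h3 : P.dB ≤ ‖b‖)
    (k1 : Q.dA ≤ ‖a‖) (k2 : Q.dC ≤ ‖a + b‖) (k3 : Q.dB ≤ ‖b‖) : FB P m a b = FB Q m a b := by
  rw [FB, FB, kd_eq h1, kd_eq h2, kd_eq h3, kd_eq k1, kd_eq k2, kd_eq k3]

/-- positions and true velocities -/
noncomputable def cnv (P Q : Par) (x : E) : E :=
  (x.1, x.2.1, (P.sg / Q.sg) • x.2.2.1, (P.sg / Q.sg) • x.2.2.2)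

end

end Pool.Agent.T9h50.TL
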