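import Pool.Agent.T9h50.TL.KSt

/-!
# The first phase of the numerical integration
-/

set_option autoImplicit false
set_option exponentiation.threshold 100000

namespace Pool.Agent.T9h50.TL

theorem runA : run (Int.ofNat 64) 991 903 997 DG0 DR0 25 24 sA0 = some sA1 := by decide +kernel

end Pool.Agent.T9h50.TL
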