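import Pool.Agent.T9h50.TL.KSt

/-!
# The third phase of the numerical integration
-/

set_option autoImplicit false
set_option exponentiation.threshold 100000

namespace Pool.Agent.T9h50.TL

theorem runC : run (Int.ofNat 256) 910 1791 811 DG0 DR0 25 40 sC0 = some sC1 := by decide +kernel

end Pool.Agent.T9h50.TL
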