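import Pool.Agent.T9h50.TL.Num

/-!
# The states at the beginning and at the end of the phases
-/

set_option autoImplicit false

namespace Pool.Agent.T9h50.TL

open Pool.Agent.T9h50.TB (St)

/-- bounds for the defects -/
def DG0 : Nat := Nat.div (Nat.pow 2 384) (Nat.pow 10 26)
def DR0 : Nat := Nat.mul 17 (Nat.div (Nat.pow 2 384) (Nat.pow 10 22))

/-- beginning of the first phase -/
def sA0 : St := ⟨-39478748492398191112011809196, 14884769639852579731510117184, -68307054316304257618953116158, -8515275512400347774208271820, 79248623394354650156813038273, 4076697258047323573197953, -9840392126883981037867745, 17151265437905345527944698426, 79562704912253005736223703040, 79407116990522214143831834624, 79207706306254605803816222720⟩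

/-- end of the first phase -/
def sA1 : St := ⟨-80185475276229253134768675077, -814250521826963745560673070, 12556458194756437942747184359, -16447153753134297778064368227, 37507105328907276060183465062, 15232649460379279497074594437, -70055260191692977872837787837, 7995167149247151915841146533, 77339786876669025185381248824, 87660507959535637360846494775, 78993055391500237971329829583⟩

/-- beginning of the second phase -/
def sB0 : St := ⟨-80185475276229253134768675077, -203562630456740936390168267, 12556458194756437942747184359, -4111788438283574444516092057, 37507105328907276060183465062, 3808162365094819874268648609, -70055260191692977872837787837, 1998791787311787978960286633, 77339786876669025185381248824, 87660507959535637360846494775, 78993055391500237971329829583⟩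

/-- end of the second phase -/
def sB1 : St := ⟨28192257601987036891266878276, -1999330708723033081364318453, 74193484007291746390900578363, 4729854006924332388177058464, -23014048809998753058659868403, -3873977017002632465096795994, 73704449460503248010946354235, -1509033612070784817718585681, 79087334538059492895140167543, 42416129494273808783497172599, 81294930032603680234288390329⟩

/-- beginning of the third phase -/
def sC0 : St := ⟨28192257601987036891266878276, -3998661417446066162728636906, 74193484007291746390900578363, 9459708013848664776354116928, -23014048809998753058659868403, -7747954034005264930193591988, 73704449460503248010946354235, -3018067224141569635437171362, 79087334538059492895140167543, 42416129494273808783497172599, 81294930032603680234288390329⟩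

/-- end of the third phase -/
def sC1 : St := ⟨-306726792970414226077547787002, -3879468192483841772327587495, 250577974983539190703503366502, -199651042433257910586064984, 55232185674686465405622940659, -5490071867676725268501194844, 54964810816940613066370771215, 6071463010739472493917248406, 15848505813867308077666370457, 15861894756445584226504195034, 80556971232747514510127188786⟩

end Pool.Agent.T9h50.TL
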