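import Pool.Agent.T9h50.TL.Phs
import Pool.Agent.T9h50.TL.KA
import Pool.Agent.T9h50.TL.KB
import Pool.Agent.T9h50.TL.KC
import Pool.Agent.T9h50.TL.Esc3

/-!
# The phases of the numerical integration
-/

set_option autoImplicit false
set_option exponentiation.threshold 2000

open scoped NNReal ComplexConjugate Topology
open Complex Set Filter

namespace Pool.Agent.T9h50.TL

open Pool.Agent.T9h50.TB (E kd kd_eq ip dtm ip_self St SR SR_pos exists_forward RR Hb)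

noncomputable def P1 : Par := ⟨38 / 10, 990 / 1000, 902 / 1000, 996 / 1000, by norm_num, by norm_num,
  by norm_num, by norm_num⟩
noncomputable def P2 : Par := ⟨62 / 10, 504 / 1000, 831 / 1000, 973 / 1000, by norm_num, by norm_num,
  by norm_num, by norm_num⟩
noncomputable def P3 : Par := ⟨336 / 100, 909 / 1000, 1790 / 1000, 810 / 1000, by norm_num, by norm_num,
  by norm_num, by norm_num⟩
/-- the parameters for the whole solution -/
noncomputable def P9 : Par := ⟨67 / 10, 5 / 10, 8 / 10, 7 / 10, by norm_num, by norm_num,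
  by norm_num, by norm_num⟩

noncomputable def QA : PH := ⟨P1, 8, 991, 903, 997, 16081 / 10 ^ 4⟩
noncomputable def QB : PH := ⟨P2, 32, 505, 832, 974, 12138 / 10 ^ 4⟩
noncomputable def QC : PH := ⟨P3, 16, 910, 1791, 811, 12337 / 10 ^ 4⟩

lemma lip1 : LipOK P1 := by
  constructor
  · intro m hm
    obtain ⟨⟨h0, h0'⟩, ⟨h1, h1'⟩, ⟨h2, h2'⟩⟩ := hm.bounds
    simp only [P1]
    norm_num at h0' h1' h2' ⊢
    linarith
  · intro m hm
    obtain ⟨⟨h0, h0'⟩, ⟨h1, h1'⟩, ⟨h2, h2'⟩⟩ := hm.bounds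
    simp only [P1]
    norm_num at h0' h1' h2' ⊢
    linarith

lemma lip2 : LipOK P2 := by
  constructor
  · intro m hm
    obtain ⟨⟨h0, h0'⟩, ⟨h1, h1'⟩, ⟨h2, h2'⟩⟩ := hm.bounds
    simp only [P2]
    norm_num at h0' h1' h2' ⊢
    linarith
  · intro m hm
    obtain ⟨⟨h0, h0'⟩, ⟨h1, h1'⟩, ⟨h2, h2'⟩⟩ := hm.bounds
    simp only [P2]
    norm_num at h0' h1' h2' ⊢
    linarith

lemma lip3 : LipOK P3 := by
  constructor
  · intro m hm
    obtain ⟨⟨h0, h0'⟩, ⟨h1, h1'⟩, ⟨h2, h2'⟩⟩ := hm.bounds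
    simp only [P3]
    norm_num at h0' h1' h2' ⊢
    linarith
  · intro m hm
    obtain ⟨⟨h0, h0'⟩, ⟨h1, h1'⟩, ⟨h2, h2'⟩⟩ := hm.bounds
    simp only [P3]
    norm_num at h0' h1' h2' ⊢
    linarith

lemma lip9 : LipOK P9 := by
  constructor
  · intro m hm
    obtain ⟨⟨h0, h0'⟩, ⟨h1, h1'⟩, ⟨h2, h2'⟩⟩ := hm.bounds
    simp only [P9]
    norm_num at h0' h1' h2' ⊢
    linarith
  · intro m hm
    obtain ⟨⟨h0, h0'⟩, ⟨h1, h1'⟩, ⟨h2, h2'⟩⟩ := hm.bounds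
    simp only [P9]
    norm_num at h0' h1' h2' ⊢
    linarith

lemma expA : Real.exp ((38 / 10 : ℝ) / 8) ≤ 16081 / 10 ^ 4 := by
  refine (Real.exp_bound' (by norm_num) (by norm_num) (n := 8) (by norm_num)).trans ?_
  norm_num [Finset.sum_range_succ, Nat.factorial]
lemma expB : Real.exp ((62 / 10 : ℝ) / 32) ≤ 12138 / 10 ^ 4 := by
  refine (Real.exp_bound' (by norm_num) (by norm_num) (n := 8) (by norm_num)).trans ?_
  norm_num [Finset.sum_range_succ, Nat.factorial]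
lemma expC : Real.exp ((336 / 100 : ℝ) / 16) ≤ 12337 / 10 ^ 4 := by
  refine (Real.exp_bound' (by norm_num) (by norm_num) (n := 8) (by norm_num)).trans ?_
  norm_num [Finset.sum_range_succ, Nat.factorial]

lemma okA : PHok QA where
  H0 := by norm_num [QA]
  H2 := by norm_num [QA]
  ca := by norm_num [QA]
  cc := by norm_num [QA]
  cb := by norm_num [QA]
  hA := by norm_num [QA, P1]
  hC := by norm_num [QA, P1]
  hB := by norm_num [QA, P1]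
  dA := by norm_num [QA, P1]
  dC := by norm_num [QA, P1]
  dB := by norm_num [QA, P1]
  lip := lip1
  sg1 := by norm_num [QA, P1]
  exp := by
    have := expA
    simp only [QA, P1]
    exact_mod_cast this
  gr1 := by norm_num [QA]

lemma okB : PHok QB where
  H0 := by norm_num [QB]
  H2 := by norm_num [QB]
  ca := by norm_num [QB]
  cc := by norm_num [QB]
  cb := by norm_num [QB]
  hA := by norm_num [QB, P2]
  hC := by norm_num [QB, P2]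
  hB := by norm_num [QB, P2]
  dA := by norm_num [QB, P2]
  dC := by norm_num [QB, P2]
  dB := by norm_num [QB, P2]
  lip := lip2
  sg1 := by norm_num [QB, P2]
  exp := by
    have := expB
    simp only [QB, P2]
    exact_mod_cast this
  gr1 := by norm_num [QB]

lemma okC : PHok QC where
  H0 := by norm_num [QC]
  H2 := by norm_num [QC]
  ca := by norm_num [QC]
  cc := by norm_num [QC]
  cb := by norm_num [QC]
  hA := by norm_num [QC, P3]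
  hC := by norm_num [QC, P3]
  hB := by norm_num [QC, P3]
  dA := by norm_num [QC, P3]
  dC := by norm_num [QC, P3]
  dB := by norm_num [QC, P3]
  lip := lip3
  sg1 := by norm_num [QC, P3]
  exp := by
    have := expC
    simp only [QC, P3]
    exact_mod_cast this
  gr1 := by norm_num [QC]

lemma DG0_le : (DG0 : ℝ) ≤ 2 ^ 384 / 10 ^ 26 := by
  have h : DG0 * 10 ^ 26 ≤ 2 ^ 384 := Nat.div_mul_le_self _ _
  rw [le_div_iff₀ (by positivity)]
  exact_mod_cast h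

lemma DR0_le : (DR0 : ℝ) ≤ 17 * 2 ^ 384 / 10 ^ 22 := by
  have h : DR0 * 10 ^ 22 ≤ 17 * 2 ^ 384 := by
    have h1 : (2 ^ 384 / 10 ^ 22) * 10 ^ 22 ≤ 2 ^ 384 := Nat.div_mul_le_self _ _
    have h2 : DR0 = 17 * (2 ^ 384 / 10 ^ 22) := rfl
    rw [h2, mul_assoc]
    exact Nat.mul_le_mul_left _ h1
  rw [le_div_iff₀ (by positivity)]
  exact_mod_cast h

/-! ### Changes of the parameters -/

lemma cnv_fld {P Q : Par} {m : Fin 3 → ℝ} {x : E} (hP : Far P 0 x) (hQ : Far Q 0 x) :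
    cnv P Q (fld P m x) = fld Q m (cnv P Q x) := by
  obtain ⟨h1, h2, h3⟩ := hP
  obtain ⟨k1, k2, k3⟩ := hQ
  rw [add_zero] at h1 h2 h3 k1 k2 k3
  have hp := P.sg0.ne'
  have hq := Q.sg0.ne'
  refine Prod.ext ?_ (Prod.ext ?_ (Prod.ext ?_ ?_))
  · show P.sg • x.2.2.1 = Q.sg • ((P.sg / Q.sg) • x.2.2.1)
    rw [smul_smul]; congr 1; field_simp
  · show P.sg • x.2.2.2 = Q.sg • ((P.sg / Q.sg) • x.2.2.2)
    rw [smul_smul]; congr 1; field_simp
  · show (P.sg / Q.sg) • (P.sg⁻¹ • FA P m x.1 x.2.1) = Q.sg⁻¹ • FA Q m x.1 x.2.1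
    rw [smul_smul, FA_congr h1 h2 h3 k1 k2 k3]; congr 1; field_simp
  · show (P.sg / Q.sg) • (P.sg⁻¹ • FB P m x.1 x.2.1) = Q.sg⁻¹ • FB Q m x.1 x.2.1
    rw [smul_smul, FB_congr h1 h2 h3 k1 k2 k3]; congr 1; field_simp

lemma cnv_cnv (P Q R : Par) (x : E) : cnv Q R (cnv P Q x) = cnv P R x := by
  have hp := P.sg0.ne'
  have hq := Q.sg0.ne'
  have hr := R.sg0.ne'
  refine Prod.ext rfl (Prod.ext rfl (Prod.ext ?_ ?_))
  · show (Q.sg / R.sg) • ((P.sg / Q.sg) • x.2.2.1) = (P.sg / R.sg) • x.2.2.1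
    rw [smul_smul]; congr 1; field_simp
  · show (Q.sg / R.sg) • ((P.sg / Q.sg) • x.2.2.2) = (P.sg / R.sg) • x.2.2.2
    rw [smul_smul]; congr 1; field_simp

lemma cnv_self (P : Par) (x : E) : cnv P P x = x := by
  have hp := P.sg0.ne'
  refine Prod.ext rfl (Prod.ext rfl (Prod.ext ?_ ?_))
  · show (P.sg / P.sg) • x.2.2.1 = x.2.2.1
    rw [div_self hp, one_smul]
  · show (P.sg / P.sg) • x.2.2.2 = x.2.2.2
    rw [div_self hp, one_smul]

lemma cnv_dist (P Q : Par) (x y : E) {c : ℝ} (h1 : 1 ≤ c) (h2 : P.sg / Q.sg ≤ c) :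
    dist (cnv P Q x) (cnv P Q y) ≤ c * dist x y := by
  have hp : 0 < P.sg / Q.sg := div_pos P.sg0 Q.sg0
  rw [dist_eq_norm, dist_eq_norm]
  set r := ‖x - y‖ with hr
  have hr0 : 0 ≤ r := norm_nonneg _
  have n1 : ‖x.1 - y.1‖ ≤ r := norm_fst_le (x - y)
  have n2 : ‖x.2.1 - y.2.1‖ ≤ r := (norm_fst_le (x - y).2).trans (norm_snd_le (x - y))
  have n3 : ‖x.2.2.1 - y.2.2.1‖ ≤ r :=
    (norm_fst_le (x - y).2.2).trans ((norm_snd_le (x - y).2).trans (norm_snd_le (x - y)))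
  have n4 : ‖x.2.2.2 - y.2.2.2‖ ≤ r :=
    (norm_snd_le (x - y).2.2).trans ((norm_snd_le (x - y).2).trans (norm_snd_le (x - y)))
  have hc : r ≤ c * r := le_mul_of_one_le_left hr0 h1
  rw [Prod.norm_def, Prod.norm_def, Prod.norm_def]
  refine max_le (n1.trans hc) (max_le (n2.trans hc) (max_le ?_ ?_))
  · show ‖(P.sg / Q.sg) • x.2.2.1 - (P.sg / Q.sg) • y.2.2.1‖ ≤ _
    rw [← smul_sub, norm_smul, Real.norm_of_nonneg hp.le]
    gcongr
  · show ‖(P.sg / Q.sg) • x.2.2.2 - (P.sg / Q.sg) • y.2.2.2‖ ≤ _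
    rw [← smul_sub, norm_smul, Real.norm_of_nonneg hp.le]
    gcongr

lemma cnv_smul (P Q : Par) (u : ℂ) (x : E) : cnv P Q (u • x) = u • cnv P Q x := by
  refine Prod.ext rfl (Prod.ext rfl (Prod.ext ?_ ?_))
  · show (P.sg / Q.sg) • (u * x.2.2.1) = u * ((P.sg / Q.sg) • x.2.2.1)
    simp only [Complex.real_smul]; ring
  · show (P.sg / Q.sg) • (u * x.2.2.2) = u * ((P.sg / Q.sg) • x.2.2.2)
    simp only [Complex.real_smul]; ring

lemma hasDerivAt_cnv (P Q : Par) {y : ℝ → E} {y' : E} {t : ℝ} (h : HasDerivAt y y' t) :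
    HasDerivAt (fun s => cnv P Q (y s)) (cnv P Q y') t := by
  have h1 : HasDerivAt (fun s => (y s).1) y'.1 t := h.fst
  have h2 : HasDerivAt (fun s => (y s).2.1) y'.2.1 t := h.snd.fst
  have h3 : HasDerivAt (fun s => (y s).2.2.1) y'.2.2.1 t := h.snd.snd.fst
  have h4 : HasDerivAt (fun s => (y s).2.2.2) y'.2.2.2 t := h.snd.snd.snd
  exact h1.prodMk (h2.prodMk ((h3.const_smul (P.sg / Q.sg)).prodMk (h4.const_smul (P.sg / Q.sg))))

/-- the softening radii of `P` are at least those of `Q` -/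
structure LeP (Q P : Par) : Prop where
  a : Q.dA ≤ P.dA
  c : Q.dC ≤ P.dC
  b : Q.dB ≤ P.dB

lemma Far.leP {Q P : Par} (h : LeP Q P) {δ : ℝ} {x : E} (hx : Far P δ x) : Far Q δ x :=
  ⟨by linarith [h.a, hx.1], by linarith [h.c, hx.2.1], by linarith [h.b, hx.2.2]⟩

lemma far_cnv {P Q R : Par} {δ : ℝ} {x : E} : Far R δ (cnv P Q x) ↔ Far R δ x := Iff.rfl

/-- a solution for the parameters `P` is a solution for the parameters `Q` -/
theorem glue {P Q : Par} (hPQ : LeP Q P) (hQ : LipOK Q) {m : Fin 3 → ℝ} (hm : NearM (1 / 10 ^ 6) m)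
    {Y y : ℝ → E} {a b : ℝ} (hY : ∀ t ∈ Icc a b, HasDerivAt Y (fld Q m (Y t)) t)
    (hy : ∀ t ∈ Icc a b, HasDerivAt y (fld P m (y t)) t) (hF : ∀ t ∈ Icc a b, Far P 0 (y t))
    (h0 : Y a = cnv P Q (y a)) {t : ℝ} (ht : t ∈ Icc a b) : Y t = cnv P Q (y t) := by
  have hL := fld_lip hQ hm
  refine ODE_solution_unique (v := fun _ => fld Q m) (K := Q.K) (f := Y) (g := fun t => cnv P Q (y t))
    (fun _ => hL) (fun s hs => (hY s hs).continuousAt.continuousWithinAt)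
    (fun s hs => (hY s ⟨hs.1, hs.2.le⟩).hasDerivWithinAt)
    (fun s hs => (hasDerivAt_cnv P Q (hy s hs)).continuousAt.continuousWithinAt)
    (fun s hs => ?_) h0 ht
  have hs' : s ∈ Icc a b := ⟨hs.1, hs.2.le⟩
  have h1 := hasDerivAt_cnv P Q (hy s hs')
  rw [cnv_fld (hF s hs') ((hF s hs').leP hPQ)] at h1
  exact h1.hasDerivWithinAt

lemma far_left {P : Par} {y : ℝ → E} {a b : ℝ} (hab : a < b) (hy : ContinuousAt y a)
    (h : ∀ t, a < t → t ≤ b → Far P 0 (y t)) : Far P 0 (y a) := by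
  have hev : ∀ᶠ t in 𝓝[>] a, Far P 0 (y t) := by
    filter_upwards [Ioc_mem_nhdsGT hab] with t ht
    exact h t ht.1 ht.2
  have ht : Tendsto y (𝓝[>] a) (𝓝 (y a)) := hy.tendsto.mono_left nhdsWithin_le_nhds
  have n1 : Tendsto (fun t => ‖(y t).1‖) (𝓝[>] a) (𝓝 ‖(y a).1‖) :=
    ((continuous_fst.tendsto _).comp ht).norm
  have n2 : Tendsto (fun t => ‖(y t).2.1‖) (𝓝[>] a) (𝓝 ‖(y a).2.1‖) :=
    (((continuous_fst.comp continuous_snd).tendsto _).comp ht).norm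
  have n3 : Tendsto (fun t => ‖(y t).1 + (y t).2.1‖) (𝓝[>] a) (𝓝 ‖(y a).1 + (y a).2.1‖) :=
    (((continuous_fst.add (continuous_fst.comp continuous_snd)).tendsto _).comp ht).norm
  exact ⟨ge_of_tendsto n1 (hev.mono fun t h => h.1), ge_of_tendsto n3 (hev.mono fun t h => h.2.1),
    ge_of_tendsto n2 (hev.mono fun t h => h.2.2)⟩

/-- one phase -/
theorem phase {Q : PH} (hQ : PHok Q) (hle : LeP P9 Q.P) {m : Fin 3 → ℝ} (hm : NearM (1 / 10 ^ 24) m)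
    {n : ℕ} (hn : 0 < n) {s s' : St}
    (hrun : run ((Q.H ^ 2 : ℕ) : ℤ) Q.ca Q.cc Q.cb DG0 DR0 25 n s = some s')
    {Y : ℝ → E} {t0 e : ℝ} (he0 : 0 ≤ e) (hY : ∀ t, t0 ≤ t → HasDerivAt Y (fld P9 m (Y t)) t)
    (he : Q.gr ^ n * (e + cE) ≤ 3 / 10 ^ 4) {y0 : E} (h0 : Y t0 = cnv Q.P P9 y0)
    (hd : dist y0 (stE Q s) ≤ e) :
    (∀ t ∈ Icc t0 (t0 + n / Q.H), Far P9 0 (Y t)) ∧ ∃ y1 : E, Y (t0 + n / Q.H) = cnv Q.P P9 y1 ∧
      dist y1 (stE Q s') ≤ Q.gr ^ n * (e + cE) := by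
  have hm6 : NearM (1 / 10 ^ 6) m := hm.mono (by norm_num)
  obtain ⟨α, hα0, hα⟩ := exists_forward (fld Q.P m) _ (fld_lip hQ.lip hm6) y0
  set y : ℝ → E := fun t => α (t - t0) with hy
  have hyd : ∀ t, t0 ≤ t → HasDerivAt y (fld Q.P m (y t)) t := by
    intro t ht
    exact (hα (t - t0) (by linarith)).comp_sub_const t t0
  have hy0 : y t0 = y0 := by simp only [hy, sub_self, hα0]
  obtain ⟨k1, k2⟩ := run_sound hQ DG0_le DR0_le hm n s s' hrun y t0 e he0 hyd he (by rw [hy0]; exact hd)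
  have hH : (0 : ℝ) < Q.H := by exact_mod_cast hQ.H0
  have hpos : 0 < (n : ℝ) / Q.H := by
    have : (0 : ℝ) < n := by exact_mod_cast hn
    positivity
  have hfar : ∀ t ∈ Icc t0 (t0 + n / Q.H), Far Q.P 0 (y t) := by
    have hgt : ∀ t, t0 < t → t ≤ t0 + n / Q.H → Far Q.P 0 (y t) := by
      intro t h1 h2
      rcases k1 t h1.le h2 with h3 | h3
      · exact h3
      · exact absurd h3 h1.ne'
    intro t ht
    rcases lt_or_eq_of_le ht.1 with h1 | h1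
    · exact hgt t h1 ht.2
    · rw [← h1]
      exact far_left (b := t0 + n / Q.H) (by linarith) (hyd t0 le_rfl).continuousAt hgt
  have hg : ∀ t ∈ Icc t0 (t0 + n / Q.H), Y t = cnv Q.P P9 (y t) := fun t ht =>
    glue hle lip9 hm6 (fun t ht => hY t ht.1) (fun t ht => hyd t ht.1) hfar (by rw [hy0]; exact h0) ht
  refine ⟨fun t ht => ?_, y (t0 + n / Q.H), hg _ ⟨by linarith, le_rfl⟩, k2⟩
  rw [hg t ht, far_cnv]
  exact (hfar t ht).leP hle

lemma le1 : LeP P9 P1 := ⟨by norm_num [P9, P1], by norm_num [P9, P1], by norm_num [P9, P1]⟩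
lemma le2 : LeP P9 P2 := ⟨by norm_num [P9, P2], by norm_num [P9, P2], by norm_num [P9, P2]⟩
lemma le3 : LeP P9 P3 := ⟨by norm_num [P9, P3], by norm_num [P9, P3], by norm_num [P9, P3]⟩

lemma norm_mk_le3 {a b c : ℝ} (ha : |a| ≤ c) (hb : |b| ≤ c) : ‖(⟨a, b⟩ : ℂ)‖ ≤ 2 * c := by
  refine (Complex.norm_le_abs_re_add_abs_im _).trans ?_
  show |a| + |b| ≤ _
  linarith

lemma trans_AB : dist (cnv P1 P2 (stE QA sA1)) (stE QB sB0) ≤ 1 / 10 ^ 27 := by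
  have hS := SR_pos
  have f1 : (cnv P1 P2 (stE QA sA1)).1 = (stE QB sB0).1 := by
    show (⟨sA1.ax0 / SR, sA1.ay0 / SR⟩ : ℂ) = ⟨sB0.ax0 / SR, sB0.ay0 / SR⟩
    rfl
  have f2 : (cnv P1 P2 (stE QA sA1)).2.1 = (stE QB sB0).2.1 := by
    show (⟨sA1.bx0 / SR, sA1.bt0 / SR⟩ : ℂ) = ⟨sB0.bx0 / SR, sB0.bt0 / SR⟩
    rfl
  have key : ∀ {a b c d : ℝ}, |8 * a - 32 * c| ≤ 32 → |8 * b - 32 * d| ≤ 32 →
      ‖(P1.sg / P2.sg : ℝ) • ((8 / P1.sg : ℝ) • (⟨a / SR, b / SR⟩ : ℂ)) - (32 / P2.sg : ℝ) • (⟨c / SR, d / SR⟩ : ℂ)‖ ≤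
        1 / 10 ^ 27 := by
    intro a b c d h1 h2
    have e : (P1.sg / P2.sg : ℝ) • ((8 / P1.sg : ℝ) • (⟨a / SR, b / SR⟩ : ℂ)) -
        (32 / P2.sg : ℝ) • (⟨c / SR, d / SR⟩ : ℂ) =
        (⟨(8 * a - 32 * c) / (P2.sg * SR), (8 * b - 32 * d) / (P2.sg * SR)⟩ : ℂ) := by
      have p1 := P1.sg0.ne'
      have p2 := P2.sg0.ne'
      have p3 := hS.ne'
      apply Complex.ext
      · simp only [Complex.sub_re, Complex.smul_re, smul_eq_mul]; field_simp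
      · simp only [Complex.sub_im, Complex.smul_im, smul_eq_mul]; field_simp
    have hp : 0 < P2.sg * SR := mul_pos P2.sg0 hS
    have h62 : P2.sg = 62 / 10 := rfl
    have hb : ∀ {x : ℝ}, |x| ≤ 32 → |x / (P2.sg * SR)| ≤ 1 / (2 * 10 ^ 27) := by
      intro x hx
      rw [abs_div, abs_of_pos hp, div_le_div_iff₀ hp (by norm_num)]
      have : (1 : ℝ) * (P2.sg * SR) ≥ 32 * (2 * 10 ^ 27) := by rw [h62, SR]; norm_num
      nlinarith
    rw [e]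
    refine (norm_mk_le3 (hb h1) (hb h2)).trans ?_
    norm_num
  rw [dist_eq_norm, Prod.norm_def, Prod.norm_def, Prod.norm_def]
  refine max_le ?_ (max_le ?_ (max_le ?_ ?_))
  · rw [Prod.fst_sub, f1, sub_self, norm_zero]; norm_num
  · rw [Prod.snd_sub, Prod.fst_sub, f2, sub_self, norm_zero]; norm_num
  · show ‖(P1.sg / P2.sg : ℝ) • (((8 : ℕ) / P1.sg : ℝ) • (⟨sA1.ax1 / SR, sA1.ay1 / SR⟩ : ℂ)) -
      ((32 : ℕ) / P2.sg : ℝ) • (⟨sB0.ax1 / SR, sB0.ay1 / SR⟩ : ℂ)‖ ≤ _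
    push_cast
    apply key
    · norm_num [sA1, sB0, abs_le]
    · norm_num [sA1, sB0, abs_le]
  · show ‖(P1.sg / P2.sg : ℝ) • (((8 : ℕ) / P1.sg : ℝ) • (⟨sA1.bx1 / SR, sA1.bt1 / SR⟩ : ℂ)) -
      ((32 : ℕ) / P2.sg : ℝ) • (⟨sB0.bx1 / SR, sB0.bt1 / SR⟩ : ℂ)‖ ≤ _
    push_cast
    apply key
    · norm_num [sA1, sB0, abs_le]
    · norm_num [sA1, sB0, abs_le]

lemma trans_BC : cnv P2 P3 (stE QB sB1) = stE QC sC0 := by
  have key : ∀ (a b c d : ℝ), 2 * a = c → 2 * b = d →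
      (P2.sg / P3.sg : ℝ) • ((32 / P2.sg : ℝ) • (⟨a / SR, b / SR⟩ : ℂ)) =
      (16 / P3.sg : ℝ) • (⟨c / SR, d / SR⟩ : ℂ) := by
    intro a b c d h1 h2
    have p1 := P2.sg0.ne'
    have p2 := P3.sg0.ne'
    have p3 := SR_pos.ne'
    apply Complex.ext
    · simp only [Complex.smul_re, smul_eq_mul, ← h1]; field_simp; ring
    · simp only [Complex.smul_im, smul_eq_mul, ← h2]; field_simp; ring
  refine Prod.ext ?_ (Prod.ext ?_ (Prod.ext ?_ ?_))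
  · show (⟨sB1.ax0 / SR, sB1.ay0 / SR⟩ : ℂ) = ⟨sC0.ax0 / SR, sC0.ay0 / SR⟩
    rfl
  · show (⟨sB1.bx0 / SR, sB1.bt0 / SR⟩ : ℂ) = ⟨sC0.bx0 / SR, sC0.bt0 / SR⟩
    rfl
  · show (P2.sg / P3.sg : ℝ) • (((32 : ℕ) / P2.sg : ℝ) • (⟨sB1.ax1 / SR, sB1.ay1 / SR⟩ : ℂ)) =
      ((16 : ℕ) / P3.sg : ℝ) • (⟨sC0.ax1 / SR, sC0.ay1 / SR⟩ : ℂ)
    push_cast
    apply key
    · norm_num [sB1, sC0]
    · norm_num [sB1, sC0]
  · show (P2.sg / P3.sg : ℝ) • (((32 : ℕ) / P2.sg : ℝ) • (⟨sB1.bx1 / SR, sB1.bt1 / SR⟩ : ℂ)) =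
      ((16 : ℕ) / P3.sg : ℝ) • (⟨sC0.bx1 / SR, sC0.bt1 / SR⟩ : ℂ)
    push_cast
    apply key
    · norm_num [sB1, sC0]
    · norm_num [sB1, sC0]

end Pool.Agent.T9h50.TL
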