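import Pool.Agent.T9h50.TL.Phd

/-!
# The solutions near the first state escape
-/

set_option autoImplicit false
set_option exponentiation.threshold 2000

open scoped NNReal ComplexConjugate Topology
open Complex Set Filter

namespace Pool.Agent.T9h50.TL

open Pool.Agent.T9h50.TB (E kd kd_eq ip dtm ip_self St SR SR_pos exists_forward RR Hb)

/-- the states near the final state lead to escape -/
theorem escC_of_near {m : Fin 3 → ℝ} (hm : NearM (1 / 10 ^ 6) m) {y : E}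
    (hy : dist y (stE QC sC1) ≤ 2 / 10 ^ 6) : EscC P9 m (cnv P3 P9 y) := by
  obtain ⟨⟨m0, m0'⟩, ⟨m1, m1'⟩, ⟨m2, m2'⟩⟩ := hm.bounds
  norm_num at m0 m0' m1 m1' m2 m2'
  rw [dist_eq_norm] at hy
  set S := stE QC sC1 with hS
  have n1 : ‖y.1 - S.1‖ ≤ 2 / 10 ^ 6 := (norm_fst_le (y - S)).trans hy
  have n2 : ‖y.2.1 - S.2.1‖ ≤ 2 / 10 ^ 6 := ((norm_fst_le (y - S).2).trans (norm_snd_le (y - S))).trans hy
  have n3 : ‖y.2.2.1 - S.2.2.1‖ ≤ 2 / 10 ^ 6 := (norm_fst_le (y - S).2.2).trans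
      ((norm_snd_le (y - S).2).trans ((norm_snd_le (y - S)).trans hy))
  have n4 : ‖y.2.2.2 - S.2.2.2‖ ≤ 2 / 10 ^ 6 := (norm_snd_le (y - S).2.2).trans
      ((norm_snd_le (y - S).2).trans ((norm_snd_le (y - S)).trans hy))
  have c1 := (abs_le.1 ((Complex.abs_re_le_norm _).trans n1))
  have c2 := (abs_le.1 ((Complex.abs_im_le_norm _).trans n1))
  have c3 := (abs_le.1 ((Complex.abs_re_le_norm _).trans n2))
  have c4 := (abs_le.1 ((Complex.abs_im_le_norm _).trans n2))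
  have c5 := (abs_le.1 ((Complex.abs_re_le_norm _).trans n3))
  have c6 := (abs_le.1 ((Complex.abs_im_le_norm _).trans n3))
  have c7 := (abs_le.1 ((Complex.abs_re_le_norm _).trans n4))
  have c8 := (abs_le.1 ((Complex.abs_im_le_norm _).trans n4))
  have e1 : S.1 = ⟨sC1.ax0 / SR, sC1.ay0 / SR⟩ := rfl
  have e2 : S.2.1 = ⟨sC1.bx0 / SR, sC1.bt0 / SR⟩ := rfl
  have e3 : S.2.2.1 = (16 / (336 / 100) : ℝ) • (⟨sC1.ax1 / SR, sC1.ay1 / SR⟩ : ℂ) := by
    show ((16 : ℕ) / (336 / 100) : ℝ) • _ = _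
    push_cast; rfl
  have e4 : S.2.2.2 = (16 / (336 / 100) : ℝ) • (⟨sC1.bx1 / SR, sC1.bt1 / SR⟩ : ℂ) := by
    show ((16 : ℕ) / (336 / 100) : ℝ) • _ = _
    push_cast; rfl
  rw [Complex.sub_re, e1] at c1
  rw [Complex.sub_im, e1] at c2
  rw [Complex.sub_re, e2] at c3
  rw [Complex.sub_im, e2] at c4
  rw [Complex.sub_re, e3, Complex.smul_re] at c5
  rw [Complex.sub_im, e3, Complex.smul_im] at c6
  rw [Complex.sub_re, e4, Complex.smul_re] at c7
  rw [Complex.sub_im, e4, Complex.smul_im] at c8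
  have f1 : (sC1.ax0 : ℝ) = -306726792970414226077547787002 := by norm_num [sC1]
  have f2 : (sC1.ax1 : ℝ) = -3879468192483841772327587495 := by norm_num [sC1]
  have f3 : (sC1.ay0 : ℝ) = 250577974983539190703503366502 := by norm_num [sC1]
  have f4 : (sC1.ay1 : ℝ) = -199651042433257910586064984 := by norm_num [sC1]
  have f5 : (sC1.bx0 : ℝ) = 55232185674686465405622940659 := by norm_num [sC1]
  have f6 : (sC1.bx1 : ℝ) = -5490071867676725268501194844 := by norm_num [sC1]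
  have f7 : (sC1.bt0 : ℝ) = 54964810816940613066370771215 := by norm_num [sC1]
  have f8 : (sC1.bt1 : ℝ) = 6071463010739472493917248406 := by norm_num [sC1]
  simp only [f1, f2, f3, f4, f5, f6, f7, f8, smul_eq_mul, SR] at c1 c2 c3 c4 c5 c6 c7 c8
  clear_value S
  set a := y.1 with ha
  set b := y.2.1 with hb
  set p := P9.sg • (cnv P3 P9 y).2.2.1 with hp
  set q := P9.sg • (cnv P3 P9 y).2.2.2 with hq
  have g0 : P9.sg * (P3.sg / P9.sg) = 336 / 100 := by simp only [P9, P3]; norm_num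
  have g1 : p.re = 336 / 100 * y.2.2.1.re := by
    rw [hp]
    show (P9.sg • ((P3.sg / P9.sg) • y.2.2.1)).re = _
    rw [smul_smul, g0, Complex.smul_re, smul_eq_mul]
  have g2 : p.im = 336 / 100 * y.2.2.1.im := by
    rw [hp]
    show (P9.sg • ((P3.sg / P9.sg) • y.2.2.1)).im = _
    rw [smul_smul, g0, Complex.smul_im, smul_eq_mul]
  have g3 : q.re = 336 / 100 * y.2.2.2.re := by
    rw [hq]
    show (P9.sg • ((P3.sg / P9.sg) • y.2.2.2)).re = _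
    rw [smul_smul, g0, Complex.smul_re, smul_eq_mul]
  have g4 : q.im = 336 / 100 * y.2.2.2.im := by
    rw [hq]
    show (P9.sg • ((P3.sg / P9.sg) • y.2.2.2)).im = _
    rw [smul_smul, g0, Complex.smul_im, smul_eq_mul]
  have k1 : a.re ≤ -(3871434 / 10 ^ 6) ∧ -(3871439 / 10 ^ 6) ≤ a.re := by
    norm_num at c1 ⊢; constructor <;> linarith [c1.1, c1.2]
  have k2 : a.im ≤ 3162741 / 10 ^ 6 ∧ 3162736 / 10 ^ 6 ≤ a.im := by
    norm_num at c2 ⊢; constructor <;> linarith [c2.1, c2.2]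
  have k3 : b.re ≤ 697131 / 10 ^ 6 ∧ 697126 / 10 ^ 6 ≤ b.re := by
    norm_num at c3 ⊢; constructor <;> linarith [c3.1, c3.2]
  have k4 : b.im ≤ 693756 / 10 ^ 6 ∧ 693751 / 10 ^ 6 ≤ b.im := by
    norm_num at c4 ⊢; constructor <;> linarith [c4.1, c4.2]
  have k5 : p.re ≤ -(783445 / 10 ^ 6) ∧ -(783460 / 10 ^ 6) ≤ p.re := by
    rw [g1]; norm_num at c5 ⊢; constructor <;> linarith [c5.1, c5.2]
  have k6 : p.im ≤ -(40312 / 10 ^ 6) ∧ -(40327 / 10 ^ 6) ≤ p.im := by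
    rw [g2]; norm_num at c6 ⊢; constructor <;> linarith [c6.1, c6.2]
  have k7 : q.re ≤ -(1108704 / 10 ^ 6) ∧ -(1108719 / 10 ^ 6) ≤ q.re := by
    rw [g3]; norm_num at c7 ⊢; constructor <;> linarith [c7.1, c7.2]
  have k8 : q.im ≤ 1226130 / 10 ^ 6 ∧ 1226115 / 10 ^ 6 ≤ q.im := by
    rw [g4]; norm_num at c8 ⊢; constructor <;> linarith [c8.1, c8.2]
  clear c1 c2 c3 c4 c5 c6 c7 c8
  have hM : 0 < m 1 + m 2 := by linarith
  have μ1 : 499995 / 10 ^ 6 ≤ m 2 / (m 1 + m 2) := by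
    rw [le_div_iff₀ hM]; norm_num; linarith
  have μ2 : m 2 / (m 1 + m 2) ≤ 500005 / 10 ^ 6 := by
    rw [div_le_iff₀ hM]; norm_num; linarith
  have hq2 : ‖q‖ ^ 2 = q.re * q.re + q.im * q.im := by rw [← ip_self, ip]
  have hb2 : ‖b‖ ^ 2 = b.re * b.re + b.im * b.im := by rw [← ip_self, ip]
  have sq1 : q.re * q.re ≤ (1108719 / 10 ^ 6) ^ 2 := by
    have : (-q.re) * (-q.re) ≤ (1108719 / 10 ^ 6) * (1108719 / 10 ^ 6) :=
      mul_le_mul (by linarith [k7.2]) (by linarith [k7.2]) (by norm_num at k7 ⊢; linarith [k7.1]) (by norm_num)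
    linarith
  have sq2 : q.im * q.im ≤ (1226130 / 10 ^ 6) ^ 2 := by
    have : q.im * q.im ≤ (1226130 / 10 ^ 6) * (1226130 / 10 ^ 6) :=
      mul_le_mul k8.1 k8.1 (by norm_num at k8 ⊢; linarith [k8.2]) (by norm_num)
    linarith
  have sb1 : b.re * b.re ≤ (697131 / 10 ^ 6) ^ 2 := by
    have : b.re * b.re ≤ (697131 / 10 ^ 6) * (697131 / 10 ^ 6) :=
      mul_le_mul k3.1 k3.1 (by norm_num at k3 ⊢; linarith [k3.2]) (by norm_num)
    linarith
  have sb2 : b.im * b.im ≤ (693756 / 10 ^ 6) ^ 2 := by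
    have : b.im * b.im ≤ (693756 / 10 ^ 6) * (693756 / 10 ^ 6) :=
      mul_le_mul k4.1 k4.1 (by norm_num at k4 ⊢; linarith [k4.2]) (by norm_num)
    linarith
  have sb3 : (697126 / 10 ^ 6) ^ 2 ≤ b.re * b.re := by
    have : (697126 / 10 ^ 6) * (697126 / 10 ^ 6) ≤ b.re * b.re :=
      mul_le_mul k3.2 k3.2 (by norm_num) (by norm_num at k3 ⊢; linarith [k3.2])
    linarith
  have sb4 : (693751 / 10 ^ 6) ^ 2 ≤ b.im * b.im := by
    have : (693751 / 10 ^ 6) * (693751 / 10 ^ 6) ≤ b.im * b.im :=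
      mul_le_mul k4.2 k4.2 (by norm_num) (by norm_num at k4 ⊢; linarith [k4.2])
    linarith
  have hle : ∀ {x y : ℝ}, x ^ 2 ≤ y ^ 2 → 0 ≤ y → x ≤ y := fun h hb => (abs_le_of_sq_le_sq' h hb).2
  have nb1 : ‖b‖ ≤ 98352 / 10 ^ 5 := by
    have : ‖b‖ ^ 2 ≤ (98352 / 10 ^ 5) ^ 2 := by
      rw [hb2]; norm_num at sb1 sb2 ⊢; linarith
    exact hle this (by norm_num)
  have nb2 : 98 / 100 ≤ ‖b‖ := by
    have : (98 / 100) ^ 2 ≤ ‖b‖ ^ 2 := by
      rw [hb2]; norm_num at sb3 sb4 ⊢; linarith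
    exact hle this (norm_nonneg _)
  have nb0 : 0 < ‖b‖ := by linarith
  refine ⟨?_, ?_, ?_, ?_, ?_, ?_, ?_⟩
  · change 4923 / 1000 ≤ cmp (RR m a b)
    rw [RR, cmp_add, cmp_smul]
    have h1 : -(1416 / 10 ^ 4) ≤ cmp b := by
      rw [cmp]; norm_num at k3 k4 ⊢; linarith [k3.1, k4.2]
    have h2 : -(708 / 10 ^ 4) - 1 / 10 ^ 5 ≤ m 2 / (m 1 + m 2) * cmp b := by
      have h0 : 0 < m 2 / (m 1 + m 2) := by norm_num at μ1; linarith
      calc -(708 / 10 ^ 4) - 1 / 10 ^ 5 ≤ 500005 / 10 ^ 6 * (-(1416 / 10 ^ 4)) := by norm_num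
        _ ≤ m 2 / (m 1 + m 2) * (-(1416 / 10 ^ 4)) := by
            apply mul_le_mul_of_nonpos_right μ2; norm_num
        _ ≤ _ := mul_le_mul_of_nonneg_left h1 h0.le
    have h3 : cmp a = -(4 / 5) * a.re + 3 / 5 * a.im := rfl
    rw [h3]
    norm_num at h2 k1 k2 ⊢
    linarith [k1.1, k2.2]
  · change 1413 / 1000 ≤ cmp (RR m p q)
    rw [RR, cmp_add, cmp_smul (m 2 / (m 1 + m 2)) q]
    have h1 : 16226 / 10 ^ 4 ≤ cmp q := by
      rw [cmp]; norm_num at k7 k8 ⊢; linarith [k7.1, k8.2]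
    have h2 : 499995 / 10 ^ 6 * (16226 / 10 ^ 4) ≤ m 2 / (m 1 + m 2) * cmp q :=
      mul_le_mul μ1 h1 (by norm_num) (by norm_num at μ1 ⊢; linarith)
    have h3 : cmp p = -(4 / 5) * p.re + 3 / 5 * p.im := rfl
    rw [h3]
    norm_num at h2 k5 k6 ⊢
    linarith [k5.1, k6.2]
  · change Hb m b q ≤ -(16240 / 10 ^ 4)
    rw [Hb, hq2]
    have h1 : 10 ^ 5 / 98352 ≤ 1 / ‖b‖ := by
      rw [div_le_div_iff₀ (by norm_num) nb0]; linarith
    have h2 : 294116 / 10 ^ 5 * (10 ^ 5 / 98352) ≤ (m 1 + m 2) * (1 / ‖b‖) :=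
      mul_le_mul (by norm_num; linarith) h1 (by norm_num) (by linarith)
    norm_num at h2 sq1 sq2 ⊢
    linarith
  · change 16237 / 10 ^ 4 ≤ dtm b q
    rw [dtm]
    have h1 : 697126 / 10 ^ 6 * (1226115 / 10 ^ 6) ≤ b.re * q.im :=
      mul_le_mul k3.2 k8.2 (by norm_num) (by norm_num at k3 ⊢; linarith [k3.2])
    have h2 : 693751 / 10 ^ 6 * (1108704 / 10 ^ 6) ≤ b.im * (-q.re) :=
      mul_le_mul k4.2 (by linarith [k7.1]) (by norm_num) (by norm_num at k4 ⊢; linarith [k4.2])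
    norm_num at h1 h2 ⊢
    linarith
  · change 77 / 100 < ‖b‖
    norm_num at nb2 ⊢; linarith
  · change ‖b‖ < 105 / 100
    norm_num at nb1 ⊢; linarith
  · change ‖q‖ < 211 / 100
    have : ‖q‖ ^ 2 < (211 / 100) ^ 2 := by
      rw [hq2]; norm_num at sq1 sq2 ⊢; linarith
    exact lt_of_pow_lt_pow_left₀ 2 (by norm_num) this

/-- every solution which starts near the first state escapes -/
theorem phases {m : Fin 3 → ℝ} (hm : NearM (1 / 10 ^ 24) m) {Y : ℝ → E}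
    (hY : ∀ t, 0 ≤ t → HasDerivAt Y (fld P9 m (Y t)) t) {y0 : E} (h0 : Y 0 = cnv P1 P9 y0)
    (hd : dist y0 (stE QA sA0) ≤ 1 / 10 ^ 20) {t : ℝ} (ht : 0 ≤ t) :
    Far P9 0 (Y t) ∧ (29 / 4 ≤ t → 4 + 70 / 100 * (t - 29 / 4) ≤ ‖(Y t).1‖) := by
  have hm6 : NearM (1 / 10 ^ 6) m := hm.mono (by norm_num)
  -- first phase
  have pA : (16081 / 10 ^ 4 : ℝ) ^ 24 * (1 / 10 ^ 20 + cE) ≤ 28 / 10 ^ 16 := by
    unfold cE; norm_num
  have a := phase okA le1 hm (n := 24) (by norm_num) runA (t0 := 0) (e := 1 / 10 ^ 20) (by norm_num)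
    (fun t ht => hY t ht) (pA.trans (by norm_num)) h0 hd
  obtain ⟨a1, yA, a2, a3⟩ := a
  have eA : (0 : ℝ) + (24 : ℕ) / QA.H = 3 := by
    show (0 : ℝ) + (24 : ℕ) / (8 : ℕ) = 3
    norm_num
  rw [eA] at a1 a2
  have a3' : dist yA (stE QA sA1) ≤ 28 / 10 ^ 16 := a3.trans pA
  have b0 : dist (cnv P1 P2 yA) (stE QB sB0) ≤ 29 / 10 ^ 16 := by
    have h1 := dist_triangle (cnv P1 P2 yA) (cnv P1 P2 (stE QA sA1)) (stE QB sB0)
    have h2 := cnv_dist P1 P2 yA (stE QA sA1) (c := 1) le_rfl (by simp only [P1, P2]; norm_num)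
    have h3 := trans_AB
    norm_num at h2 h3 a3' ⊢
    linarith
  -- second phase
  have pB : (12138 / 10 ^ 4 : ℝ) ^ 56 * (29 / 10 ^ 16 + cE) ≤ 15 / 10 ^ 11 := by
    unfold cE; norm_num
  have b := phase okB le2 hm (n := 56) (by norm_num) runB (t0 := 3) (e := 29 / 10 ^ 16) (by norm_num)
    (fun t ht => hY t (by linarith)) (pB.trans (by norm_num)) (y0 := cnv P1 P2 yA)
    (by
      show Y 3 = cnv P2 P9 (cnv P1 P2 yA)
      rw [cnv_cnv]; exact a2) b0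
  obtain ⟨b1, yB, b2, b3⟩ := b
  have eB : (3 : ℝ) + (56 : ℕ) / QB.H = 19 / 4 := by
    show (3 : ℝ) + (56 : ℕ) / (32 : ℕ) = 19 / 4
    norm_num
  rw [eB] at b1 b2
  have b3' : dist yB (stE QB sB1) ≤ 15 / 10 ^ 11 := b3.trans pB
  have c0 : dist (cnv P2 P3 yB) (stE QC sC0) ≤ 29 / 10 ^ 11 := by
    have h2 := cnv_dist P2 P3 yB (stE QB sB1) (c := 19 / 10) (by norm_num) (by simp only [P2, P3]; norm_num)
    rw [trans_BC] at h2
    norm_num at h2 b3' ⊢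
    linarith
  -- third phase
  have pC : (12337 / 10 ^ 4 : ℝ) ^ 40 * (29 / 10 ^ 11 + cE) ≤ 2 / 10 ^ 6 := by
    unfold cE; norm_num
  have c := phase okC le3 hm (n := 40) (by norm_num) runC (t0 := 19 / 4) (e := 29 / 10 ^ 11) (by norm_num)
    (fun t ht => hY t (by linarith)) (pC.trans (by norm_num)) (y0 := cnv P2 P3 yB)
    (by
      show Y (19 / 4) = cnv P3 P9 (cnv P2 P3 yB)
      rw [cnv_cnv]; exact b2) c0
  obtain ⟨c1, yC, c2, c3⟩ := c
  have eC : (19 / 4 : ℝ) + (40 : ℕ) / QC.H = 29 / 4 := by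
    show (19 / 4 : ℝ) + (40 : ℕ) / (16 : ℕ) = 29 / 4
    norm_num
  rw [eC] at c1 c2
  have c3' : dist yC (stE QC sC1) ≤ 2 / 10 ^ 6 := c3.trans pC
  have hE : EscC P9 m (Y (29 / 4)) := by
    have h := escC_of_near hm6 (y := yC) c3'
    have e : Y (29 / 4) = cnv P3 P9 yC := c2
    rw [e]; exact h
  have hesc := fun (t : ℝ) (ht : 29 / 4 ≤ t) => escape hm6 (by simp only [P9]; norm_num)
    (by simp only [P9]; norm_num) (by simp only [P9]; norm_num) (T0 := 29 / 4)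
    (fun s hs => hY s (by linarith)) hE ht
  refine ⟨?_, fun h => (hesc t h).1⟩
  rcases le_or_gt t 3 with h1 | h1
  · exact a1 t ⟨ht, h1⟩
  rcases le_or_gt t (19 / 4) with h2 | h2
  · exact b1 t ⟨h1.le, h2⟩
  rcases le_or_gt t (29 / 4) with h3 | h3
  · exact c1 t ⟨h2.le, h3⟩
  · exact (hesc t h3.le).2

end Pool.Agent.T9h50.TL
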