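import Pool.Agent.T9h50.TL.Fld
import Pool.Agent.T9h50.TL.Num
import Pool.Agent.T9h50.TB.Dfc

/-!
# One phase of the numerical integration
-/

set_option autoImplicit false
set_option exponentiation.threshold 2000

open scoped NNReal ComplexConjugate Topology
open Complex Set Filter
open Pool.Agent.T9h50.TB (E kd kd_lip kd_eq norm_kd_le kd_rot ip dtm ip_self lagr abs_ip_le abs_dtm_le
  fI fI_eq fN fN_eq XN XN_eq S1 S3 S4 dg rdiv pk Ls St nwt der2 sm dsm nrm chkN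
  chk hd2 nxt chkS fSt fLs Rep evR dR ddR abs_evR_le two_pow_lt_XN SR SR_pos cz cz1 cz2 hasDerivAt_cz
  hasDerivAt_cz1 kern_cmp norm_mk_le combine sm_eq dsm_eq hd2_sound exists_forward)

namespace Pool.Agent.T9h50.TL

/-- the data of a phase -/
structure PH where
  P : Par
  H : ℕ
  ca : ℕ
  cc : ℕ
  cb : ℕ
  gr : ℝ

/-- the numerical conditions for a phase -/
structure PHok (Q : PH) : Prop where
  H0 : 0 < Q.H
  H2 : Q.H ^ 2 ≤ 1024
  ca : 250 ≤ Q.ca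
  cc : 250 ≤ Q.cc
  cb : 250 ≤ Q.cb
  hA : Q.P.dA + 7 / 10 ^ 4 ≤ (1 - 1 / 10 ^ 4) * Q.ca / 1000
  hC : Q.P.dC + 7 / 10 ^ 4 ≤ (1 - 1 / 10 ^ 4) * Q.cc / 1000
  hB : Q.P.dB + 7 / 10 ^ 4 ≤ (1 - 1 / 10 ^ 4) * Q.cb / 1000
  dA : 1 / 2 ≤ Q.P.dA
  dC : 1 / 2 ≤ Q.P.dC
  dB : 1 / 2 ≤ Q.P.dB
  lip : LipOK Q.P
  sg1 : 1 ≤ Q.P.sg
  exp : Real.exp (Q.P.sg / Q.H) ≤ Q.gr
  gr1 : 1 ≤ Q.gr

/-- the approximate trajectory of a step -/
noncomputable def trj (Q : PH) (L : Ls) (t : ℝ) : E :=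
  (cz L.ax L.ay (Q.H * t), cz L.bx L.bt (Q.H * t), (Q.H / Q.P.sg : ℝ) • cz1 L.ax L.ay (Q.H * t),
    (Q.H / Q.P.sg : ℝ) • cz1 L.bx L.bt (Q.H * t))

/-- its derivative -/
noncomputable def trj' (Q : PH) (L : Ls) (t : ℝ) : E :=
  ((Q.H : ℝ) • cz1 L.ax L.ay (Q.H * t), (Q.H : ℝ) • cz1 L.bx L.bt (Q.H * t),
    ((Q.H : ℝ) ^ 2 / Q.P.sg : ℝ) • cz2 L.ax L.ay (Q.H * t),
    ((Q.H : ℝ) ^ 2 / Q.P.sg : ℝ) • cz2 L.bx L.bt (Q.H * t))

lemma hasDerivAt_trj (Q : PH) (L : Ls) (t : ℝ) : HasDerivAt (trj Q L) (trj' Q L t) t := by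
  have h4 : HasDerivAt (fun t : ℝ => (Q.H : ℝ) * t) Q.H t := by
    simpa using (hasDerivAt_id t).const_mul (Q.H : ℝ)
  have h1 := (hasDerivAt_cz L.ax L.ay (Q.H * t)).scomp t h4
  have h2 := (hasDerivAt_cz L.bx L.bt (Q.H * t)).scomp t h4
  have h3 := ((hasDerivAt_cz1 L.ax L.ay (Q.H * t)).scomp t h4).const_smul (Q.H / Q.P.sg)
  have h5 := ((hasDerivAt_cz1 L.bx L.bt (Q.H * t)).scomp t h4).const_smul (Q.H / Q.P.sg)
  have e : ∀ z : ℂ, (Q.H / Q.P.sg : ℝ) • ((Q.H : ℝ) • z) = ((Q.H : ℝ) ^ 2 / Q.P.sg : ℝ) • z := fun z => by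
    rw [smul_smul]; congr 1; ring
  rw [e] at h3 h5
  exact h1.prodMk (h2.prodMk (h3.prodMk h5))

lemma re_part {H r a b c u v w D : ℝ} {k1 k2 : ℝ}
    (h : |H ^ 2 * 17 * 2 ^ 288 * r - (k1 * (u * (a * a * a) - v * (b * b * b)) - k2 * (w * (c * c * c)))| ≤ D) :
    |H ^ 2 * (r / SR) - (k1 / 17 * ((a / SR * (a / SR) * (a / SR)) * (u / SR) -
      (b / SR * (b / SR) * (b / SR)) * (v / SR)) -
      k2 / 17 * ((c / SR * (c / SR) * (c / SR)) * (w / SR)))| ≤ D / (17 * 2 ^ 384) := by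
  have e : H ^ 2 * (r / SR) - (k1 / 17 * ((a / SR * (a / SR) * (a / SR)) * (u / SR) -
      (b / SR * (b / SR) * (b / SR)) * (v / SR)) -
      k2 / 17 * ((c / SR * (c / SR) * (c / SR)) * (w / SR))) =
      (H ^ 2 * 17 * 2 ^ 288 * r - (k1 * (u * (a * a * a) - v * (b * b * b)) - k2 * (w * (c * c * c)))) /
        (17 * 2 ^ 384) := by
    unfold SR
    field_simp
  rw [e, abs_div, abs_of_pos (by positivity : (0:ℝ) < 17 * 2 ^ 384)]
  exact div_le_div_of_nonneg_right h (by positivity)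

lemma four_div {ε d : ℝ} (hε : 0 ≤ ε) (hd : 1 / 2 ≤ d) : 4 * ε / d ^ 2 ≤ 16 * ε := by
  rw [div_le_iff₀ (by positivity)]
  have : (1 / 2) ^ 2 ≤ d ^ 2 := by gcongr
  nlinarith

lemma one_div_sq {d : ℝ} (hd : 1 / 2 ≤ d) : 1 / d ^ 2 ≤ 4 := by
  rw [div_le_iff₀ (by positivity)]
  have : (1 / 2) ^ 2 ≤ d ^ 2 := by gcongr
  nlinarith

theorem trj_defect {Q : PH} (hQ : PHok Q) {DG DR : ℕ} {L : Ls}
    (hL : Good ((Q.H ^ 2 : ℕ) : ℤ) Q.ca Q.cc Q.cb DG DR L)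
    (hDG : (DG : ℝ) ≤ 2 ^ 384 / 10 ^ 26)
    (hDR : (DR : ℝ) ≤ 17 * 2 ^ 384 / 10 ^ 22) {m : Fin 3 → ℝ} (hm : NearM (1 / 10 ^ 24) m)
    {t : ℝ} (h0 : 0 ≤ t) (h1 : t ≤ 1 / Q.H) :
    dist (trj' Q L t) (fld Q.P m (trj Q L t)) ≤ 2.1 / 10 ^ 20 ∧ Far Q.P (7 / 10 ^ 4) (trj Q L t) := by
  have hH0 : (0 : ℝ) < Q.H := by exact_mod_cast hQ.H0
  set x := Q.H * t with hx
  have hx0 : 0 ≤ x := by positivity
  have hx1 : x ≤ 1 := by
    rw [hx]; rw [le_div_iff₀ hH0] at h1; linarith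
  have hD0 : (0 : ℝ) ≤ 104 * (DG : ℝ) := by positivity
  have hD1 : 104 * (DG : ℝ) ≤ 2 ^ 384 / 10 ^ 4 := by
    have : (2 : ℝ) ^ 384 / 10 ^ 26 * 104 ≤ 2 ^ 384 / 10 ^ 4 := by
      rw [div_mul_eq_mul_div, div_le_div_iff₀ (by positivity) (by positivity)]
      norm_num
    linarith
  have hD2 : 104 * (DG : ℝ) / 2 ^ 384 ≤ 1.04 / 10 ^ 24 := by
    rw [div_le_div_iff₀ (by positivity) (by positivity)]
    have : (DG : ℝ) * 10 ^ 26 ≤ 2 ^ 384 := by
      rwa [le_div_iff₀ (by positivity)] at hDG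
    nlinarith
  have pca : (0 : ℝ) < Q.ca := by have := hQ.ca; positivity
  have pcc : (0 : ℝ) < Q.cc := by have := hQ.cc; positivity
  have pcb : (0 : ℝ) < Q.cb := by have := hQ.cb; positivity
  obtain ⟨fa, ka⟩ := kern_cmp Q.P.dA0 (hL.ga0 x hx0 hx1) hD0 (hL.ea x hx0 hx1) hD1
    (hL.ga1 x hx0 hx1) pca (by have := hQ.hA; linarith)
  obtain ⟨fc, kc⟩ := kern_cmp Q.P.dC0 (hL.gc0 x hx0 hx1) hD0 (hL.ec x hx0 hx1) hD1
    (hL.gc1 x hx0 hx1) pcc (by have := hQ.hC; linarith)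
  obtain ⟨fb, kb⟩ := kern_cmp Q.P.dB0 (hL.gb0 x hx0 hx1) hD0 (hL.eb x hx0 hx1) hD1
    (hL.gb1 x hx0 hx1) pcb (by have := hQ.hB; linarith)
  set A : ℂ := cz L.ax L.ay x with hA
  set B : ℂ := cz L.bx L.bt x with hB
  have eA : (⟨evR L.ax x / SR, evR L.ay x / SR⟩ : ℂ) = A := rfl
  have eB : (⟨evR L.bx x / SR, evR L.bt x / SR⟩ : ℂ) = B := rfl
  have eC : (⟨(evR L.ax x + evR L.bx x) / SR, (evR L.ay x + evR L.bt x) / SR⟩ : ℂ) = A + B := by
    apply Complex.ext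
    · simp only [A, B, cz, Complex.add_re]; ring
    · simp only [A, B, cz, Complex.add_im]; ring
  rw [eA] at fa ka
  rw [eB] at fb kb
  rw [eC] at fc kc
  have far : Far Q.P (7 / 10 ^ 4) (trj Q L t) := ⟨hQ.hA.trans fa, hQ.hC.trans fc, hQ.hB.trans fb⟩
  refine ⟨?_, far⟩
  set ε : ℝ := 104 * (DG : ℝ) / 2 ^ 384 with hε
  have hε0 : 0 ≤ ε := by positivity
  replace ka := ka.trans (four_div hε0 hQ.dA)
  replace kc := kc.trans (four_div hε0 hQ.dC)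
  replace kb := kb.trans (four_div hε0 hQ.dB)
  set γa := evR L.ga x / SR * (evR L.ga x / SR) * (evR L.ga x / SR) with hγa
  set γb := evR L.gb x / SR * (evR L.gb x / SR) * (evR L.gb x / SR) with hγb
  set γc := evR L.gc x / SR * (evR L.gc x / SR) * (evR L.gc x / SR) with hγc
  have hδ : 104 * (DR : ℝ) / (17 * 2 ^ 384) ≤ 1.04 / 10 ^ 20 := by
    rw [div_le_div_iff₀ (by positivity) (by positivity)]
    have : (DR : ℝ) * 10 ^ 22 ≤ 17 * 2 ^ 384 := by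
      rwa [le_div_iff₀ (by positivity)] at hDR
    nlinarith
  have eH : ((((Q.H ^ 2 : ℕ) : ℤ)) : ℝ) = (Q.H : ℝ) ^ 2 := by push_cast; rfl
  have rax := hL.rax x hx0 hx1
  have ray := hL.ray x hx0 hx1
  have rbx := hL.rbx x hx0 hx1
  have rby := hL.rby x hx0 hx1
  rw [eH] at rax ray rbx rby
  have resA : ‖((Q.H : ℝ) ^ 2) • cz2 L.ax L.ay x - ((25 / 17 : ℝ) • (((γb : ℝ) : ℂ) * B - ((γc : ℝ) : ℂ) * (A + B)) -
      (26 / 17 : ℝ) • (((γa : ℝ) : ℂ) * A))‖ ≤ 2 * (1.04 / 10 ^ 20) := by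
    have p1 := (re_part rax).trans hδ
    have p2 := (re_part ray).trans hδ
    refine le_trans (le_of_eq ?_) (norm_mk_le p1 p2)
    congr 1
    rw [← eC, ← eA, ← eB]
    apply Complex.ext
    · simp only [cz2, Complex.sub_re, Complex.real_smul, Complex.re_ofReal_mul, γa, γb, γc]
    · simp only [cz2, Complex.sub_im, Complex.real_smul, Complex.im_ofReal_mul, γa, γb, γc]
  have resB : ‖((Q.H : ℝ) ^ 2) • cz2 L.bx L.bt x - ((1 / 17 : ℝ) • (((γa : ℝ) : ℂ) * A - ((γc : ℝ) : ℂ) * (A + B)) -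
      (50 / 17 : ℝ) • (((γb : ℝ) : ℂ) * B))‖ ≤ 2 * (1.04 / 10 ^ 20) := by
    have p1 := (re_part rbx).trans hδ
    have p2 := (re_part rby).trans hδ
    refine le_trans (le_of_eq ?_) (norm_mk_le p1 p2)
    congr 1
    rw [← eC, ← eA, ← eB]
    apply Complex.ext
    · simp only [cz2, Complex.sub_re, Complex.real_smul, Complex.re_ofReal_mul, γa, γb, γc]
    · simp only [cz2, Complex.sub_im, Complex.real_smul, Complex.im_ofReal_mul, γa, γb, γc]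
  have RA := combine resA ka kb kc (by norm_num) (by norm_num) (k3 := 1 / 10 ^ 22) (by
    norm_num at hD2 ⊢
    linarith)
  have RB := combine resB kb ka kc (by norm_num) (by norm_num) (k3 := 1 / 10 ^ 22) (by
    norm_num at hD2 ⊢
    linarith)
  have FAh : FA Q.P mh A B = (25 / 17 : ℝ) • (kd Q.P.dB B - kd Q.P.dC (A + B)) - (26 / 17 : ℝ) • kd Q.P.dA A := by
    simp only [FA, mh0, mh1, mh2, smul_sub]
    rw [show (1 / 17 + 25 / 17 : ℝ) = 26 / 17 by norm_num]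
    abel
  have FBh : FB Q.P mh A B = (1 / 17 : ℝ) • (kd Q.P.dA A - kd Q.P.dC (A + B)) - (50 / 17 : ℝ) • kd Q.P.dB B := by
    simp only [FB, mh0, mh1, mh2, smul_sub]
    rw [show (25 / 17 + 25 / 17 : ℝ) = 50 / 17 by norm_num]
  rw [← FAh] at RA
  rw [← FBh] at RB
  have oA := one_div_sq hQ.dA
  have oB := one_div_sq hQ.dB
  have oC := one_div_sq hQ.dC
  have tA : 2 / Q.P.dA ^ 2 = 2 * (1 / Q.P.dA ^ 2) := by ring
  have tB : 2 / Q.P.dB ^ 2 = 2 * (1 / Q.P.dB ^ 2) := by ring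
  have MA : ‖FA Q.P m A B - FA Q.P mh A B‖ ≤ 16 / 10 ^ 24 := by
    have h := FA_mass Q.P hm A B
    rw [tA] at h
    norm_num at h oA oB oC ⊢
    linarith
  have MB : ‖FB Q.P m A B - FB Q.P mh A B‖ ≤ 16 / 10 ^ 24 := by
    have h := FB_mass Q.P hm A B
    rw [tB] at h
    norm_num at h oA oB oC ⊢
    linarith
  have TA : ‖((Q.H : ℝ) ^ 2) • cz2 L.ax L.ay x - FA Q.P m A B‖ ≤ 2.1 / 10 ^ 20 := by
    have e : ((Q.H : ℝ) ^ 2) • cz2 L.ax L.ay x - FA Q.P m A B =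
      (((Q.H : ℝ) ^ 2) • cz2 L.ax L.ay x - FA Q.P mh A B) - (FA Q.P m A B - FA Q.P mh A B) := by abel
    rw [e]
    refine (norm_sub_le _ _).trans ?_
    norm_num at RA MA ⊢
    linarith
  have TB : ‖((Q.H : ℝ) ^ 2) • cz2 L.bx L.bt x - FB Q.P m A B‖ ≤ 2.1 / 10 ^ 20 := by
    have e : ((Q.H : ℝ) ^ 2) • cz2 L.bx L.bt x - FB Q.P m A B =
      (((Q.H : ℝ) ^ 2) • cz2 L.bx L.bt x - FB Q.P mh A B) - (FB Q.P m A B - FB Q.P mh A B) := by abel
    rw [e]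
    refine (norm_sub_le _ _).trans ?_
    norm_num at RB MB ⊢
    linarith
  rw [dist_eq_norm]
  have hsg : Q.P.sg ≠ 0 := Q.P.sg0.ne'
  have e1 : (trj' Q L t - fld Q.P m (trj Q L t)).1 = 0 := by
    simp only [trj', fld, trj, Prod.fst_sub, smul_smul]
    rw [show Q.P.sg * (Q.H / Q.P.sg) = Q.H by field_simp, sub_self]
  have e2 : (trj' Q L t - fld Q.P m (trj Q L t)).2.1 = 0 := by
    simp only [trj', fld, trj, Prod.fst_sub, Prod.snd_sub, smul_smul]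
    rw [show Q.P.sg * (Q.H / Q.P.sg) = Q.H by field_simp, sub_self]
  have e3 : (trj' Q L t - fld Q.P m (trj Q L t)).2.2.1 =
      Q.P.sg⁻¹ • (((Q.H : ℝ) ^ 2) • cz2 L.ax L.ay x - FA Q.P m A B) := by
    simp only [trj', fld, trj, Prod.fst_sub, Prod.snd_sub, smul_sub, smul_smul]
    rw [show Q.P.sg⁻¹ * (Q.H : ℝ) ^ 2 = (Q.H : ℝ) ^ 2 / Q.P.sg by field_simp]
  have e4 : (trj' Q L t - fld Q.P m (trj Q L t)).2.2.2 =
      Q.P.sg⁻¹ • (((Q.H : ℝ) ^ 2) • cz2 L.bx L.bt x - FB Q.P m A B) := by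
    simp only [trj', fld, trj, Prod.snd_sub, smul_sub, smul_smul]
    rw [show Q.P.sg⁻¹ * (Q.H : ℝ) ^ 2 = (Q.H : ℝ) ^ 2 / Q.P.sg by field_simp]
  have hs' : ∀ z : ℂ, ‖z‖ ≤ 2.1 / 10 ^ 20 → ‖Q.P.sg⁻¹ • z‖ ≤ 2.1 / 10 ^ 20 := fun z hz => by
    rw [norm_smul, Real.norm_of_nonneg (inv_pos.2 Q.P.sg0).le]
    have h3 : Q.P.sg⁻¹ ≤ 1 := inv_le_one_of_one_le₀ hQ.sg1
    calc Q.P.sg⁻¹ * ‖z‖ ≤ 1 * ‖z‖ := by gcongr
      _ ≤ _ := by rw [one_mul]; exact hz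
  rw [Prod.norm_def, Prod.norm_def, Prod.norm_def, e1, e2, e3, e4, norm_zero]
  exact max_le (by norm_num) (max_le (by norm_num) (max_le (hs' _ TA) (hs' _ TB)))

/-- the point of the state space which corresponds to a state -/
noncomputable def stE (Q : PH) (s : St) : E :=
  (⟨s.ax0 / SR, s.ay0 / SR⟩, ⟨s.bx0 / SR, s.bt0 / SR⟩,
    (Q.H / Q.P.sg : ℝ) • (⟨s.ax1 / SR, s.ay1 / SR⟩ : ℂ), (Q.H / Q.P.sg : ℝ) • (⟨s.bx1 / SR, s.bt1 / SR⟩ : ℂ))

lemma trj_zero (Q : PH) {L : Ls} {s : St} (h : chkS L s = true) : trj Q L 0 = stE Q s := by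
  simp only [chkS, Bool.and_eq_true] at h
  obtain ⟨h1, h2, h3, h4⟩ := h
  obtain ⟨a1, a2⟩ := hd2_sound h1
  obtain ⟨b1, b2⟩ := hd2_sound h2
  obtain ⟨c1, c2⟩ := hd2_sound h3
  obtain ⟨d1, d2⟩ := hd2_sound h4
  simp only [trj, mul_zero, cz, cz1, a1, a2, b1, b2, c1, c2, d1, d2, stE]

lemma trj_end {Q : PH} (hQ : PHok Q) (L : Ls) : trj Q L (1 / Q.H) = stE Q (nxt L) := by
  have hH0 : (0 : ℝ) < Q.H := by exact_mod_cast hQ.H0
  have e : (Q.H : ℝ) * (1 / Q.H) = 1 := by field_simp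
  simp only [trj, e, cz, cz1, stE, nxt, sm_eq, dsm_eq]
  norm_num

/-- one step, in general form -/
lemma gron {P : Par} (hP : LipOK P) {m : Fin 3 → ℝ} (hm : NearM (1 / 10 ^ 6) m) {y z z' : ℝ → E}
    {t0 h e ε : ℝ}
    (hy : ∀ t ∈ Icc t0 (t0 + h), HasDerivAt y (fld P m (y t)) t)
    (hz : ∀ t ∈ Icc 0 h, HasDerivAt z (z' t) t) (hd : ∀ t ∈ Icc 0 h, dist (z' t) (fld P m (z t)) ≤ ε)
    (h0 : dist (y t0) (z 0) ≤ e) {t : ℝ} (ht : t ∈ Icc 0 h) :
    dist (y (t0 + t)) (z t) ≤ (e + ε / P.sg) * Real.exp (P.sg * t) - ε / P.sg := by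
  have hL := fld_lip hP hm
  have hy' : ∀ s ∈ Icc 0 h, HasDerivAt (fun s => y (t0 + s)) (fld P m (y (t0 + s))) s := by
    intro s hs
    have := hy (t0 + s) ⟨by linarith [hs.1], by linarith [hs.2]⟩
    exact this.comp_const_add t0 s
  have key := dist_le_of_approx_trajectories_ODE (v := fun _ => fld P m) (K := P.K)
    (f := fun s => y (t0 + s)) (g := z) (f' := fun s => fld P m (y (t0 + s))) (g' := z')
    (a := 0) (b := h) (εf := 0) (εg := ε) (δ := e) (fun _ => hL)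
    (fun s hs => (hy' s hs).continuousAt.continuousWithinAt)
    (fun s hs => (hy' s ⟨hs.1, hs.2.le⟩).hasDerivWithinAt)
    (fun s _ => by simp)
    (fun s hs => (hz s hs).continuousAt.continuousWithinAt)
    (fun s hs => (hz s ⟨hs.1, hs.2.le⟩).hasDerivWithinAt)
    (fun s hs => hd s ⟨hs.1, hs.2.le⟩) (by simpa using h0) t ht
  have cs : ((P.K : ℝ≥0) : ℝ) = P.sg := rfl
  rw [cs, gronwallBound_of_K_ne_0 P.sg0.ne', zero_add, sub_zero] at key
  calc _ ≤ _ := key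
    _ = _ := by ring

lemma run_succ (H2 : ℤ) (ca cc cb DG DR deg n : Nat) (s : St) :
    run H2 ca cc cb DG DR deg (n + 1) s =
    bif (chkS (gen H2 deg s) s).and (chkL H2 ca cc cb DG DR (gen H2 deg s)) then
      run H2 ca cc cb DG DR deg n (nxt (gen H2 deg s)) else none := by
  have h1 : ∀ {α : Type} (L : Ls) (f : Ls → α), fLs L f = f L := fun L f => by cases L; rfl
  have h2 : ∀ {α : Type} (s : St) (f : St → α), fSt s f = f s := fun s f => by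
    simp only [fSt, fI_eq]
  have : run H2 ca cc cb DG DR deg (n + 1) s = fLs (gen H2 deg s) fun L =>
      Bool.casesOn (motive := fun _ => Option St) ((chkS L s).and (chkL H2 ca cc cb DG DR L)) none
        (fSt (nxt L) (run H2 ca cc cb DG DR deg n)) := rfl
  rw [this, h1, h2]
  cases (chkS (gen H2 deg s) s).and (chkL H2 ca cc cb DG DR (gen H2 deg s)) <;> rfl

/-- the error constant -/
noncomputable def cE : ℝ := 2.1 / 10 ^ 20

lemma cE_pos : 0 < cE := by unfold cE; norm_num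

/-- the numerical integration is sound -/
theorem run_sound {Q : PH} (hQ : PHok Q) {DG DR deg : ℕ} (hDG : (DG : ℝ) ≤ 2 ^ 384 / 10 ^ 26)
    (hDR : (DR : ℝ) ≤ 17 * 2 ^ 384 / 10 ^ 22) {m : Fin 3 → ℝ} (hm : NearM (1 / 10 ^ 24) m)
    (n : ℕ) (s s' : St) (h : run ((Q.H ^ 2 : ℕ) : ℤ) Q.ca Q.cc Q.cb DG DR deg n s = some s')
    (y : ℝ → E) (t0 e : ℝ) (he0 : 0 ≤ e)
    (hy : ∀ t, t0 ≤ t → HasDerivAt y (fld Q.P m (y t)) t) (he : Q.gr ^ n * (e + cE) ≤ 3 / 10 ^ 4)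
    (h0 : dist (y t0) (stE Q s) ≤ e) :
    (∀ t, t0 ≤ t → t ≤ t0 + n / Q.H → Far Q.P 0 (y t) ∨ t = t0) ∧
      dist (y (t0 + n / Q.H)) (stE Q s') ≤ Q.gr ^ n * (e + cE) := by
  have hH0 : (0 : ℝ) < Q.H := by exact_mod_cast hQ.H0
  have hXN : ∀ D : ℕ, (D : ℝ) ≤ 17 * 2 ^ 384 → 2 * D < XN := by
    intro D hD
    have h1 : D ≤ 17 * 2 ^ 384 := by exact_mod_cast hD
    have h2 : 2 * (17 * 2 ^ 384) ≤ 2 ^ 430 * 2 := by norm_num
    have := two_pow_lt_XN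
    omega
  have hG : 2 * DG < XN := hXN DG (hDG.trans (by
    rw [div_le_iff₀ (by positivity)]; norm_num))
  have hR : 2 * DR < XN := hXN DR (hDR.trans (by
    rw [div_le_iff₀ (by positivity)]; norm_num))
  induction n generalizing s t0 e with
  | zero =>
    have hs : s = s' := by
      have : run ((Q.H ^ 2 : ℕ) : ℤ) Q.ca Q.cc Q.cb DG DR deg 0 s = some s := rfl
      rw [this] at h
      exact Option.some.inj h
    subst hs
    refine ⟨fun t h1 h2 => ?_, ?_⟩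
    · right
      simp at h2; linarith
    · have := cE_pos
      simp only [Nat.cast_zero, zero_div, add_zero, pow_zero, one_mul]
      linarith
  | succ n ih =>
    rw [run_succ] at h
    set L := gen ((Q.H ^ 2 : ℕ) : ℤ) deg s with hL
    cases hc : (chkS L s).and (chkL ((Q.H ^ 2 : ℕ) : ℤ) Q.ca Q.cc Q.cb DG DR L) with
    | false => rw [hc] at h; simp at h
    | true =>
      rw [hc] at h
      simp only [cond_true] at h
      rw [Bool.and_eq_true] at hc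
      have hgood := chkL_sound hQ.H2 hQ.ca hQ.cc hQ.cb hG hR hc.2
      have hm6 : NearM (1 / 10 ^ 6) m := hm.mono (by norm_num)
      have hdef : ∀ t ∈ Icc (0 : ℝ) (1 / Q.H), dist (trj' Q L t) (fld Q.P m (trj Q L t)) ≤ 2.1 / 10 ^ 20 ∧
          Far Q.P (7 / 10 ^ 4) (trj Q L t) := fun t ht => trj_defect hQ hgood hDG hDR hm ht.1 ht.2
      have hstep : ∀ t ∈ Icc (0 : ℝ) (1 / Q.H), dist (y (t0 + t)) (trj Q L t) ≤ Q.gr * (e + cE) - cE := by
        intro t ht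
        have h1 := gron hQ.lip hm6 (y := y) (z := trj Q L) (z' := trj' Q L) (t0 := t0) (h := 1 / Q.H) (e := e)
          (ε := 2.1 / 10 ^ 20) (fun s hs => hy s hs.1) (fun s _ => hasDerivAt_trj Q L s)
          (fun s hs => (hdef s hs).1) (by rw [trj_zero Q hc.1]; exact h0) ht
        have h2 : Real.exp (Q.P.sg * t) ≤ Q.gr := by
          refine (Real.exp_le_exp.2 ?_).trans hQ.exp
          rw [div_eq_mul_one_div]
          exact mul_le_mul_of_nonneg_left ht.2 Q.P.sg0.le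
        have h3 := cE_pos
        have h4 : 2.1 / 10 ^ 20 / Q.P.sg ≤ cE := by
          unfold cE
          exact div_le_self (by norm_num) hQ.sg1
        have h4' : 0 ≤ 2.1 / 10 ^ 20 / Q.P.sg := div_nonneg (by norm_num) Q.P.sg0.le
        have h5 : 1 ≤ Real.exp (Q.P.sg * t) := Real.one_le_exp (mul_nonneg Q.P.sg0.le ht.1)
        have h6 : (e + 2.1 / 10 ^ 20 / Q.P.sg) * Real.exp (Q.P.sg * t) - 2.1 / 10 ^ 20 / Q.P.sg ≤
            (e + cE) * Real.exp (Q.P.sg * t) - cE := by nlinarith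
        have h7 : (e + cE) * Real.exp (Q.P.sg * t) ≤ Q.gr * (e + cE) := by
          rw [mul_comm]; gcongr
        linarith
      have hce := cE_pos
      have hg1 := hQ.gr1
      have he1 : 0 ≤ Q.gr * (e + cE) - cE := by
        have : 0 ≤ e + cE := by linarith
        nlinarith
      have hpow : Q.gr ^ (n + 1) = Q.gr ^ n * Q.gr := pow_succ _ _
      have hone : (1 : ℝ) ≤ Q.gr ^ n := one_le_pow₀ hg1
      have hgp : 0 < Q.gr := by linarith
      have hb : Q.gr * (e + cE) ≤ 3 / 10 ^ 4 := by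
        calc Q.gr * (e + cE) ≤ Q.gr ^ n * (Q.gr * (e + cE)) :=
              le_mul_of_one_le_left (by positivity) hone
          _ = Q.gr ^ (n + 1) * (e + cE) := by rw [hpow]; ring
          _ ≤ _ := he
      have hnext := ih (nxt L) h (t0 + 1 / Q.H) (Q.gr * (e + cE) - cE) he1
        (fun t ht => hy t (by have : 0 < 1 / (Q.H : ℝ) := by positivity
                              linarith)) (by
          have : Q.gr * (e + cE) - cE + cE = Q.gr * (e + cE) := by ring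
          rw [this, ← mul_assoc, ← hpow]; exact he) (by
          rw [← trj_end hQ]; exact hstep (1 / Q.H) ⟨by positivity, le_rfl⟩)
      have near : ∀ t, t0 ≤ t → t ≤ t0 + 1 / Q.H → Far Q.P 0 (y t) := by
        intro t h1 h3
        have h4 : t - t0 ∈ Icc (0 : ℝ) (1 / Q.H) := ⟨by linarith, by linarith⟩
        have h5 := hstep (t - t0) h4
        rw [add_sub_cancel] at h5
        have h6 := (hdef (t - t0) h4).2.of_dist h5
        have h7 : 0 ≤ 7 / 10 ^ 4 - 2 * (Q.gr * (e + cE) - cE) := by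
          norm_num at hb ⊢; linarith
        obtain ⟨f1, f2, f3⟩ := h6
        exact ⟨by linarith, by linarith, by linarith⟩
      refine ⟨fun t h1 h2 => ?_, ?_⟩
      · rcases le_or_gt t (t0 + 1 / Q.H) with h3 | h3
        · exact Or.inl (near t h1 h3)
        · rcases hnext.1 t h3.le (by
            push_cast at h2
            have : t0 + 1 / (Q.H : ℝ) + n / Q.H = t0 + (n + 1) / Q.H := by ring
            rw [this]; exact h2) with h4 | h4
          · exact Or.inl h4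
          · exact absurd h4 h3.ne'
      · have h3 := hnext.2
        have e3 : t0 + 1 / Q.H + (n : ℝ) / Q.H = t0 + ((n + 1 : ℕ) : ℝ) / Q.H := by push_cast; ring
        rw [e3] at h3
        have : Q.gr * (e + cE) - cE + cE = Q.gr * (e + cE) := by ring
        rw [this] at h3
        calc _ ≤ _ := h3
          _ = _ := by rw [hpow]; ring

end Pool.Agent.T9h50.TL
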