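import Pool.Agent.T9h50.TL.Spc3

/-!
# The splitting of the state space: the linear maps in the new coordinates
-/

set_option autoImplicit false

open scoped NNReal ComplexConjugate Topology
open Complex Set Filter

namespace Pool.Agent.T9h50.TL

open Pool.Agent.T9h50.TB (E kd)

/-- the linear field on the complement of the unstable directions -/
noncomputable def ML : FF →ₗ[ℝ] FF where
  toFun β := (-(lam * β.1),
    -((I * (s3 : ℂ)) * β.2.1) + ⟨s3 * (-(24 / 170 * tY β.1)), 36 / 170 * tX β.1⟩,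
    ⟨36 / 170 * tY β.1, -(3 / 10 * β.2.2.re) - 72 / 1700 * tX β.1⟩)
  map_add' x y := by
    obtain ⟨k1, k2, -, -⟩ := t_add x.1 y.1
    refine Prod.ext ?_ (Prod.ext ?_ ?_)
    · show -(lam * (x.1 + y.1)) = -(lam * x.1) + -(lam * y.1)
      ring
    · show -((I * (s3 : ℂ)) * (x.2.1 + y.2.1)) + ⟨s3 * (-(24 / 170 * tY (x.1 + y.1))), 36 / 170 * tX (x.1 + y.1)⟩ =
        (-((I * (s3 : ℂ)) * x.2.1) + ⟨s3 * (-(24 / 170 * tY x.1)), 36 / 170 * tX x.1⟩) +
        (-((I * (s3 : ℂ)) * y.2.1) + ⟨s3 * (-(24 / 170 * tY y.1)), 36 / 170 * tX y.1⟩)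
      rw [k1, k2]
      apply Complex.ext
      · simp only [Complex.add_re, Complex.neg_re, Complex.mul_re, Complex.add_im]; ring
      · simp only [Complex.add_re, Complex.neg_im, Complex.mul_im, Complex.add_im]; ring
    · show (⟨36 / 170 * tY (x.1 + y.1), -(3 / 10 * (x.2.2 + y.2.2).re) - 72 / 1700 * tX (x.1 + y.1)⟩ : ℂ) =
        ⟨36 / 170 * tY x.1, -(3 / 10 * x.2.2.re) - 72 / 1700 * tX x.1⟩ +
        ⟨36 / 170 * tY y.1, -(3 / 10 * y.2.2.re) - 72 / 1700 * tX y.1⟩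
      rw [k1, k2]
      apply Complex.ext
      · simp only [Complex.add_re]; ring
      · simp only [Complex.add_re, Complex.add_im]; ring
  map_smul' c x := by
    obtain ⟨k1, k2, -, -⟩ := t_smul c x.1
    refine Prod.ext ?_ (Prod.ext ?_ ?_)
    · show -(lam * (c • x.1)) = c • -(lam * x.1)
      rw [smul_neg, Complex.real_smul, Complex.real_smul]; ring
    · show -((I * (s3 : ℂ)) * (c • x.2.1)) + ⟨s3 * (-(24 / 170 * tY (c • x.1))), 36 / 170 * tX (c • x.1)⟩ =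
        c • (-((I * (s3 : ℂ)) * x.2.1) + ⟨s3 * (-(24 / 170 * tY x.1)), 36 / 170 * tX x.1⟩)
      rw [k1, k2]
      apply Complex.ext
      · simp only [Complex.add_re, Complex.neg_re, Complex.mul_re, Complex.smul_re, Complex.smul_im,
          smul_eq_mul]; ring
      · simp only [Complex.neg_im, Complex.mul_im, Complex.add_im, Complex.smul_re, Complex.smul_im,
          smul_eq_mul]; ring
    · show (⟨36 / 170 * tY (c • x.1), -(3 / 10 * (c • x.2.2).re) - 72 / 1700 * tX (c • x.1)⟩ : ℂ) =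
        c • (⟨36 / 170 * tY x.1, -(3 / 10 * x.2.2.re) - 72 / 1700 * tX x.1⟩ : ℂ)
      rw [k1, k2]
      apply Complex.ext
      · simp only [Complex.smul_re, smul_eq_mul]; ring
      · simp only [Complex.smul_re, Complex.smul_im, smul_eq_mul]; ring

/-- the coupling of the unstable directions to the others -/
noncomputable def LL : ℂ →ₗ[ℝ] FF where
  toFun z := (0, ⟨s3 * (24 / 170 * tY z), 36 / 170 * tX z⟩, ⟨-(36 / 170 * tY z), -(72 / 1700 * tX z)⟩)
  map_add' x y := by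
    obtain ⟨k1, k2, -, -⟩ := t_add x y
    refine Prod.ext ?_ (Prod.ext ?_ ?_)
    · show (0 : ℂ) = 0 + 0
      ring
    · show (⟨s3 * (24 / 170 * tY (x + y)), 36 / 170 * tX (x + y)⟩ : ℂ) =
        ⟨s3 * (24 / 170 * tY x), 36 / 170 * tX x⟩ + ⟨s3 * (24 / 170 * tY y), 36 / 170 * tX y⟩
      rw [k1, k2]
      apply Complex.ext
      · simp only [Complex.add_re]; ring
      · simp only [Complex.add_im]; ring
    · show (⟨-(36 / 170 * tY (x + y)), -(72 / 1700 * tX (x + y))⟩ : ℂ) =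
        ⟨-(36 / 170 * tY x), -(72 / 1700 * tX x)⟩ + ⟨-(36 / 170 * tY y), -(72 / 1700 * tX y)⟩
      rw [k1, k2]
      apply Complex.ext
      · simp only [Complex.add_re]; ring
      · simp only [Complex.add_im]; ring
  map_smul' c x := by
    obtain ⟨k1, k2, -, -⟩ := t_smul c x
    refine Prod.ext ?_ (Prod.ext ?_ ?_)
    · show (0 : ℂ) = c • (0 : ℂ)
      simp
    · show (⟨s3 * (24 / 170 * tY (c • x)), 36 / 170 * tX (c • x)⟩ : ℂ) =
        c • (⟨s3 * (24 / 170 * tY x), 36 / 170 * tX x⟩ : ℂ)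
      rw [k1, k2]
      apply Complex.ext
      · simp only [Complex.smul_re, smul_eq_mul]; ring
      · simp only [Complex.smul_im, smul_eq_mul]; ring
    · show (⟨-(36 / 170 * tY (c • x)), -(72 / 1700 * tX (c • x))⟩ : ℂ) =
        c • (⟨-(36 / 170 * tY x), -(72 / 1700 * tX x)⟩ : ℂ)
      rw [k1, k2]
      apply Complex.ext
      · simp only [Complex.smul_re, smul_eq_mul]; ring
      · simp only [Complex.smul_im, smul_eq_mul]; ring

noncomputable def MC : FF →L[ℝ] FF := LinearMap.toContinuousLinearMap ML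
noncomputable def LC : ℂ →L[ℝ] FF := LinearMap.toContinuousLinearMap LL

lemma MC_apply (β : FF) : MC β = (-(lam * β.1),
    -((I * (s3 : ℂ)) * β.2.1) + ⟨s3 * (-(24 / 170 * tY β.1)), 36 / 170 * tX β.1⟩,
    ⟨36 / 170 * tY β.1, -(3 / 10 * β.2.2.re) - 72 / 1700 * tX β.1⟩) := rfl

lemma LC_apply (z : ℂ) : LC z = (0, ⟨s3 * (24 / 170 * tY z), 36 / 170 * tX z⟩,
    ⟨-(36 / 170 * tY z), -(72 / 1700 * tX z)⟩) := rfl

/-- the linearised field in the new coordinates -/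
lemma Sm_G (h : E) : Sm (Gf h) = lin lam MC LC (Sm h) := by
  obtain ⟨g1, g2, g3, g4, g5, g6, g7, g8⟩ := g_G h
  have t := t_inv (gX h) (gY h) (gP h) (gQ h)
  have e1 : tX (lU h) + tX (lS h) = gX h := t.1
  have e2 : tY (lU h) - tY (lS h) = gY h := t.2.1
  rw [Sm_apply, Sm_apply, lin, MC_apply, LC_apply]
  refine Prod.ext ?_ (Prod.ext ?_ (Prod.ext ?_ ?_))
  · exact lU_G h
  · show lS (Gf h) = -(lam * lS h) + 0
    rw [lS_G, add_zero]
  · show l2 (Gf h) = (-((I * (s3 : ℂ)) * l2 h) + ⟨s3 * (-(24 / 170 * tY (lS h))), 36 / 170 * tX (lS h)⟩) +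
      ⟨s3 * (24 / 170 * tY (lU h)), 36 / 170 * tX (lU h)⟩
    apply Complex.ext
    · rw [Complex.add_re, Complex.add_re, Complex.neg_re, mulI_re]
      simp only [l2, g5, g8]
      rw [show tY (lU h) = gY h + tY (lS h) by linarith]
      ring
    · rw [Complex.add_im, Complex.add_im, Complex.neg_im, mulI_im]
      simp only [l2, g6, g7]
      rw [show tX (lU h) = gX h - tX (lS h) by linarith]
      ring_nf
      simp only [s3_2]
      ring
  · show l3 (Gf h) = (⟨36 / 170 * tY (lS h), -(3 / 10 * (l3 h).re) - 72 / 1700 * tX (lS h)⟩ : ℂ) +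
      ⟨-(36 / 170 * tY (lU h)), -(72 / 1700 * tX (lU h))⟩
    apply Complex.ext
    · rw [Complex.add_re]
      simp only [l3, g5, g8]
      rw [show tY (lU h) = gY h + tY (lS h) by linarith]
      ring
    · rw [Complex.add_im]
      simp only [l3, g6, g7]
      rw [show tX (lU h) = gX h - tX (lS h) by linarith]
      ring

lemma norm_mk_le2 (a b : ℝ) : ‖(⟨a, b⟩ : ℂ)‖ ≤ |a| + |b| := Complex.norm_le_abs_re_add_abs_im _

lemma LC_bound (z : ℂ) : ‖LC z‖ ≤ 54 / 1000 * ‖z‖ := by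
  obtain ⟨k1, k2, -, -⟩ := t_bound z
  have hs := s3_pos
  have hs2 : s3 ≤ 1.7321 := s3_lt.le.trans (by norm_num)
  have hz := norm_nonneg z
  rw [LC_apply, Prod.norm_def, Prod.norm_def]
  refine max_le ?_ (max_le ?_ ?_)
  · rw [norm_zero]; positivity
  · refine (norm_mk_le2 _ _).trans ?_
    rw [abs_mul, abs_mul, abs_mul, abs_of_pos hs, abs_of_pos (show (0 : ℝ) < 24 / 170 by norm_num),
      abs_of_pos (show (0 : ℝ) < 36 / 170 by norm_num)]
    calc s3 * (24 / 170 * |tY z|) + 36 / 170 * |tX z| ≤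
        1.7321 * (24 / 170 * (16 / 100 * ‖z‖)) + 36 / 170 * (7 / 100 * ‖z‖) := by gcongr
      _ ≤ _ := by norm_num; linarith
  · refine (norm_mk_le2 _ _).trans ?_
    rw [abs_neg, abs_neg, abs_mul, abs_mul, abs_of_pos (show (0 : ℝ) < 36 / 170 by norm_num),
      abs_of_pos (show (0 : ℝ) < 72 / 1700 by norm_num)]
    linarith

lemma MC_bound (β : FF) : ‖(100 : ℝ) • β + MC β‖ ≤ 100.4 * ‖β‖ := by
  obtain ⟨k1, k2, -, -⟩ := t_bound β.1
  have hs := s3_pos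
  have hs2 : s3 ≤ 1.7321 := s3_lt.le.trans (by norm_num)
  have hb := norm_nonneg β
  have b1 : ‖β.1‖ ≤ ‖β‖ := norm_fst_le β
  have b2 : ‖β.2.1‖ ≤ ‖β‖ := (norm_fst_le β.2).trans (norm_snd_le β)
  have b3 : ‖β.2.2‖ ≤ ‖β‖ := (norm_snd_le β.2).trans (norm_snd_le β)
  have k1' : |tX β.1| ≤ 7 / 100 * ‖β‖ := k1.trans (by linarith)
  have k2' : |tY β.1| ≤ 16 / 100 * ‖β‖ := k2.trans (by linarith)
  have nk : ∀ {x : ℂ} {c : ℝ}, 0 ≤ c → x.re * x.re + x.im * x.im ≤ c * c → ‖x‖ ≤ c := by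
    intro x c hc h
    have : ‖x‖ ^ 2 ≤ c ^ 2 := by
      rw [← Complex.normSq_eq_norm_sq, Complex.normSq_apply, sq]; exact h
    exact abs_le_of_sq_le_sq' this hc |>.2
  rw [MC_apply, Prod.norm_def, Prod.norm_def]
  refine max_le ?_ (max_le ?_ ?_)
  · show ‖(100 : ℝ) • β.1 + -(lam * β.1)‖ ≤ _
    have e : (100 : ℝ) • β.1 + -(lam * β.1) = ((100 : ℂ) - lam) * β.1 := by
      rw [Complex.real_smul]; push_cast; ring
    rw [e, norm_mul]
    have h1 : ‖(100 : ℂ) - lam‖ ≤ 100.4 := by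
      apply nk (by norm_num)
      have e1 : ((100 : ℂ) - lam).re = 100 - aL := rfl
      have e2 : ((100 : ℂ) - lam).im = 0 - bL := rfl
      rw [e1, e2]
      nlinarith [aL_gt, aL_lt, aL_sq, bL_sq]
    gcongr
  · show ‖(100 : ℝ) • β.2.1 + (-((I * (s3 : ℂ)) * β.2.1) +
      ⟨s3 * (-(24 / 170 * tY β.1)), 36 / 170 * tX β.1⟩)‖ ≤ _
    have e : (100 : ℝ) • β.2.1 + (-((I * (s3 : ℂ)) * β.2.1) +
      ⟨s3 * (-(24 / 170 * tY β.1)), 36 / 170 * tX β.1⟩) = ((100 : ℂ) - I * (s3 : ℂ)) * β.2.1 +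
      ⟨s3 * (-(24 / 170 * tY β.1)), 36 / 170 * tX β.1⟩ := by
      rw [Complex.real_smul]; push_cast; ring
    rw [e]
    refine (norm_add_le _ _).trans ?_
    rw [norm_mul]
    have h1 : ‖(100 : ℂ) - I * (s3 : ℂ)‖ ≤ 100.02 := by
      apply nk (by norm_num)
      have e1 : ((100 : ℂ) - I * (s3 : ℂ)).re = 100 := by simp
      have e2 : ((100 : ℂ) - I * (s3 : ℂ)).im = -s3 := by simp
      rw [e1, e2]
      nlinarith [s3_sq]
    have h2 : ‖(⟨s3 * (-(24 / 170 * tY β.1)), 36 / 170 * tX β.1⟩ : ℂ)‖ ≤ 54 / 1000 * ‖β‖ := by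
      refine (norm_mk_le2 _ _).trans ?_
      rw [abs_mul, abs_neg, abs_mul, abs_mul, abs_of_pos hs, abs_of_pos (show (0 : ℝ) < 24 / 170 by norm_num),
        abs_of_pos (show (0 : ℝ) < 36 / 170 by norm_num)]
      calc s3 * (24 / 170 * |tY β.1|) + 36 / 170 * |tX β.1| ≤
          1.7321 * (24 / 170 * (16 / 100 * ‖β‖)) + 36 / 170 * (7 / 100 * ‖β‖) := by gcongr
        _ ≤ _ := by norm_num; linarith
    calc ‖(100 : ℂ) - I * (s3 : ℂ)‖ * ‖β.2.1‖ + ‖(⟨s3 * (-(24 / 170 * tY β.1)), 36 / 170 * tX β.1⟩ : ℂ)‖ ≤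
        100.02 * ‖β‖ + 54 / 1000 * ‖β‖ := by gcongr
      _ ≤ _ := by norm_num; linarith
  · show ‖(100 : ℝ) • β.2.2 + ⟨36 / 170 * tY β.1, -(3 / 10 * β.2.2.re) - 72 / 1700 * tX β.1⟩‖ ≤ _
    have e : (100 : ℝ) • β.2.2 + ⟨36 / 170 * tY β.1, -(3 / 10 * β.2.2.re) - 72 / 1700 * tX β.1⟩ =
      (100 : ℝ) • β.2.2 + ⟨36 / 170 * tY β.1, -(3 / 10 * β.2.2.re + 72 / 1700 * tX β.1)⟩ := by
      congr 2; ring
    rw [e]
    refine (norm_add_le _ _).trans ?_
    have h2 : ‖(⟨36 / 170 * tY β.1, -(3 / 10 * β.2.2.re + 72 / 1700 * tX β.1)⟩ : ℂ)‖ ≤ 34 / 100 * ‖β‖ := by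
      refine (norm_mk_le2 _ _).trans ?_
      have h3 : |β.2.2.re| ≤ ‖β‖ := (Complex.abs_re_le_norm _).trans b3
      have h4 : |-(3 / 10 * β.2.2.re + 72 / 1700 * tX β.1)| ≤ 3 / 10 * |β.2.2.re| + 72 / 1700 * |tX β.1| := by
        rw [abs_neg]
        refine (abs_add_le _ _).trans ?_
        rw [abs_mul, abs_mul, abs_of_pos (show (0 : ℝ) < 3 / 10 by norm_num),
          abs_of_pos (show (0 : ℝ) < 72 / 1700 by norm_num)]
      rw [abs_mul, abs_of_pos (show (0 : ℝ) < 36 / 170 by norm_num)]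
      linarith
    rw [norm_smul]
    have h100 : ‖(100 : ℝ)‖ = 100 := by norm_num
    rw [h100]
    have h5 : 100 * ‖β.2.2‖ ≤ 100 * ‖β‖ := by linarith
    have h6 : (100.4 : ℝ) * ‖β‖ = 100 * ‖β‖ + 4 / 10 * ‖β‖ := by ring
    rw [h6]
    linarith

lemma spl {ν : ℝ} (h0 : 0 ≤ ν) (h1 : 3 / 5 ≤ ν) (h2 : ν ≤ 19 / 20) : Spl lam MC LC ν (7 / 50) := by
  refine ⟨by norm_num, h0, ⟨100, by linarith, ?_, fun b => ?_⟩, fun z => ?_⟩
  · have nk : ∀ {x : ℂ} {c : ℝ}, 0 ≤ c → x.re * x.re + x.im * x.im ≤ c * c → ‖x‖ ≤ c := by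
      intro x c hc h
      have : ‖x‖ ^ 2 ≤ c ^ 2 := by
        rw [← Complex.normSq_eq_norm_sq, Complex.normSq_apply, sq]; exact h
      exact abs_le_of_sq_le_sq' this hc |>.2
    have : ‖((100 : ℝ) : ℂ) - lam‖ ≤ 98.91 := by
      apply nk (by norm_num)
      have e1 : (((100 : ℝ) : ℂ) - lam).re = 100 - aL := rfl
      have e2 : (((100 : ℝ) : ℂ) - lam).im = 0 - bL := rfl
      rw [e1, e2]
      nlinarith [aL_gt, aL_lt, aL_sq, bL_sq]
    linarith
  · refine (MC_bound b).trans ?_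
    have := norm_nonneg b
    have h3 : (100.4 : ℝ) ≤ 100 + ν - 7 / 50 := by norm_num; linarith
    gcongr
  · refine (LC_bound z).trans ?_
    exact mul_le_mul_of_nonneg_right (by norm_num) (norm_nonneg z)

end Pool.Agent.T9h50.TL
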