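import Pool.Agent.T9h50.TL.Spc4

/-!
# Bounds for the splitting
-/

set_option autoImplicit false

open scoped NNReal ComplexConjugate Topology
open Complex Set Filter

namespace Pool.Agent.T9h50.TL

open Pool.Agent.T9h50.TB (E kd kd_eq ip abs_ip_le ip_self hasDerivAt_inv_norm)

lemma abs_f_le {a b : ℂ} {r : ℝ} (ha : ‖a‖ ≤ r) (hb : ‖b‖ ≤ r) :
    |fX a b| ≤ 1.37 * r ∧ |fY a b| ≤ 2.37 * r ∧ |fx a b| ≤ 1.37 * r ∧ |fy a b| ≤ 2.37 * r := by
  have hs := s3_pos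
  have hs2 : s3 ≤ 1.7321 := s3_lt.le
  have hr : 0 ≤ r := (norm_nonneg _).trans ha
  have a1 := (Complex.abs_re_le_norm a).trans ha
  have a2 := (Complex.abs_im_le_norm a).trans ha
  have b1 := (Complex.abs_re_le_norm b).trans hb
  have b2 := (Complex.abs_im_le_norm b).trans hb
  have k1 : |s3 / 3 * (a.im + b.im / 2)| ≤ 87 / 100 * r := by
    rw [abs_mul, abs_of_pos (by positivity)]
    have : |a.im + b.im / 2| ≤ 3 / 2 * r := by
      rw [abs_le] at a2 b2 ⊢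
      constructor <;> linarith
    calc s3 / 3 * |a.im + b.im / 2| ≤ 1.7321 / 3 * (3 / 2 * r) := by gcongr
      _ ≤ _ := by norm_num; linarith
  have k2 : |s3 / 2 * b.im| ≤ 87 / 100 * r := by
    rw [abs_mul, abs_of_pos (by positivity)]
    calc s3 / 2 * |b.im| ≤ 1.7321 / 2 * r := by gcongr
      _ ≤ _ := by norm_num; linarith
  rw [abs_le] at a1 b1 k1 k2
  obtain ⟨a11, a12⟩ := a1
  obtain ⟨b11, b12⟩ := b1
  obtain ⟨k11, k12⟩ := k1
  obtain ⟨k21, k22⟩ := k2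
  refine ⟨?_, ?_, ?_, ?_⟩
  · rw [fX, abs_le]; constructor <;> norm_num <;> linarith
  · rw [fY, abs_le]; constructor <;> norm_num <;> linarith
  · rw [fx, abs_le]; constructor <;> norm_num <;> linarith
  · rw [fy, abs_le]; constructor <;> norm_num <;> linarith

lemma Sm_bound (h : E) : ‖Sm h‖ ≤ 80 * ‖h‖ := by
  obtain ⟨n1, n2, n3, n4⟩ := norm_c
  have hs := s3_pos
  have hs2 : s3 ≤ 1.7321 := s3_lt.le
  have hh := norm_nonneg h
  have p1 : ‖h.1‖ ≤ ‖h‖ := norm_fst_le h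
  have p2 : ‖h.2.1‖ ≤ ‖h‖ := (norm_fst_le h.2).trans (norm_snd_le h)
  have p3 : ‖h.2.2.1‖ ≤ ‖h‖ := (norm_fst_le h.2.2).trans ((norm_snd_le h.2).trans (norm_snd_le h))
  have p4 : ‖h.2.2.2‖ ≤ ‖h‖ := (norm_snd_le h.2.2).trans ((norm_snd_le h.2).trans (norm_snd_le h))
  obtain ⟨f1, f2, f3, f4⟩ := abs_f_le p1 p2
  obtain ⟨f5, f6, f7, f8⟩ := abs_f_le p3 p4
  have g5 : |gP h| ≤ 4.8 * ‖h‖ := by
    rw [gP, abs_mul, abs_of_pos (by norm_num)]; norm_num at f5 ⊢; linarith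
  have g6 : |gQ h| ≤ 8.3 * ‖h‖ := by
    rw [gQ, abs_mul, abs_of_pos (by norm_num)]; norm_num at f6 ⊢; linarith
  have g7 : |gr h| ≤ 4.8 * ‖h‖ := by
    rw [gr, abs_mul, abs_of_pos (by norm_num)]; norm_num at f7 ⊢; linarith
  have g8 : |gs h| ≤ 8.3 * ‖h‖ := by
    rw [gs, abs_mul, abs_of_pos (by norm_num)]; norm_num at f8 ⊢; linarith
  have hx : |gX h| ≤ 1.37 * ‖h‖ := f1
  have hy : |gY h| ≤ 2.37 * ‖h‖ := f2
  have hx' : |gx h| ≤ 1.37 * ‖h‖ := f3
  have hy' : |gy h| ≤ 2.37 * ‖h‖ := f4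
  have key : ∀ {c : ℂ} {x k r : ℝ}, ‖c‖ ≤ k → |x| ≤ r → ‖c * (x : ℂ)‖ ≤ k * r := by
    intro c x k r hc hx
    have := (norm_nonneg _).trans hc
    rw [norm_mul, Complex.norm_real, Real.norm_eq_abs]
    gcongr
  have m1 := key n1 hx
  have m2 := key n2 hy
  have m3 := key n3 g5
  have m4 := key n4 g6
  have tot : 8.5 * (1.37 * ‖h‖) + 3.8 * (2.37 * ‖h‖) + 5.35 * (4.8 * ‖h‖) + 4 * (8.3 * ‖h‖) ≤ 80 * ‖h‖ := by
    norm_num; linarith
  rw [Sm_apply, Prod.norm_def, Prod.norm_def, Prod.norm_def]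
  refine max_le ?_ (max_le ?_ (max_le ?_ ?_))
  · refine (norm_add_le _ _).trans ((add_le_add ((norm_add_le _ _).trans (add_le_add
      ((norm_add_le _ _).trans (add_le_add m1 m2)) m3)) m4).trans tot)
  · refine (norm_add_le _ _).trans ((add_le_add ((norm_sub_le _ _).trans (add_le_add
      ((norm_sub_le _ _).trans (add_le_add m1 m2)) m3)) m4).trans tot)
  · refine (norm_mk_le2 _ _).trans ?_
    rw [abs_div, abs_mul, abs_of_pos hs, abs_div, abs_of_pos (show (0 : ℝ) < 10 by norm_num)]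
    have e1 : |-gx h - 2 / 3 * gs h| ≤ 7 * ‖h‖ := by
      rw [abs_le] at hx' g8 ⊢
      norm_num at hx' g8 ⊢
      constructor <;> linarith
    have e2 : |gr h + gy h| ≤ 8 * ‖h‖ := by
      rw [abs_le] at g7 hy' ⊢
      norm_num at g7 hy' ⊢
      constructor <;> linarith
    calc s3 * |-gx h - 2 / 3 * gs h| / 10 + |gr h + gy h| / 10 ≤
        1.7321 * (7 * ‖h‖) / 10 + 8 * ‖h‖ / 10 := by gcongr
      _ ≤ _ := by norm_num; linarith
  · refine (norm_mk_le2 _ _).trans ?_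
    rw [abs_div, abs_div, abs_of_pos (show (0 : ℝ) < 10 by norm_num),
      abs_of_pos (show (0 : ℝ) < 100 by norm_num)]
    have e1 : |gs h + 3 * gx h| ≤ 13 * ‖h‖ := by
      rw [abs_le] at hx' g8 ⊢
      norm_num at hx' g8 ⊢
      constructor <;> linarith
    have e2 : |-gy h - 2 * gr h| ≤ 13 * ‖h‖ := by
      rw [abs_le] at g7 hy' ⊢
      norm_num at g7 hy' ⊢
      constructor <;> linarith
    linarith

lemma SiF_bound (w : ℂ × FF) : ‖SiF w‖ ≤ 113 * ‖w‖ := by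
  have hs := s3_pos
  have hs2 : s3 ≤ 1.7321 := s3_lt.le
  have hw := norm_nonneg w
  obtain ⟨x1, x2, x3, x4⟩ := t_bound w.1
  obtain ⟨y1, y2, y3, y4⟩ := t_bound w.2.1
  have p1 : ‖w.1‖ ≤ ‖w‖ := norm_fst_le w
  have p2 : ‖w.2.1‖ ≤ ‖w‖ := (norm_fst_le w.2).trans (norm_snd_le w)
  have p3 : ‖w.2.2.1‖ ≤ ‖w‖ := (norm_fst_le w.2.2).trans ((norm_snd_le w.2).trans (norm_snd_le w))
  have p4 : ‖w.2.2.2‖ ≤ ‖w‖ := (norm_snd_le w.2.2).trans ((norm_snd_le w.2).trans (norm_snd_le w))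
  set N := ‖w‖ with hN
  rw [abs_le] at x1 x2 x3 x4 y1 y2 y3 y4
  have r1 := (Complex.abs_re_le_norm w.2.2.1).trans p3
  have r2 := (Complex.abs_im_le_norm w.2.2.1).trans p3
  have r3 := (Complex.abs_re_le_norm w.2.2.2).trans p4
  have r4 := (Complex.abs_im_le_norm w.2.2.2).trans p4
  have q1 : |s3 * w.2.2.1.re| ≤ 1.7321 * N := by
    rw [abs_mul, abs_of_pos hs]; gcongr
  rw [abs_le] at r1 r2 r3 r4 q1
  obtain ⟨x11, x12⟩ := x1
  obtain ⟨x21, x22⟩ := x2
  obtain ⟨x31, x32⟩ := x3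
  obtain ⟨x41, x42⟩ := x4
  obtain ⟨y11, y12⟩ := y1
  obtain ⟨y21, y22⟩ := y2
  obtain ⟨y31, y32⟩ := y3
  obtain ⟨y41, y42⟩ := y4
  obtain ⟨r11, r12⟩ := r1
  obtain ⟨r21, r22⟩ := r2
  obtain ⟨r31, r32⟩ := r3
  obtain ⟨r41, r42⟩ := r4
  obtain ⟨q11, q12⟩ := q1
  norm_num at q11 q12
  have eX : |uX w| ≤ 14 / 100 * N := by rw [uX, abs_le]; constructor <;> linarith
  have eY : |uY w| ≤ 32 / 100 * N := by rw [uY, abs_le]; constructor <;> linarith
  have eP : |uP w| ≤ 22 / 100 * N := by rw [uP, abs_le]; constructor <;> linarith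
  have eQ : |uQ w| ≤ 30 / 100 * N := by rw [uQ, abs_le]; constructor <;> linarith
  have ex : |ux w| ≤ 125 / 10 * N := by
    have e : ux w = 10 / 3 * (s3 * w.2.2.1.re) + 20 / 3 * w.2.2.2.re := by rw [ux]; ring
    rw [e, abs_le]; constructor <;> linarith
  have es : |us w| ≤ 274 / 10 * N := by
    have e : us w = -(10 * w.2.2.2.re) - 10 * (s3 * w.2.2.1.re) := by rw [us]; ring
    rw [e, abs_le]; constructor <;> linarith
  have ey : |uy w| ≤ 120 * N := by rw [uy, abs_le]; constructor <;> linarith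
  have er : |ur w| ≤ 110 * N := by rw [ur, abs_le]; constructor <;> linarith
  have key : ∀ {X Y x y a b c d : ℝ}, |X| ≤ a → |Y| ≤ b → |x| ≤ c → |y| ≤ d →
      ‖vA X Y x y‖ ≤ (a + b + c + d) / 2 + 1.7321 * ((a + c) / 2 + (b + d) / 6) ∧
      ‖vB X Y x y‖ ≤ (a + c) + 1.7321 * ((b + d) / 3) := by
    intro X Y x y a b c d hX hY hx hy
    rw [abs_le] at hX hY hx hy
    obtain ⟨hX1, hX2⟩ := hX
    obtain ⟨hY1, hY2⟩ := hY
    obtain ⟨hx1, hx2⟩ := hx
    obtain ⟨hy1, hy2⟩ := hy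
    constructor
    · refine (norm_mk_le2 _ _).trans ?_
      rw [abs_mul, abs_of_pos hs]
      have h1 : |(y - Y - X - x) / 2| ≤ (a + b + c + d) / 2 := by
        rw [abs_le]; constructor <;> linarith
      have h2 : |(X - x) / 2 - (Y + y) / 6| ≤ (a + c) / 2 + (b + d) / 6 := by
        rw [abs_le]; constructor <;> linarith
      gcongr
    · refine (norm_mk_le2 _ _).trans ?_
      rw [abs_mul, abs_of_pos hs]
      have h1 : |X + x| ≤ a + c := by
        rw [abs_le]; constructor <;> linarith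
      have h2 : |(Y + y) / 3| ≤ (b + d) / 3 := by
        rw [abs_le]; constructor <;> linarith
      gcongr
  obtain ⟨k1, k2⟩ := key eX eY ex ey
  obtain ⟨k3, k4⟩ := key eP eQ er es
  norm_num at k1 k2 k3 k4
  rw [SiF, Prod.norm_def, Prod.norm_def, Prod.norm_def]
  have h27 : ‖(2 / 7 : ℝ)‖ = 2 / 7 := by norm_num
  refine max_le ?_ (max_le ?_ (max_le ?_ ?_))
  · show ‖vA _ _ _ _‖ ≤ _
    linarith
  · show ‖vB _ _ _ _‖ ≤ _
    linarith
  · show ‖(2 / 7 : ℝ) • vA _ _ _ _‖ ≤ _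
    rw [norm_smul, h27]
    linarith
  · show ‖(2 / 7 : ℝ) • vB _ _ _ _‖ ≤ _
    rw [norm_smul, h27]
    linarith

lemma SiF_sub (w z : ℂ × FF) : SiF w - SiF z = SiF (w - z) := by
  rw [← Si_S (SiF w - SiF z), map_sub, S_Si, S_Si]

lemma continuous_SiF : Continuous SiF := by
  have : LipschitzWith 113 SiF := by
    apply LipschitzWith.of_dist_le_mul
    intro x y
    rw [dist_eq_norm, dist_eq_norm, SiF_sub]
    exact SiF_bound _
  exact this.continuous

lemma SiF_zero : SiF 0 = 0 := by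
  have := SiF_bound 0
  rw [norm_zero, mul_zero] at this
  exact norm_le_zero_iff.1 this

/-- the quadratic error of the linearised kernel -/
lemma kd_quad {z0 z w : ℂ} {ρ : ℝ} (h0 : ‖z0‖ = 1) (hρ : ρ ≤ 1 / 100) (hz : ‖z - z0‖ ≤ ρ)
    (hw : ‖w - z0‖ ≤ ρ) : ‖kd (99 / 100) z - kd (99 / 100) w - lk z0 (z - w)‖ ≤ 28 * ρ * ‖z - w‖ := by
  have hρ0 : 0 ≤ ρ := (norm_nonneg _).trans hz
  set h := z - w with hh
  have hnear : ∀ s ∈ Icc (0 : ℝ) 1, ‖w + s • h - z0‖ ≤ ρ := by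
    intro s hs
    have e : w + s • h - z0 = (1 - s) • (w - z0) + s • (z - z0) := by
      simp only [hh, Complex.real_smul]; push_cast; ring
    rw [e]
    refine (norm_add_le _ _).trans ?_
    rw [norm_smul, norm_smul, Real.norm_of_nonneg (by linarith [hs.2] : 0 ≤ 1 - s),
      Real.norm_of_nonneg hs.1]
    nlinarith [hs.1, hs.2]
  have hnrm : ∀ ζ : ℂ, ‖ζ - z0‖ ≤ ρ → 1 - ρ ≤ ‖ζ‖ ∧ ‖ζ‖ ≤ 1 + ρ := by
    intro ζ hζ
    have h1 := norm_sub_norm_le ζ z0
    have h2 := norm_sub_norm_le z0 ζ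
    rw [norm_sub_rev] at h2
    rw [h0] at h1 h2
    constructor <;> linarith
  set g : ℝ → ℂ := fun s => kd (99 / 100) (w + s • h) with hg
  set g' : ℝ → ℂ := fun s => (3 * (1 / ‖w + s • h‖) ^ 2 * (-(ip (w + s • h) h) / ‖w + s • h‖ ^ 3)) • (w + s • h) +
    ((1 / ‖w + s • h‖) ^ 3) • h with hg'
  have hline : ∀ s : ℝ, HasDerivAt (fun s : ℝ => w + s • h) h s := by
    intro s
    have := ((hasDerivAt_id s).smul_const h).const_add w
    simpa using this
  have hd : ∀ s ∈ Icc (0 : ℝ) 1, HasDerivWithinAt g (g' s) (Icc 0 1) s := by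
    intro s hs
    have hn := (hnrm _ (hnear s hs)).1
    have hpos : 0 < ‖w + s • h‖ := by linarith
    have hne : w + s • h ≠ 0 := norm_pos_iff.1 hpos
    have h1 := (hasDerivAt_inv_norm (hline s) hne)
    have h2 := (h1.fun_pow 3).fun_smul (hline s)
    have h3 : HasDerivAt (fun s : ℝ => (1 / ‖w + s • h‖) ^ 3 • (w + s • h)) (g' s) s := by
      refine h2.congr_deriv ?_
      simp only [hg']
      rw [add_comm]
      norm_num
    refine h3.hasDerivWithinAt.congr ?_ ?_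
    · intro r hr
      have hn2 := (hnrm _ (hnear r hr)).1
      simp only [hg]
      rw [kd_eq (by linarith), one_div, inv_pow]
    · simp only [hg]
      rw [kd_eq (by linarith), one_div, inv_pow]
  have hlin : ∀ s : ℝ, HasDerivWithinAt (fun s : ℝ => s • lk z0 h) (lk z0 h) (Icc 0 1) s := by
    intro s
    have := ((hasDerivAt_id s).smul_const (lk z0 h)).hasDerivWithinAt (s := Icc 0 1)
    simpa using this
  have key := norm_image_sub_le_of_norm_deriv_le_segment_01'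
    (f := fun s : ℝ => g s - s • lk z0 h) (f' := fun s => g' s - lk z0 h) (C := 28 * ρ * ‖h‖)
    (fun s hs => (hd s hs).sub (hlin s)) ?_
  · have e1 : g 1 = kd (99 / 100) z := by simp [hg, hh]
    have e2 : g 0 = kd (99 / 100) w := by simp [hg]
    simp only [e1, e2, one_smul, zero_smul, sub_zero] at key
    have e3 : kd (99 / 100) z - kd (99 / 100) w - lk z0 h = kd (99 / 100) z - lk z0 h - kd (99 / 100) w := by ring
    rw [e3]; exact key
  · intro s hs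
    have hs' : s ∈ Icc (0 : ℝ) 1 := ⟨hs.1, hs.2.le⟩
    set ζ := w + s • h with hζ
    have hζ0 := hnear s hs'
    rw [← hζ] at hζ0
    obtain ⟨r1, r2⟩ := hnrm ζ hζ0
    set r := ‖ζ‖ with hr
    have hr0 : 0 < r := by linarith
    have hr9 : 99 / 100 ≤ r := by linarith
    have hh0 := norm_nonneg h
    -- inverse powers
    have i3 : |(1 / r) ^ 3 - 1| ≤ 32 / 10 * ρ := by
      have e : (1 / r) ^ 3 - 1 = (1 - r) * (1 + r + r ^ 2) / r ^ 3 := by field_simp; ring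
      rw [e, abs_div, abs_mul, abs_of_pos (by positivity : 0 < 1 + r + r ^ 2),
        abs_of_pos (by positivity : 0 < r ^ 3), div_le_iff₀ (by positivity)]
      have a1 : |1 - r| ≤ ρ := by rw [abs_le]; constructor <;> linarith
      have a2 : 1 + r + r ^ 2 ≤ 32 / 10 * r ^ 3 := by
        have : (99 / 100 : ℝ) ^ 3 ≤ r ^ 3 := by gcongr
        have r101 : r ≤ 101 / 100 := by linarith
        have : r ^ 2 ≤ (101 / 100) ^ 2 := by gcongr
        by_cases hc : r ≤ 1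
        · nlinarith [sq_nonneg r, mul_nonneg (sub_nonneg.2 hc) hr0.le, sq_nonneg (r - 1)]
        · push Not at hc
          nlinarith [sq_nonneg r, mul_pos (sub_pos.2 hc) hr0, sq_nonneg (r - 1), pow_pos hr0 3]
      calc |1 - r| * (1 + r + r ^ 2) ≤ ρ * (32 / 10 * r ^ 3) := by gcongr
        _ = _ := by ring
    have i5 : |(1 / r) ^ 5 - 1| ≤ 55 / 10 * ρ := by
      have e : (1 / r) ^ 5 - 1 = (1 - r) * (1 + r + r ^ 2 + r ^ 3 + r ^ 4) / r ^ 5 := by field_simp; ring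
      rw [e, abs_div, abs_mul, abs_of_pos (by positivity : 0 < 1 + r + r ^ 2 + r ^ 3 + r ^ 4),
        abs_of_pos (by positivity : 0 < r ^ 5), div_le_iff₀ (by positivity)]
      have a1 : |1 - r| ≤ ρ := by rw [abs_le]; constructor <;> linarith
      have a2 : 1 + r + r ^ 2 + r ^ 3 + r ^ 4 ≤ 55 / 10 * r ^ 5 := by
        have r101 : r ≤ 101 / 100 := by linarith
        have b5 : (99 / 100 : ℝ) ^ 5 ≤ r ^ 5 := by gcongr
        have b2 : r ^ 2 ≤ (101 / 100) ^ 2 := by gcongr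
        have b3 : r ^ 3 ≤ (101 / 100) ^ 3 := by gcongr
        have b4 : r ^ 4 ≤ (101 / 100) ^ 4 := by gcongr
        norm_num at b5 b2 b3 b4
        linarith
      calc |1 - r| * (1 + r + r ^ 2 + r ^ 3 + r ^ 4) ≤ ρ * (55 / 10 * r ^ 5) := by gcongr
        _ = _ := by ring
    have elk : lk z0 h = h - (3 * ip z0 h) • z0 := rfl
    have e : g' s - lk z0 h = ((1 / r) ^ 3 - 1) • h - (3 : ℝ) • ((((1 / r) ^ 5 - 1) * ip ζ h) • ζ +
        (ip (ζ - z0) h) • ζ + (ip z0 h) • (ζ - z0)) := by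
      have e1 : g' s = (3 * (1 / r) ^ 2 * (-(ip ζ h) / r ^ 3)) • ζ + ((1 / r) ^ 3) • h := rfl
      have e2 : ip (ζ - z0) h = ip ζ h - ip z0 h := by simp only [ip, Complex.sub_re, Complex.sub_im]; ring
      have e3 : 3 * (1 / r) ^ 2 * (-(ip ζ h) / r ^ 3) = -(3 * ((1 / r) ^ 5 * ip ζ h)) := by
        field_simp
      rw [e1, elk, e2, e3]
      simp only [Complex.real_smul]
      push_cast
      ring
    rw [e]
    have b1 : ‖((1 / r) ^ 3 - 1) • h‖ ≤ 32 / 10 * ρ * ‖h‖ := by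
      rw [norm_smul, Real.norm_eq_abs]; gcongr
    have r101 : r ≤ 101 / 100 := by linarith
    have b2 : ‖(((1 / r) ^ 5 - 1) * ip ζ h) • ζ‖ ≤ 562 / 100 * ρ * ‖h‖ := by
      rw [norm_smul, Real.norm_eq_abs, abs_mul, ← hr]
      have h3 := abs_ip_le ζ h
      rw [← hr] at h3
      calc |(1 / r) ^ 5 - 1| * |ip ζ h| * r ≤ 55 / 10 * ρ * (101 / 100 * ‖h‖) * (101 / 100) := by
            gcongr
            exact h3.trans (by gcongr)
        _ ≤ _ := by
            have : 0 ≤ ρ * ‖h‖ := by positivity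
            nlinarith
    have b3 : ‖(ip (ζ - z0) h) • ζ‖ ≤ 101 / 100 * ρ * ‖h‖ := by
      rw [norm_smul, Real.norm_eq_abs, ← hr]
      have h3 := abs_ip_le (ζ - z0) h
      calc |ip (ζ - z0) h| * r ≤ (ρ * ‖h‖) * (101 / 100) := by
            gcongr
            exact h3.trans (by gcongr)
        _ = _ := by ring
    have b4 : ‖(ip z0 h) • (ζ - z0)‖ ≤ ρ * ‖h‖ := by
      rw [norm_smul, Real.norm_eq_abs]
      have h3 := abs_ip_le z0 h
      rw [h0, one_mul] at h3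
      calc |ip z0 h| * ‖ζ - z0‖ ≤ ‖h‖ * ρ := by gcongr
        _ = _ := by ring
    refine (norm_sub_le _ _).trans ?_
    rw [norm_smul (3 : ℝ)]
    have n3 : ‖(3 : ℝ)‖ = 3 := by norm_num
    rw [n3]
    have b5 := (norm_add_le (((((1 / r) ^ 5 - 1) * ip ζ h) • ζ) + (ip (ζ - z0) h) • ζ) ((ip z0 h) • (ζ - z0)))
    have b6 := (norm_add_le ((((1 / r) ^ 5 - 1) * ip ζ h) • ζ) ((ip (ζ - z0) h) • ζ))
    have : 0 ≤ ρ * ‖h‖ := by positivity
    nlinarith

end Pool.Agent.T9h50.TL
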