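import Pool.Agent.T9h50.TL.WDat

/-!
# Soundness of the checks for the unstable manifold
-/

set_option autoImplicit false
set_option exponentiation.threshold 3000

namespace Pool.Agent.T9h50.TL

open Pool.Agent.T9h50.TB (fI fI_eq fN fN_eq evR dR nrm nrm_cons hasDerivAt_evR)

/-- derivatives of the real function -/
noncomputable def eU : List (List Int) → ℝ → ℝ → ℝ
  | [], _, _ => 0
  | p :: P, u, v => dR p u + v * eU P u v

noncomputable def eV : List (List Int) → ℝ → ℝ → ℝ
  | [], _, _ => 0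
  | _ :: P, u, v => ev2 P u v + v * eV P u v

lemma hasDerivAt_ev2 (P : List (List Int)) {u v : ℝ → ℝ} {u' v' t : ℝ} (hu : HasDerivAt u u' t)
    (hv : HasDerivAt v v' t) :
    HasDerivAt (fun s => ev2 P (u s) (v s)) (eU P (u t) (v t) * u' + eV P (u t) (v t) * v') t := by
  induction P with
  | nil => simpa [ev2, eU, eV] using hasDerivAt_const t (0 : ℝ)
  | cons p P ih =>
    have h1 : HasDerivAt (fun s => Pool.Agent.T9h50.TB.evR p (u s)) (dR p (u t) * u') t :=
      (hasDerivAt_evR p (u t)).comp t hu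
    have h2 := h1.fun_add (hv.fun_mul ih)
    refine h2.congr_deriv ?_
    simp only [eU, eV]
    ring

lemma evR_dl (k : ℕ) (p : List Int) (x : ℝ) : evR (dl k p) x = k * evR p x + x * dR p x := by
  induction p generalizing k with
  | nil => simp [dl, evR, dR]
  | cons a p ih =>
    have e : evR (dl k (a :: p)) x = (((Int.mul (Int.ofNat k) a : ℤ)) : ℝ) + x * evR (dl (k + 1) p) x := rfl
    have e2 : (((Int.mul (Int.ofNat k) a : ℤ)) : ℝ) = k * a := by
      have : Int.mul (Int.ofNat k) a = (k : ℤ) * a := rfl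
      rw [this]; push_cast; ring
    rw [e, e2, ih, evR, dR]
    push_cast
    ring

lemma evR_dl_tail (p : List Int) (x : ℝ) : evR (dl 0 p).tail x = dR p x := by
  cases p with
  | nil => simp [dl, evR, dR]
  | cons a p =>
    have : (dl 0 (a :: p)).tail = dl 1 p := rfl
    rw [this, evR_dl, dR]
    push_cast; ring

lemma ev2_uU (P : List (List Int)) (u v : ℝ) : ev2 (uU P) u v = u * eU P u v := by
  induction P with
  | nil => simp [uU, ev2, eU]
  | cons p P ih =>
    simp only [uU, ev2, eU, ih, evR_dl]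
    push_cast; ring

lemma ev2_dU (P : List (List Int)) (u v : ℝ) : ev2 (dU P) u v = eU P u v := by
  induction P with
  | nil => simp [dU, ev2, eU]
  | cons p P ih => simp only [dU, ev2, eU, ih, evR_dl_tail]

lemma evR_sl (c : ℤ) (p : List Int) (x : ℝ) : evR (sl c p) x = c * evR p x := by
  induction p with
  | nil => simp [sl, evR]
  | cons a p ih =>
    have e : evR (sl c (a :: p)) x = (((Int.mul c a : ℤ)) : ℝ) + x * evR (sl c p) x := rfl
    have e2 : (((Int.mul c a : ℤ)) : ℝ) = c * a := by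
      have : Int.mul c a = c * a := rfl
      rw [this]; push_cast; ring
    rw [e, e2, ih, evR]; ring

lemma ev2_vV (k : ℕ) (P : List (List Int)) (u v : ℝ) :
    ev2 (vV k P) u v = k * ev2 P u v + v * eV P u v := by
  induction P generalizing k with
  | nil => simp [vV, ev2, eV]
  | cons p P ih =>
    simp only [vV, ev2, eV, ih, evR_sl]
    have : ((Int.ofNat k : ℤ) : ℝ) = k := by simp
    rw [this]
    push_cast; ring

lemma ev2_dV (P : List (List Int)) (u v : ℝ) : ev2 (dV P) u v = eV P u v := by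
  cases P with
  | nil => simp [dV, vV, ev2, eV]
  | cons p P =>
    have : dV (p :: P) = vV 1 P := rfl
    rw [this, ev2_vV, eV]
    push_cast; ring

lemma len_of_ok {n : ℕ} {P : List (List Int)} (h : lenOK n P = true) : Len n P := by
  induction P with
  | nil => intro p hp; simp at hp
  | cons p P ih =>
    rw [lenOK, Bool.and_eq_true] at h
    intro q hq
    rcases List.mem_cons.1 hq with rfl | hq
    · exact Nat.le_of_ble_eq_true h.1
    · exact ih h.2 q hq

lemma XW_eq : XW = 2 ^ 1024 := by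
  unfold XW
  rfl

lemma YW_eq : YW = XW ^ 50 := by
  rw [XW_eq, ← pow_mul]
  unfold YW
  rfl

lemma XW_one : 1 < XW := by
  rw [XW_eq]; exact Nat.one_lt_two_pow (by norm_num)

lemma geob_eq (X : ℤ) (n : ℕ) : (X - 1) * geob X n = X ^ n - 1 := by
  induction n with
  | zero => simp [geob]
  | succ n ih =>
    rw [geob]
    calc (X - 1) * (1 + X * geob X n) = X - 1 + X * ((X - 1) * geob X n) := by ring
      _ = X ^ (n + 1) - 1 := by rw [ih]; ring

lemma geob_div {X : ℕ} (hX : 1 < X) (n : ℕ) : (((X ^ n - 1) / (X - 1) : ℕ) : ℤ) = geob (X : ℤ) n := by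
  have h0 : 0 ≤ geob (X : ℤ) n := geob_nonneg (by exact_mod_cast (by omega : 0 < X)) n
  have h2 := geob_eq (X : ℤ) n
  have h3 : 1 ≤ X ^ n := Nat.one_le_pow _ _ (by omega)
  have h4 : (X ^ n - 1) / (X - 1) = (geob (X : ℤ) n).toNat := by
    apply Nat.div_eq_of_eq_mul_right (by omega)
    zify [h3, hX.le]
    rw [Int.toNat_of_nonneg h0]
    linarith
  rw [h4, Int.toNat_of_nonneg h0]

lemma YW_one : 1 < YW := by
  rw [YW_eq]
  exact Nat.one_lt_pow (by norm_num) XW_one

lemma gw_aux (a b c : ℕ) : Nat.mul (Nat.div (Nat.sub a 1) (Nat.sub b 1)) (Nat.div (Nat.sub c 1) (Nat.sub a 1)) =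
    ((a - 1) / (b - 1)) * ((c - 1) / (a - 1)) := rfl

lemma GW_eq : ((GW : ℕ) : ℤ) = geob (XW : ℤ) 50 * geob (YW : ℤ) 50 := by
  rw [← geob_div XW_one, ← geob_div YW_one]
  have h1 : GW = ((XW ^ 50 - 1) / (XW - 1)) * ((YW ^ 50 - 1) / (YW - 1)) := by
    have e1 : XW ^ 50 = Nat.pow 2 51200 := by
      rw [← YW_eq]; unfold YW; rfl
    have e2 : YW ^ 50 = Nat.pow 2 2560000 := by
      have : YW = 2 ^ 51200 := by unfold YW; rfl
      rw [this, ← pow_mul]; rfl
    have e3 : XW = Nat.pow 2 1024 := by unfold XW; rfl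
    have e4 : YW = Nat.pow 2 51200 := by unfold YW; rfl
    rw [e1, e2]
    rw [e3, e4]
    unfold GW
    exact gw_aux _ _ _
  rw [h1]
  push_cast
  rfl

/-- packed functions -/
def RW (V : ℤ) (B n : ℕ) (f : ℝ → ℝ → ℝ) : Prop := Rep2 (XW : ℤ) (YW : ℤ) V B n f

/-- the check of a packed function is sound -/
theorem ck_sound {lo hi : ℕ} {V : ℤ} {B n : ℕ} {f : ℝ → ℝ → ℝ} (h : RW V B n f) (hn : n ≤ 50)
    (hB : B ≤ 2 ^ 1000) (hlh : lo ≤ hi) (hhi : hi ≤ 2 ^ 1000) (hc : ck lo hi V = true) {u v ρ : ℝ}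
    (h0 : 0 ≤ ρ) (h1 : ρ ≤ 1) (hu : |u| ≤ ρ) (hv : |v| ≤ ρ) :
    |f u v| ≤ 2500 * (lo * ρ + hi * ρ ^ 4) := by
  have e : (2 : ℕ) * 2 ^ 1000 < XW := by
    rw [XW_eq, show (2 : ℕ) * 2 ^ 1000 = 2 ^ 1001 by rw [pow_succ]; ring]
    exact Nat.pow_lt_pow_right (by norm_num) (by norm_num)
  have := Rep2.bound (X := XW) (Y := YW) (N := 50) (M := 50) (G := GW) h hn XW_one YW_eq GW_eq
    (by omega) hlh (by omega) hc h0 h1 hu hv
  norm_num at this ⊢
  exact this

end Pool.Agent.T9h50.TL
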