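import Pool.Agent.T9h50.TL.Wsd

/-!
# What the checks prove about the unstable manifold
-/

set_option autoImplicit false
set_option exponentiation.threshold 3000

namespace Pool.Agent.T9h50.TL

open Pool.Agent.T9h50.TB (fI fI_eq fN fN_eq evR dR nrm nrm_cons hasDerivAt_evR)

/-- sizes of a list and of its derivatives -/
def okP (P : List (List Int)) : Bool :=
  (lenOK 12 P).and <| (lenOK 12 (uU P)).and <| (lenOK 12 (vV 0 P)).and <| (lenOK 12 (dV P)).and <|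
  (lenOK 12 (dU P)).and <| (Nat.ble (nrm2 P) (Nat.pow 2 194)).and <|
  (Nat.ble (nrm2 (uU P)) (Nat.pow 2 198)).and <| (Nat.ble (nrm2 (vV 0 P)) (Nat.pow 2 198)).and <|
  (Nat.ble (nrm2 (dV P)) (Nat.pow 2 198)).and (Nat.ble (nrm2 (dU P)) (Nat.pow 2 198))

theorem ok_xA : okP WxA = true := by decide +kernel
theorem ok_yA : okP WyA = true := by decide +kernel
theorem ok_xB : okP WxB = true := by decide +kernel
theorem ok_yB : okP WyB = true := by decide +kernel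
theorem ok_pA : okP WpA = true := by decide +kernel
theorem ok_qA : okP WqA = true := by decide +kernel
theorem ok_pB : okP WpB = true := by decide +kernel
theorem ok_qB : okP WqB = true := by decide +kernel
theorem ok_gA : okP WgA = true := by decide +kernel
theorem ok_gC : okP WgC = true := by decide +kernel
theorem ok_gB : okP WgB = true := by decide +kernel

theorem al_le : alI.natAbs ≤ 2 ^ 193 := by decide +kernel
theorem be_le : beI.natAbs ≤ 2 ^ 193 := by decide +kernel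
theorem SW_eq : SW = 2 ^ 192 := by decide +kernel
theorem lr1 : loR ≤ hiR := by decide +kernel
theorem lr2 : hiR ≤ 2 ^ 1000 := by decide +kernel
theorem lg1 : loG ≤ hiG := by decide +kernel
theorem lg2 : hiG ≤ 2 ^ 1000 := by decide +kernel
theorem lv2 : loV ≤ 2 ^ 1000 := by decide +kernel

lemma Rep2.congr {X Y V : ℤ} {B n : ℕ} {f g : ℝ → ℝ → ℝ} (h : Rep2 X Y V B n f)
    (hfg : ∀ u v, f u v = g u v) : Rep2 X Y V B n g := by
  obtain ⟨p, p1, p2, p3, p4⟩ := h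
  exact ⟨p, p1, p2, p3, fun u v => (p4 u v).trans (hfg u v)⟩

lemma ok_rep {P : List (List Int)} (h : okP P = true) : RW (pw P) (2 ^ 194) 12 (ev2 P) := by
  simp only [okP, Bool.and_eq_true] at h
  exact Rep2.list P (Nat.le_of_ble_eq_true h.2.2.2.2.2.1) (len_of_ok h.1)

/-- the derivative along the linear flow, times the scales -/
noncomputable def DtR (P : List (List Int)) (u v : ℝ) : ℝ :=
  alI * (u * eU P u v + v * eV P u v) + beI * (u * eV P u v - v * eU P u v)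

lemma Dt_rep {P : List (List Int)} (h : okP P = true) : RW (Dt P) (2 ^ 394) 14 (DtR P) := by
  simp only [okP, Bool.and_eq_true] at h
  obtain ⟨l0, l1, l2, l3, l4, n0, n1, n2, n3, n4⟩ := h
  have a1 : Rep2 (XW : ℤ) (YW : ℤ) (pw (uU P)) (2 ^ 198) 12 (fun u v => u * eU P u v) :=
    (Rep2.list (uU P) (Nat.le_of_ble_eq_true n1) (len_of_ok l1)).congr fun u v => ev2_uU P u v
  have a2 : Rep2 (XW : ℤ) (YW : ℤ) (pw (vV 0 P)) (2 ^ 198) 12 (fun u v => v * eV P u v) :=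
    (Rep2.list (vV 0 P) (Nat.le_of_ble_eq_true n2) (len_of_ok l2)).congr fun u v => by
      rw [ev2_vV]; push_cast; ring
  have a3 : Rep2 (XW : ℤ) (YW : ℤ) (pw (dV P)) (2 ^ 198) 12 (fun u v => eV P u v) :=
    (Rep2.list (dV P) (Nat.le_of_ble_eq_true n3) (len_of_ok l3)).congr fun u v => ev2_dV P u v
  have a4 : Rep2 (XW : ℤ) (YW : ℤ) (pw (dU P)) (2 ^ 198) 12 (fun u v => eU P u v) :=
    (Rep2.list (dU P) (Nat.le_of_ble_eq_true n4) (len_of_ok l4)).congr fun u v => ev2_dU P u v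
  have aU : Rep2 (XW : ℤ) (YW : ℤ) (XW : ℤ) 1 2 (fun u _ => u) :=
    ⟨[[0, 1]], by simp [pk2_cons, pk2_nil, pkb_cons, pkb_nil], by simp [nrm, nrm2],
      fun p hp => by simp at hp; simp [hp], fun u v => by simp [evR, ev2]⟩
  have aV : Rep2 (XW : ℤ) (YW : ℤ) (YW : ℤ) 1 1 (fun _ v => v) :=
    ⟨[[], [1]], by simp [pk2_cons, pk2_nil, pkb_cons, pkb_nil], by simp [nrm, nrm2],
      fun p hp => by simp at hp; rcases hp with hp | hp <;> simp [hp], fun u v => by simp [evR, ev2]⟩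
  have r := ((a1.add a2).smul alI (by norm_num)).add
    (((aU.mul a3).sub (aV.mul a4) (by norm_num)).smul beI (by norm_num))
  have h1 := al_le
  have h2 := be_le
  have hn : alI.natAbs * (2 ^ 198 + 2 ^ 198) + beI.natAbs * (1 * 2 ^ 198 + 1 * 2 ^ 198) ≤ 2 ^ 394 := by
    calc alI.natAbs * (2 ^ 198 + 2 ^ 198) + beI.natAbs * (1 * 2 ^ 198 + 1 * 2 ^ 198) ≤
        2 ^ 193 * (2 ^ 198 + 2 ^ 198) + 2 ^ 193 * (1 * 2 ^ 198 + 1 * 2 ^ 198) := by gcongr
      _ ≤ 2 ^ 394 := by norm_num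
  exact Rep2.mono r hn (by norm_num)

/-- the velocity checks are sound -/
lemma ckX_sound {x : List (List Int)} (hx : okP x = true) {p y : ℤ} {fp fy : ℝ → ℝ → ℝ}
    (hp : RW p (2 ^ 194) 12 fp) (hy : RW y (2 ^ 194) 12 fy) (h : ckX x p y = true) {u v ρ : ℝ}
    (h0 : 0 ≤ ρ) (h1 : ρ ≤ 1) (hu : |u| ≤ ρ) (hv : |v| ≤ ρ) :
    |DtR x u v - SW * (fp u v + 3 * fy u v)| ≤ 2500 * (loV * ρ + loV * ρ ^ 4) := by
  have r := (Dt_rep hx).sub ((hp.add (hy.smul 3 (by norm_num))).smul (SW : ℤ) (by norm_num)) (by norm_num)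
  have := ck_sound (f := _) r (by norm_num) ?_ le_rfl lv2 h h0 h1 hu hv
  · push_cast at this ⊢
    exact this
  · rw [Int.natAbs_natCast, SW_eq, show (3 : ℤ).natAbs = 3 from rfl]
    norm_num

lemma ckY_sound {x : List (List Int)} (hx : okP x = true) {p y : ℤ} {fp fy : ℝ → ℝ → ℝ}
    (hp : RW p (2 ^ 194) 12 fp) (hy : RW y (2 ^ 194) 12 fy) (h : ckY x p y = true) {u v ρ : ℝ}
    (h0 : 0 ≤ ρ) (h1 : ρ ≤ 1) (hu : |u| ≤ ρ) (hv : |v| ≤ ρ) :
    |DtR x u v - SW * (fp u v - fy u v)| ≤ 2500 * (loV * ρ + loV * ρ ^ 4) := by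
  have r := (Dt_rep hx).sub ((hp.sub hy (by norm_num)).smul (SW : ℤ) (by norm_num)) (by norm_num)
  have := ck_sound (f := _) r (by norm_num) ?_ le_rfl lv2 h h0 h1 hu hv
  · push_cast at this ⊢
    exact this
  · rw [Int.natAbs_natCast, SW_eq]
    norm_num

/-- the acceleration checks are sound -/
lemma ckP_sound {x : List (List Int)} (hx : okP x = true) {q F : ℤ} {fq fF : ℝ → ℝ → ℝ}
    (hq : RW q (2 ^ 194) 12 fq) (hF : RW F (2 ^ 790) 50 fF) (h : ckP x q F = true) {u v ρ : ℝ}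
    (h0 : 0 ≤ ρ) (h1 : ρ ≤ 1) (hu : |u| ≤ ρ) (hv : |v| ≤ ρ) :
    |17 * (SW : ℝ) ^ 3 * (DtR x u v - 3 * SW * fq u v) - SW * fF u v| ≤
      2500 * (loR * ρ + hiR * ρ ^ 4) := by
  have r := (((Dt_rep hx).sub (hq.smul (3 * (SW : ℤ)) (by norm_num)) (by norm_num)).smul
    ((17 * SW ^ 3 : ℕ) : ℤ) (by norm_num)).sub (hF.smul (SW : ℤ) (by norm_num)) (by norm_num)
  have := ck_sound (f := _) r (by norm_num) ?_ lr1 lr2 h h0 h1 hu hv
  · push_cast at this ⊢
    exact this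
  · have e3 : (3 * (SW : ℤ)).natAbs = 3 * 2 ^ 192 := by
      rw [Int.natAbs_mul, Int.natAbs_natCast, SW_eq]; rfl
    rw [Int.natAbs_natCast, Int.natAbs_natCast, e3, SW_eq]
    norm_num

lemma ckQ_sound {x : List (List Int)} (hx : okP x = true) {p F : ℤ} {fp fF : ℝ → ℝ → ℝ}
    (hq : RW p (2 ^ 194) 12 fp) (hF : RW F (2 ^ 790) 50 fF) (h : ckQ x p F = true) {u v ρ : ℝ}
    (h0 : 0 ≤ ρ) (h1 : ρ ≤ 1) (hu : |u| ≤ ρ) (hv : |v| ≤ ρ) :
    |17 * (SW : ℝ) ^ 3 * (DtR x u v + SW * fp u v) - SW * fF u v| ≤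
      2500 * (loR * ρ + hiR * ρ ^ 4) := by
  have r := (((Dt_rep hx).add (hq.smul (SW : ℤ) (by norm_num))).smul
    ((17 * SW ^ 3 : ℕ) : ℤ) (by norm_num)).sub (hF.smul (SW : ℤ) (by norm_num)) (by norm_num)
  have := ck_sound (f := _) r (by norm_num) ?_ lr1 lr2 h h0 h1 hu hv
  · push_cast at this ⊢
    exact this
  · rw [Int.natAbs_natCast, Int.natAbs_natCast, SW_eq]
    norm_num

/-- the checks of the inverse norms are sound -/
lemma ckG_sound {g x y : ℤ} {fg fx fy : ℝ → ℝ → ℝ} (hg : RW g (2 ^ 194) 12 fg)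
    (hx : RW x (2 ^ 195) 12 fx) (hy : RW y (2 ^ 195) 12 fy) (h : ckG g x y = true) {u v ρ : ℝ}
    (h0 : 0 ≤ ρ) (h1 : ρ ≤ 1) (hu : |u| ≤ ρ) (hv : |v| ≤ ρ) :
    |fg u v * fg u v * (fx u v * fx u v + 3 * (fy u v * fy u v)) - (SW : ℝ) ^ 4| ≤
      2500 * (loG * ρ + hiG * ρ ^ 4) := by
  have r := ((hg.mul hg).mul ((hx.mul hx).add ((hy.mul hy).smul 3 (by norm_num)))).sub
    (Rep2.const (X := (XW : ℤ)) (Y := (YW : ℤ)) ((SW ^ 4 : ℕ) : ℤ)) (by norm_num)
  have := ck_sound (f := _) r (by norm_num) ?_ lg1 lg2 h h0 h1 hu hv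
  · push_cast at this ⊢
    exact this
  · rw [Int.natAbs_natCast, SW_eq, show (3 : ℤ).natAbs = 3 from rfl]
    norm_num

end Pool.Agent.T9h50.TL
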