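import Pool.Agent.T9h50.TL.Wsd2
import Pool.Agent.T9h50.TL.Phs

/-!
# The approximate solutions on the unstable manifold
-/

set_option autoImplicit false
set_option exponentiation.threshold 3000

open scoped NNReal ComplexConjugate Topology
open Complex Set Filter

namespace Pool.Agent.T9h50.TL

open Pool.Agent.T9h50.TB (E kd kd_eq fI fI_eq fN fN_eq evR dR nrm nrm_cons hasDerivAt_evR abs_evR_le
  combine hasDerivAt_mk)

/-- the scale -/
noncomputable def SWR : ℝ := 2 ^ 192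

lemma SWR_pos : 0 < SWR := by unfold SWR; positivity

lemma SW_cast : ((SW : ℕ) : ℝ) = SWR := by
  rw [SW_eq]; unfold SWR; norm_num

/-- the eigenvalue -/
noncomputable def alW : ℝ := alI / SWR
noncomputable def beW : ℝ := beI / SWR

/-- normalised polynomials -/
noncomputable def nx (P : List (List Int)) (u v : ℝ) : ℝ := ev2 P u v / SWR
noncomputable def nd (P : List (List Int)) (u v : ℝ) : ℝ := DtR P u v / SWR ^ 2

/-- the square root of three -/
noncomputable def s3 : ℝ := Real.sqrt 3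

lemma s3_sq : s3 * s3 = 3 := Real.mul_self_sqrt (by norm_num)
lemma s3_pos : 0 < s3 := Real.sqrt_pos.2 (by norm_num)
lemma s3_lt : s3 < 1.7321 := by
  have h := s3_sq
  nlinarith [s3_pos]
lemma s3_gt : 1.732 < s3 := by
  have h := s3_sq
  nlinarith [s3_pos]

noncomputable def cw (X Y : List (List Int)) (u v : ℝ) : ℂ := ⟨nx X u v, s3 * nx Y u v⟩
noncomputable def cwd (X Y : List (List Int)) (u v : ℝ) : ℂ := ⟨nd X u v, s3 * nd Y u v⟩

/-- the unstable manifold -/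
noncomputable def wz (P : Par) (u v : ℝ) : E :=
  (cw WxA WyA u v, cw WxB WyB u v, P.sg⁻¹ • cw WpA WqA u v, P.sg⁻¹ • cw WpB WqB u v)

noncomputable def wzd (P : Par) (u v : ℝ) : E :=
  (cwd WxA WyA u v, cwd WxB WyB u v, P.sg⁻¹ • cwd WpA WqA u v, P.sg⁻¹ • cwd WpB WqB u v)

lemma hasDerivAt_nx (P : List (List Int)) {u v : ℝ → ℝ} {t : ℝ}
    (hu : HasDerivAt u (alW * u t - beW * v t) t) (hv : HasDerivAt v (beW * u t + alW * v t) t) :
    HasDerivAt (fun s => nx P (u s) (v s)) (nd P (u t) (v t)) t := by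
  refine ((hasDerivAt_ev2 P hu hv).div_const SWR).congr_deriv ?_
  have h := SWR_pos.ne'
  simp only [nd, DtR, alW, beW]
  field_simp
  ring

lemma hasDerivAt_cw (X Y : List (List Int)) {u v : ℝ → ℝ} {t : ℝ}
    (hu : HasDerivAt u (alW * u t - beW * v t) t) (hv : HasDerivAt v (beW * u t + alW * v t) t) :
    HasDerivAt (fun s => cw X Y (u s) (v s)) (cwd X Y (u t) (v t)) t :=
  hasDerivAt_mk (hasDerivAt_nx X hu hv) ((hasDerivAt_nx Y hu hv).const_mul s3)

lemma hasDerivAt_wz (P : Par) {u v : ℝ → ℝ} {t : ℝ}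
    (hu : HasDerivAt u (alW * u t - beW * v t) t) (hv : HasDerivAt v (beW * u t + alW * v t) t) :
    HasDerivAt (fun s => wz P (u s) (v s)) (wzd P (u t) (v t)) t :=
  (hasDerivAt_cw WxA WyA hu hv).prodMk ((hasDerivAt_cw WxB WyB hu hv).prodMk
    (((hasDerivAt_cw WpA WqA hu hv).const_smul P.sg⁻¹).prodMk
      ((hasDerivAt_cw WpB WqB hu hv).const_smul P.sg⁻¹)))

/-- comparison with the kernel -/
lemma kern_cmp2 {γ ε d c : ℝ} {z : ℂ} (hd : 0 < d) (hγ0 : 0 < γ) (hε0 : 0 ≤ ε)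
    (hε1 : ε ≤ 1 / 10 ^ 4) (hy2 : |(γ * ‖z‖) ^ 2 - 1| ≤ ε) (h1 : γ * c ≤ 1000) (hc0 : 0 < c)
    (hc : 1000 * d ≤ (1 - 1 / 10 ^ 4) * c) :
    (1 - 1 / 10 ^ 4) * c / 1000 ≤ ‖z‖ ∧ ‖((γ * γ * γ : ℝ) : ℂ) * z - kd d z‖ ≤ 4 * ε / d ^ 2 := by
  set r := ‖z‖ with hr
  have hr0 : 0 ≤ r := norm_nonneg _
  set y := γ * r with hy
  have hy0 : 0 ≤ y := mul_nonneg hγ0.le hr0
  obtain ⟨hy3, hy4⟩ := abs_le.1 hy2
  have hy1 : 1 - ε ≤ y := by nlinarith
  have hy5 : y ≤ 1 + ε := by nlinarith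
  have hrlow : (1 - 1 / 10 ^ 4) * c / 1000 ≤ r := by
    have h2 : (1 - 1 / 10 ^ 4) ≤ γ * r := by linarith
    have h3 : (1 - 1 / 10 ^ 4) * c ≤ 1000 * r := by
      calc (1 - 1 / 10 ^ 4) * c ≤ (γ * r) * c := by gcongr
        _ = (γ * c) * r := by ring
        _ ≤ 1000 * r := by gcongr
    linarith
  have hrd : d ≤ r := by
    have : d ≤ (1 - 1 / 10 ^ 4) * c / 1000 := by linarith
    linarith
  have hrpos : 0 < r := hd.trans_le hrd
  refine ⟨hrlow, ?_⟩
  rw [kd_eq hrd]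
  have e1 : ((γ * γ * γ : ℝ) : ℂ) * z - (((‖z‖ ^ 3)⁻¹ : ℝ) • z) =
      ((((y ^ 3 - 1) / r ^ 3 : ℝ)) : ℂ) * z := by
    rw [Complex.real_smul, ← hr, ← sub_mul, ← Complex.ofReal_sub]
    congr 2
    rw [hy]
    field_simp
  rw [e1, norm_mul, Complex.norm_real, Real.norm_eq_abs, ← hr, abs_div, abs_of_pos (by positivity : 0 < r ^ 3)]
  have e2 : |y ^ 3 - 1| ≤ 4 * ε := by
    have e3 : y ^ 3 - 1 = (y - 1) * (y ^ 2 + y + 1) := by ring
    have e4 : |y - 1| * (y + 1) ≤ ε := by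
      have : (y - 1) * (y + 1) = y ^ 2 - 1 := by ring
      rw [← abs_of_pos (by linarith : 0 < y + 1), ← abs_mul, this]
      exact hy2
    rw [e3, abs_mul, abs_of_pos (by nlinarith : 0 < y ^ 2 + y + 1)]
    have e5 : y ^ 2 + y + 1 ≤ 4 * (y + 1) := by nlinarith
    calc |y - 1| * (y ^ 2 + y + 1) ≤ |y - 1| * (4 * (y + 1)) := by gcongr
      _ = 4 * (|y - 1| * (y + 1)) := by ring
      _ ≤ 4 * ε := by gcongr
  calc |y ^ 3 - 1| / r ^ 3 * r = |y ^ 3 - 1| / r ^ 2 := by field_simp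
    _ ≤ 4 * ε / d ^ 2 := by gcongr

/-! ### Values of the polynomials -/

theorem w_pos : (Nat.blt (nrm2 WgA) (Nat.mul 2 SW)).and ((Nat.blt (nrm2 WgC) (Nat.mul 2 SW)).and
    (Nat.blt (nrm2 WgB) (Nat.mul 2 SW))) = true := by decide +kernel

lemma abs_evR_le' (p : List Int) {x : ℝ} (h1 : |x| ≤ 1) : |evR p x| ≤ nrm p := by
  induction p with
  | nil => simp [evR, nrm]
  | cons a p ih =>
    rw [evR, nrm_cons]
    push_cast
    calc |(a : ℝ) + x * evR p x| ≤ |(a : ℝ)| + |x * evR p x| := abs_add_le _ _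
      _ = |(a : ℝ)| + |x| * |evR p x| := by rw [abs_mul]
      _ ≤ (a.natAbs : ℝ) + 1 * nrm p := by
        gcongr
        rw [Nat.cast_natAbs]; simp
      _ = _ := by ring

lemma abs_ev2_le (P : List (List Int)) {u v : ℝ} (hu : |u| ≤ 1) (hv : |v| ≤ 1) :
    |ev2 P u v| ≤ nrm2 P := by
  induction P with
  | nil => simp [ev2, nrm2]
  | cons p P ih =>
    rw [ev2, nrm2_cons]
    push_cast
    calc |evR p u + v * ev2 P u v| ≤ |evR p u| + |v * ev2 P u v| := abs_add_le _ _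
      _ = |evR p u| + |v| * |ev2 P u v| := by rw [abs_mul]
      _ ≤ nrm p + 1 * nrm2 P := by
        gcongr
        exact abs_evR_le' p hu
      _ = _ := by ring

/-- the constant term dominates -/
lemma ev2_near (P : List (List Int)) {u v : ℝ} (hu : |u| ≤ 1) (hv : |v| ≤ 1) (a : Int) (p : List Int)
    (Q : List (List Int)) (h : P = (a :: p) :: Q) :
    |ev2 P u v - a| ≤ nrm p + nrm2 Q := by
  subst h
  have h1 := abs_evR_le' p hu
  have h2 := abs_ev2_le Q hu hv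
  have e : ev2 ((a :: p) :: Q) u v - a = u * evR p u + v * ev2 Q u v := by
    simp only [ev2, evR]; ring
  rw [e]
  calc |u * evR p u + v * ev2 Q u v| ≤ |u| * |evR p u| + |v| * |ev2 Q u v| := by
        refine (abs_add_le _ _).trans ?_
        rw [abs_mul, abs_mul]
    _ ≤ 1 * nrm p + 1 * nrm2 Q := by gcongr
    _ = _ := by ring

lemma ng_bounds {P : List (List Int)} {p : List Int} {Q : List (List Int)} (h : P = ((SW : ℤ) :: p) :: Q)
    (h1 : Nat.blt (nrm2 P) (Nat.mul 2 SW) = true)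
    (h2 : Nat.ble (Nat.mul (nrm2 P) 992) (Nat.mul 1000 SW) = true) {u v : ℝ} (hu : |u| ≤ 1) (hv : |v| ≤ 1) :
    0 < nx P u v ∧ nx P u v * 992 ≤ 1000 := by
  have hS := SWR_pos
  have k1 : nrm2 P < 2 * SW := Nat.le_of_ble_eq_true h1
  have k2 : nrm2 P * 992 ≤ 1000 * SW := Nat.le_of_ble_eq_true h2
  have k3 := ev2_near P hu hv (SW : ℤ) p Q h
  have k4 : (nrm2 P : ℝ) = SW + (nrm p + nrm2 Q) := by
    rw [h, nrm2_cons, nrm_cons, Int.natAbs_natCast]; push_cast; ring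
  have k5 : (nrm2 P : ℝ) < 2 * SW := by exact_mod_cast k1
  have k6 : (nrm2 P : ℝ) * 992 ≤ 1000 * SW := by exact_mod_cast k2
  rw [SW_cast] at k4 k5 k6
  have k7 : (((SW : ℕ) : ℤ) : ℝ) = SWR := by rw [← SW_cast]; push_cast; rfl
  rw [k7] at k3
  obtain ⟨k8, k9⟩ := abs_le.1 k3
  constructor
  · exact div_pos (by linarith) hS
  · rw [nx, div_mul_eq_mul_div, div_le_iff₀ hS]
    nlinarith

end Pool.Agent.T9h50.TL
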