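import Pool.Agent.T9h50.TL.Wsd4

/-!
# The defect on the unstable manifold, in the state space
-/

set_option autoImplicit false
set_option exponentiation.threshold 3000

open scoped NNReal ComplexConjugate Topology
open Complex Set Filter

namespace Pool.Agent.T9h50.TL

open Pool.Agent.T9h50.TB (E kd kd_eq fI fI_eq fN fN_eq evR dR nrm nrm_cons hasDerivAt_evR abs_evR_le
  combine hasDerivAt_mk)

/-- the parameters near the relative equilibrium -/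
noncomputable def P0 : Par := ⟨7 / 2, 99 / 100, 99 / 100, 99 / 100, by norm_num, by norm_num, by norm_num,
  by norm_num⟩

lemma I3_mul (x y : ℝ) : (I * (s3 : ℂ)) * (⟨x, s3 * y⟩ : ℂ) = ⟨-(3 * y), s3 * x⟩ := by
  apply Complex.ext
  · simp only [Complex.mul_re, Complex.mul_im, Complex.I_re, Complex.I_im, Complex.ofReal_re,
      Complex.ofReal_im]
    have := s3_sq
    linear_combination (-y) * this
  · simp only [Complex.mul_re, Complex.mul_im, Complex.I_re, Complex.I_im, Complex.ofReal_re,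
      Complex.ofReal_im]
    ring

lemma norm_mk3 {a b c : ℝ} (ha : |a| ≤ c) (hb : |b| ≤ c) : ‖(⟨a, s3 * b⟩ : ℂ)‖ ≤ 2.7321 * c := by
  have h := s3_pos
  have h2 := s3_lt
  have hc : 0 ≤ c := (abs_nonneg _).trans ha
  calc ‖(⟨a, s3 * b⟩ : ℂ)‖ ≤ |a| + |s3 * b| := Complex.norm_le_abs_re_add_abs_im _
    _ = |a| + s3 * |b| := by rw [abs_mul, abs_of_pos h]
    _ ≤ c + 1.7321 * c := by gcongr
    _ = 2.7321 * c := by ring

lemma smul_mk (c a b : ℝ) : (c : ℝ) • (⟨a, s3 * b⟩ : ℂ) = ⟨c * a, s3 * (c * b)⟩ := by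
  apply Complex.ext
  · simp
  · simp; ring

lemma sub_mk (a b c d : ℝ) : (⟨a, s3 * b⟩ : ℂ) - ⟨c, s3 * d⟩ = ⟨a - c, s3 * (b - d)⟩ := by
  apply Complex.ext
  · simp
  · simp; ring

lemma add_mk (a b c d : ℝ) : (⟨a, s3 * b⟩ : ℂ) + ⟨c, s3 * d⟩ = ⟨a + c, s3 * (b + d)⟩ := by
  apply Complex.ext
  · simp
  · simp; ring

theorem w_ga1 : Nat.blt (nrm2 WgA) (Nat.mul 2 SW) = true := by decide +kernel
theorem w_gc1 : Nat.blt (nrm2 WgC) (Nat.mul 2 SW) = true := by decide +kernel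
theorem w_gb1 : Nat.blt (nrm2 WgB) (Nat.mul 2 SW) = true := by decide +kernel
theorem w_ga2 : Nat.ble (Nat.mul (nrm2 WgA) 992) (Nat.mul 1000 SW) = true := by decide +kernel
theorem w_gc2 : Nat.ble (Nat.mul (nrm2 WgC) 992) (Nat.mul 1000 SW) = true := by decide +kernel
theorem w_gb2 : Nat.ble (Nat.mul (nrm2 WgB) 992) (Nat.mul 1000 SW) = true := by decide +kernel

theorem hdA : WgA = ((SW : ℤ) :: (WgA.headD []).tail) :: WgA.tail := by decide +kernel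
theorem hdC : WgC = ((SW : ℤ) :: (WgC.headD []).tail) :: WgC.tail := by decide +kernel
theorem hdB : WgB = ((SW : ℤ) :: (WgB.headD []).tail) :: WgB.tail := by decide +kernel

lemma kern_w {x y γ ε : ℝ} (hγ : 0 < γ) (h1 : γ * 992 ≤ 1000) (hε0 : 0 ≤ ε) (hε1 : ε ≤ 1 / 10 ^ 4)
    (h : |γ * γ * (x * x + 3 * (y * y)) - 1| ≤ ε) :
    (1 - 1 / 10 ^ 4) * 992 / 1000 ≤ ‖(⟨x, s3 * y⟩ : ℂ)‖ ∧
      ‖(γ * γ * γ : ℝ) • (⟨x, s3 * y⟩ : ℂ) - kd (99 / 100) ⟨x, s3 * y⟩‖ ≤ 41 / 10 * ε := by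
  have hz : ‖(⟨x, s3 * y⟩ : ℂ)‖ ^ 2 = x * x + 3 * (y * y) := by
    rw [← Complex.normSq_eq_norm_sq, Complex.normSq_mk]
    have := s3_sq
    linear_combination (y * y) * this
  have h2 : |(γ * ‖(⟨x, s3 * y⟩ : ℂ)‖) ^ 2 - 1| ≤ ε := by
    have e : (γ * ‖(⟨x, s3 * y⟩ : ℂ)‖) ^ 2 = γ * γ * (x * x + 3 * (y * y)) := by
      rw [mul_pow, hz]; ring
    rw [e]; exact h
  obtain ⟨k1, k2⟩ := kern_cmp2 (d := 99 / 100) (c := 992) (by norm_num) hγ hε0 hε1 h2 h1 (by norm_num)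
    (by norm_num)
  refine ⟨k1, ?_⟩
  rw [Complex.real_smul]
  refine k2.trans ?_
  rw [div_le_iff₀ (by norm_num)]
  norm_num
  linarith

theorem w_defect {u v ρ : ℝ} (h0 : 0 ≤ ρ) (h1 : ρ ≤ 1) (hu : |u| ≤ ρ) (hv : |v| ≤ ρ) :
    ‖wzd P0 u v - (fld P0 mh (wz P0 u v) - (I * (s3 : ℂ)) • wz P0 u v)‖ ≤
      2 / 10 ^ 52 * ρ + 6 / 10 ^ 21 * ρ ^ 4 ∧ Far P0 (1 / 10 ^ 3) (wz P0 u v) := by
  have g := gw' h0 h1 hu hv
  have hu1 : |u| ≤ 1 := hu.trans h1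
  have hv1 : |v| ≤ 1 := hv.trans h1
  obtain ⟨a1, a2⟩ := ng_bounds hdA w_ga1 w_ga2 hu1 hv1
  obtain ⟨c1, c2⟩ := ng_bounds hdC w_gc1 w_gc2 hu1 hv1
  obtain ⟨b1, b2⟩ := ng_bounds hdB w_gb1 w_gb2 hu1 hv1
  have hρ4 : 0 ≤ ρ ^ 4 := by positivity
  have hρ41 : ρ ^ 4 ≤ 1 := pow_le_one₀ h0 h1
  have hρ41' : ρ ^ 4 ≤ ρ := by
    calc ρ ^ 4 ≤ ρ ^ 1 := pow_le_pow_of_le_one h0 h1 (by norm_num)
      _ = ρ := pow_one ρ
  set ε : ℝ := 2500 * (1 / 10 ^ 57 * ρ + 1 / 10 ^ 25 * ρ ^ 4) with hε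
  have hε0 : 0 ≤ ε := by positivity
  have hε1 : ε ≤ 1 / 10 ^ 4 := by
    rw [hε]
    norm_num
    linarith
  obtain ⟨fa, ka⟩ := kern_w a1 a2 hε0 hε1 g.ga
  obtain ⟨fc, kc⟩ := kern_w c1 c2 hε0 hε1 g.gc
  obtain ⟨fb, kb⟩ := kern_w b1 b2 hε0 hε1 g.gb
  set A : ℂ := cw WxA WyA u v with hA
  set B : ℂ := cw WxB WyB u v with hB
  have eA : (⟨nx WxA u v, s3 * nx WyA u v⟩ : ℂ) = A := rfl
  have eB : (⟨nx WxB u v, s3 * nx WyB u v⟩ : ℂ) = B := rfl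
  have eC : (⟨nx WxA u v + nx WxB u v, s3 * (nx WyA u v + nx WyB u v)⟩ : ℂ) = A + B := by
    rw [← eA, ← eB, add_mk]
  rw [eA] at fa ka
  rw [eB] at fb kb
  rw [eC] at fc kc
  have far : Far P0 (1 / 10 ^ 3) (wz P0 u v) := by
    refine ⟨?_, ?_, ?_⟩
    · refine le_trans ?_ fa
      show (99 / 100 : ℝ) + 1 / 10 ^ 3 ≤ _
      norm_num
    · refine le_trans ?_ fc
      show (99 / 100 : ℝ) + 1 / 10 ^ 3 ≤ _
      norm_num
    · refine le_trans ?_ fb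
      show (99 / 100 : ℝ) + 1 / 10 ^ 3 ≤ _
      norm_num
  refine ⟨?_, far⟩
  set ε2 : ℝ := 2500 * (1 / 10 ^ 56 * ρ + 2 / 10 ^ 24 * ρ ^ 4) with hε2
  set ε1 : ℝ := 2500 * (1 / 10 ^ 56 * ρ + 1 / 10 ^ 56 * ρ ^ 4) with hε1'
  set γa := nx WgA u v * nx WgA u v * nx WgA u v with hγa
  set γb := nx WgB u v * nx WgB u v * nx WgB u v with hγb
  set γc := nx WgC u v * nx WgC u v * nx WgC u v with hγc
  have resA : ‖(⟨nd WpA u v - 3 * nx WqA u v, s3 * (nd WqA u v + nx WpA u v)⟩ : ℂ) -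
      ((25 / 17 : ℝ) • (γb • B - γc • (A + B)) - (26 / 17 : ℝ) • (γa • A))‖ ≤ 2.7321 * ε2 := by
    refine le_trans (le_of_eq ?_) (norm_mk3 g.pa g.qa)
    congr 1
    rw [← eC, ← eA, ← eB]
    simp only [smul_mk, sub_mk, nFA, γa, γb, γc]
  have resB : ‖(⟨nd WpB u v - 3 * nx WqB u v, s3 * (nd WqB u v + nx WpB u v)⟩ : ℂ) -
      ((1 / 17 : ℝ) • (γa • A - γc • (A + B)) - (50 / 17 : ℝ) • (γb • B))‖ ≤ 2.7321 * ε2 := by
    refine le_trans (le_of_eq ?_) (norm_mk3 g.pb g.qb)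
    congr 1
    rw [← eC, ← eA, ← eB]
    simp only [smul_mk, sub_mk, nFB, γa, γb, γc]
  have RA := combine resA ka kb kc (by norm_num) (by norm_num) (k3 := 19 * ε) (by linarith)
  have RB := combine resB kb ka kc (by norm_num) (by norm_num) (k3 := 19 * ε) (by linarith)
  have FAh : FA P0 mh A B = (25 / 17 : ℝ) • (kd (99 / 100) B - kd (99 / 100) (A + B)) -
      (26 / 17 : ℝ) • kd (99 / 100) A := by
    simp only [FA, mh0, mh1, mh2, smul_sub, P0]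
    rw [show (1 / 17 + 25 / 17 : ℝ) = 26 / 17 by norm_num]
    abel
  have FBh : FB P0 mh A B = (1 / 17 : ℝ) • (kd (99 / 100) A - kd (99 / 100) (A + B)) -
      (50 / 17 : ℝ) • kd (99 / 100) B := by
    simp only [FB, mh0, mh1, mh2, smul_sub, P0]
    rw [show (25 / 17 + 25 / 17 : ℝ) = 50 / 17 by norm_num]
  rw [← FAh] at RA
  rw [← FBh] at RB
  have hsg : P0.sg ≠ 0 := P0.sg0.ne'
  have hI : ∀ z w : List (List Int), (I * (s3 : ℂ)) * cw z w u v = ⟨-(3 * nx w u v), s3 * nx z u v⟩ :=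
    fun z w => I3_mul _ _
  have e1 : (wzd P0 u v - (fld P0 mh (wz P0 u v) - (I * (s3 : ℂ)) • wz P0 u v)).1 =
      ⟨nd WxA u v - (nx WpA u v + 3 * nx WyA u v), s3 * (nd WyA u v - (nx WqA u v - nx WxA u v))⟩ := by
    show cwd WxA WyA u v - (P0.sg • (P0.sg⁻¹ • cw WpA WqA u v) - (I * (s3 : ℂ)) * cw WxA WyA u v) = _
    rw [smul_smul, mul_inv_cancel₀ hsg, one_smul, hI]
    simp only [cw, cwd, sub_mk]
    apply Complex.ext
    · simp only [Complex.sub_re]; ring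
    · simp only [Complex.sub_im]
  have e2 : (wzd P0 u v - (fld P0 mh (wz P0 u v) - (I * (s3 : ℂ)) • wz P0 u v)).2.1 =
      ⟨nd WxB u v - (nx WpB u v + 3 * nx WyB u v), s3 * (nd WyB u v - (nx WqB u v - nx WxB u v))⟩ := by
    show cwd WxB WyB u v - (P0.sg • (P0.sg⁻¹ • cw WpB WqB u v) - (I * (s3 : ℂ)) * cw WxB WyB u v) = _
    rw [smul_smul, mul_inv_cancel₀ hsg, one_smul, hI]
    simp only [cw, cwd, sub_mk]
    apply Complex.ext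
    · simp only [Complex.sub_re]; ring
    · simp only [Complex.sub_im]
  have e3 : (wzd P0 u v - (fld P0 mh (wz P0 u v) - (I * (s3 : ℂ)) • wz P0 u v)).2.2.1 =
      P0.sg⁻¹ • ((⟨nd WpA u v - 3 * nx WqA u v, s3 * (nd WqA u v + nx WpA u v)⟩ : ℂ) - FA P0 mh A B) := by
    show P0.sg⁻¹ • cwd WpA WqA u v - (P0.sg⁻¹ • FA P0 mh A B - (I * (s3 : ℂ)) * (P0.sg⁻¹ • cw WpA WqA u v)) = _
    rw [mul_smul_comm, ← smul_sub, ← smul_sub, hI]
    congr 1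
    simp only [cwd]
    apply Complex.ext
    · simp only [Complex.sub_re]; ring
    · simp only [Complex.sub_im]; ring
  have e4 : (wzd P0 u v - (fld P0 mh (wz P0 u v) - (I * (s3 : ℂ)) • wz P0 u v)).2.2.2 =
      P0.sg⁻¹ • ((⟨nd WpB u v - 3 * nx WqB u v, s3 * (nd WqB u v + nx WpB u v)⟩ : ℂ) - FB P0 mh A B) := by
    show P0.sg⁻¹ • cwd WpB WqB u v - (P0.sg⁻¹ • FB P0 mh A B - (I * (s3 : ℂ)) * (P0.sg⁻¹ • cw WpB WqB u v)) = _
    rw [mul_smul_comm, ← smul_sub, ← smul_sub, hI]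
    congr 1
    simp only [cwd]
    apply Complex.ext
    · simp only [Complex.sub_re]; ring
    · simp only [Complex.sub_im]; ring
  have hs' : ∀ z : ℂ, ‖z‖ ≤ 2.7321 * ε2 + 19 * ε → ‖P0.sg⁻¹ • z‖ ≤ 2 / 10 ^ 52 * ρ + 6 / 10 ^ 21 * ρ ^ 4 := by
    intro z hz
    rw [norm_smul, Real.norm_of_nonneg (inv_pos.2 P0.sg0).le]
    have : P0.sg⁻¹ = 2 / 7 := by simp only [P0]; norm_num
    rw [this]
    rw [hε, hε2] at hz
    norm_num at hz ⊢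
    nlinarith
  have hp : 2.7321 * ε1 ≤ 2 / 10 ^ 52 * ρ + 6 / 10 ^ 21 * ρ ^ 4 := by
    rw [hε1']
    norm_num
    nlinarith
  rw [Prod.norm_def, Prod.norm_def, Prod.norm_def, e1, e2, e3, e4]
  exact max_le ((norm_mk3 g.xa g.ya).trans hp) (max_le ((norm_mk3 g.xb g.yb).trans hp)
    (max_le (hs' _ RA) (hs' _ RB)))

end Pool.Agent.T9h50.TL
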